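import Mathlib

/-!
# H42I: illumination of lattice polygons (MP_273810_co)

Definitions: mirrored polygons, light rays, words of lines in a group generated by two elements,
cells and states of a lattice polygon.
-/

open Set

namespace Pool.Agent.Lib.H42I

/-! ## Polygons and light rays (the plane is `ℂ`) -/

/-- The direction `d` after reflection in a mirror line with the direction `u ≠ 0`. -/
noncomputable def refl (u d : ℂ) : ℂ := u / (starRingEnd ℂ) u * (starRingEnd ℂ) d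

/-- `Ray P v q z d`: in the polygon `P` with the vertices `v 0, …, v (n-1)`, a light ray that starts at
`q` arrives at the point `z` with the direction `d`. It consists of straight segments whose interior
points are interior points of `P`; it is reflected (`bounce`) at a point in the relative interior of a
side; it never continues after a vertex. -/
inductive Ray {n : ℕ} (P : Set ℂ) (v : ZMod n → ℂ) (q : ℂ) : ℂ → ℂ → Prop
  | start (z : ℂ) (hz : z ≠ q) (h : openSegment ℝ q z ⊆ interior P) : Ray P v q z (z - q)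
  | bounce (z d w : ℂ) (i : ZMod n) (t : ℝ) (hr : Ray P v q z d)
      (hz : z ∈ openSegment ℝ (v i) (v (i + 1))) (ht : 0 < t)
      (hw : w = z + t * refl (v (i + 1) - v i) d) (h : openSegment ℝ z w ⊆ interior P) :
      Ray P v q w (refl (v (i + 1) - v i) d)

/-- `P` is a polygon with the vertices `v 0, …, v (n-1)` in cyclic order: the sides `[v i, v (i+1)]`
form a simple closed polygonal curve, `P` is a compact set whose boundary is this curve, and `P` is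
the closure of its interior, which is connected. -/
structure IsPolygon {n : ℕ} (P : Set ℂ) (v : ZMod n → ℂ) : Prop where
  three_le : 3 ≤ n
  inj : Function.Injective v
  simple : ∀ i j, i ≠ j → segment ℝ (v i) (v (i + 1)) ∩ segment ℝ (v j) (v (j + 1)) ⊆
    ({v i, v (i + 1)} : Set ℂ) ∩ {v j, v (j + 1)}
  compact : IsCompact P
  connected : IsConnected (interior P)
  closure_interior : closure (interior P) = P
  frontier_eq : frontier P = ⋃ i, segment ℝ (v i) (v (i + 1))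

/-- `P` is illuminable from `q`: every point of `P` is `q` itself or is reached by a light ray. -/
def Illuminable {n : ℕ} (P : Set ℂ) (v : ZMod n → ℂ) (q : ℂ) : Prop :=
  ∀ y ∈ P, y = q ∨ ∃ d, Ray P v q y d

/-- A light ray arrives at `z` with a positive multiple of the direction `d`. -/
def RayS {n : ℕ} (P : Set ℂ) (v : ZMod n → ℂ) (q : ℂ) (z d : ℂ) : Prop :=
  ∃ c : ℝ, 0 < c ∧ Ray P v q z (c * d)

/-- `1, s, t` are linearly independent over `ℚ`. -/
def Indep (s t : ℝ) : Prop :=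
  ∀ c₀ c₁ c₂ : ℤ, (c₀ : ℝ) + c₁ * s + c₂ * t = 0 → c₀ = 0 ∧ c₁ = 0 ∧ c₂ = 0

/-! ## Words of lines -/

/-- `U^{-k} R U^k`. -/
def cj {G : Type*} [Group G] (R U : G) (k : ℤ) : G := U ^ (-k) * R * U ^ k

/-- `W R U k m` is the product `R_{k (m-1)} ⋯ R_{k 1} R_{k 0}` with `R_j = U^{-j} R U^j`. -/
def W {G : Type*} [Group G] (R U : G) (k : ℕ → ℤ) : ℕ → G
  | 0 => 1
  | m + 1 => cj R U (k m) * W R U k m

/-- The height at which the line from `a` to `b + (m, n)` crosses the vertical line `x = j + 1`. -/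
noncomputable def ht (a b : ℝ × ℝ) (m n : ℕ) (j : ℕ) : ℝ :=
  a.2 + (n + b.2 - a.2) * ((j + 1 : ℝ) - a.1) / (m + b.1 - a.1)

/-- The line from `a` to `b + (m, n)` meets no lattice point on the vertical lines
`x = 1, …, m`. -/
def Good (a b : ℝ × ℝ) (m n : ℕ) : Prop := ∀ j < m, ∀ z : ℤ, ht a b m n j ≠ z

/-- The set of words `U^n R_{k_m} ⋯ R_{k_1}` (`k_j` the integral part of the height at `x = j`) of
the lines from `a` to `b + (m, n)`, `m, n ≥ 1`, without lattice points. -/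
def Conn {G : Type*} [Group G] (R U : G) (a b : ℝ × ℝ) : Set G :=
  {g | ∃ m n : ℕ, 1 ≤ m ∧ 1 ≤ n ∧ Good a b m n ∧
    g = U ^ (n : ℤ) * W R U (fun j => ⌊ht a b m n j⌋) m}

/-- The words of the lines of positive slope `D` through `p`: `U^n R_{k_m} ⋯ R_{k_1}` with
`k_j = ⌊p.2 + D (j - p.1)⌋` and any integer `n`. -/
def Tpl {G : Type*} [Group G] (R U : G) (p : ℝ × ℝ) : Set G :=
  {g | ∃ D : ℝ, 0 < D ∧ ∃ m : ℕ, 1 ≤ m ∧ ∃ n : ℤ,
    (∀ j < m, ∀ z : ℤ, p.2 + D * ((j + 1 : ℝ) - p.1) ≠ z) ∧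
    g = U ^ n * W R U (fun j => ⌊p.2 + D * ((j + 1 : ℝ) - p.1)⌋) m}

/-- the half open unit squares `[0,1)²` and `(0,1]²`, and the open one. -/
def InA (a : ℝ × ℝ) : Prop := 0 ≤ a.1 ∧ a.1 < 1 ∧ 0 ≤ a.2 ∧ a.2 < 1

/-- see `InA` -/
def InB (b : ℝ × ℝ) : Prop := 0 < b.1 ∧ b.1 ≤ 1 ∧ 0 < b.2 ∧ b.2 ≤ 1

/-- see `InA` -/
def InO (a : ℝ × ℝ) : Prop := 0 < a.1 ∧ a.1 < 1 ∧ 0 < a.2 ∧ a.2 < 1

/-! ## Cells and states -/

/-- A state: a cell (its lower left corner) and two orientations (`true` = not reflected). -/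
abbrev St (S : Set (ℤ × ℤ)) := {c : ℤ × ℤ // c ∈ S} × Bool × Bool

/-- local coordinate `u` or `1 - u` -/
def lc (e : Bool) (u : ℝ) : ℝ := if e then u else 1 - u

/-- sign of an orientation -/
def sg (e : Bool) (u : ℝ) : ℝ := if e then u else -u

/-- The point of the plane with the local coordinates `(u, w)` in the state `s` (cells of size
`α × β`). -/
def pt (α β : ℝ) {S : Set (ℤ × ℤ)} (s : St S) (u w : ℝ) : ℂ :=
  ⟨α * (s.1.1.1 + lc s.2.1 u), β * (s.1.1.2 + lc s.2.2 w)⟩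

/-- The direction of the plane that belongs to the local direction `(x, y)` in the state `s`. -/
def dr (α β : ℝ) {S : Set (ℤ × ℤ)} (s : St S) (x y : ℝ) : ℂ :=
  ⟨α * sg s.2.1 x, β * sg s.2.2 y⟩

open Classical in
/-- Leave a cell to the right: go to the next cell or, at a wall, reflect the horizontal
orientation. -/
noncomputable def stepR {S : Set (ℤ × ℤ)} (s : St S) : St S :=
  match s with
  | (c, true, e) => if h : (c.1.1 + 1, c.1.2) ∈ S then (⟨_, h⟩, true, e) else (c, false, e)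
  | (c, false, e) => if h : (c.1.1 - 1, c.1.2) ∈ S then (⟨_, h⟩, false, e) else (c, true, e)

open Classical in
/-- Leave a cell upwards. -/
noncomputable def stepU {S : Set (ℤ × ℤ)} (s : St S) : St S :=
  match s with
  | (c, e, true) => if h : (c.1.1, c.1.2 + 1) ∈ S then (⟨_, h⟩, e, true) else (c, e, false)
  | (c, e, false) => if h : (c.1.1, c.1.2 - 1) ∈ S then (⟨_, h⟩, e, false) else (c, e, true)

/-- The relation between a polygon `P` with vertices `v` and the set `S` of its cells of size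
`α × β`. -/
structure CellData {n : ℕ} (P : Set ℂ) (v : ZMod n → ℂ) (α β : ℝ)
    (S : Set (ℤ × ℤ)) : Prop where
  fin : S.Finite
  cover : ∀ y ∈ P, ∃ c ∈ S, ∃ u w : ℝ, 0 ≤ u ∧ u ≤ 1 ∧ 0 ≤ w ∧ w ≤ 1 ∧
    y = ⟨α * (c.1 + u), β * (c.2 + w)⟩
  inner : ∀ c ∈ S, ∀ u w : ℝ, 0 < u → u < 1 → 0 < w → w < 1 →
    (⟨α * (c.1 + u), β * (c.2 + w)⟩ : ℂ) ∈ interior P
  passR : ∀ c ∈ S, (c.1 + 1, c.2) ∈ S → ∀ w : ℝ, 0 < w → w < 1 →
    (⟨α * (c.1 + 1), β * (c.2 + w)⟩ : ℂ) ∈ interior P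
  passU : ∀ c ∈ S, (c.1, c.2 + 1) ∈ S → ∀ u : ℝ, 0 < u → u < 1 →
    (⟨α * (c.1 + u), β * (c.2 + 1)⟩ : ℂ) ∈ interior P
  wallR : ∀ c ∈ S, (c.1 + 1, c.2) ∉ S → ∀ w : ℝ, 0 < w → w < 1 →
    ∃ i, (⟨α * (c.1 + 1), β * (c.2 + w)⟩ : ℂ) ∈ openSegment ℝ (v i) (v (i + 1)) ∧
      (v i).re = (v (i + 1)).re
  wallL : ∀ c ∈ S, (c.1 - 1, c.2) ∉ S → ∀ w : ℝ, 0 < w → w < 1 →
    ∃ i, (⟨α * c.1, β * (c.2 + w)⟩ : ℂ) ∈ openSegment ℝ (v i) (v (i + 1)) ∧
      (v i).re = (v (i + 1)).re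
  wallU : ∀ c ∈ S, (c.1, c.2 + 1) ∉ S → ∀ u : ℝ, 0 < u → u < 1 →
    ∃ i, (⟨α * (c.1 + u), β * (c.2 + 1)⟩ : ℂ) ∈ openSegment ℝ (v i) (v (i + 1)) ∧
      (v i).im = (v (i + 1)).im
  wallD : ∀ c ∈ S, (c.1, c.2 - 1) ∉ S → ∀ u : ℝ, 0 < u → u < 1 →
    ∃ i, (⟨α * (c.1 + u), β * c.2⟩ : ℂ) ∈ openSegment ℝ (v i) (v (i + 1)) ∧
      (v i).im = (v (i + 1)).im
  inj : Function.Injective v
  three_le : 3 ≤ n
  conn : ∀ A : Set (ℤ × ℤ), A ⊆ S → A.Nonempty →
    (∀ c ∈ A, (c.1 + 1, c.2) ∈ S → (c.1 + 1, c.2) ∈ A) →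
    (∀ c ∈ A, (c.1 - 1, c.2) ∈ S → (c.1 - 1, c.2) ∈ A) →
    (∀ c ∈ A, (c.1, c.2 + 1) ∈ S → (c.1, c.2 + 1) ∈ A) →
    (∀ c ∈ A, (c.1, c.2 - 1) ∈ S → (c.1, c.2 - 1) ∈ A) → A = S

/-- The light can fly from the local point `(u, w)` of the state `s` in the local direction `(x, y)`
to all points of the closed cell. -/
def Fly {n : ℕ} (P : Set ℂ) (v : ZMod n → ℂ) (q : ℂ) (α β : ℝ) {S : Set (ℤ × ℤ)}
    (s : St S) (x y u w : ℝ) : Prop :=
  ∀ τ : ℝ, 0 < τ → u + τ * x ≤ 1 → w + τ * y ≤ 1 →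
    RayS P v q (pt α β s (u + τ * x) (w + τ * y)) (dr α β s x y)

/-- A polygon with sides parallel to the axes and vertices in `αℤ × βℤ`. -/
structure IsLattice {n : ℕ} (P : Set ℂ) (v : ZMod n → ℂ) (α β : ℝ) : Prop where
  poly : IsPolygon P v
  hα : 0 < α
  hβ : 0 < β
  vert : ∀ i, ∃ k l : ℤ, v i = ⟨k * α, l * β⟩
  axis : ∀ i, (v i).re = (v (i + 1)).re ∨ (v i).im = (v (i + 1)).im

/-- The cells of `P`: the cells whose open rectangle consists of interior points of `P`. -/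
def cells (P : Set ℂ) (α β : ℝ) : Set (ℤ × ℤ) :=
  {c | ∀ u w : ℝ, 0 < u → u < 1 → 0 < w → w < 1 →
    (⟨α * (c.1 + u), β * (c.2 + w)⟩ : ℂ) ∈ interior P}

end Pool.Agent.Lib.H42I
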