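import Pool.Agent.Lib.H42I.GDefs

/-! # Chunk GCells1 (M): grid cells are inside or outside -/

open Set

namespace Pool.Agent.Lib.H42I

namespace GC1

/-- open cell -/
def oc (X Y : ℤ → ℝ) (c : ℤ × ℤ) : Set ℂ := Ioo (X c.1) (X (c.1 + 1)) ×ℂ Ioo (Y c.2) (Y (c.2 + 1))

theorem mem_oc {X Y : ℤ → ℝ} {c : ℤ × ℤ} {z : ℂ} : z ∈ oc X Y c ↔
    (X c.1 < z.re ∧ z.re < X (c.1 + 1)) ∧ (Y c.2 < z.im ∧ z.im < Y (c.2 + 1)) := by
  unfold oc
  rw [Complex.mem_reProdIm]
  rfl

theorem isOpen_oc (X Y : ℤ → ℝ) (c : ℤ × ℤ) : IsOpen (oc X Y c) :=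
  IsOpen.reProdIm isOpen_Ioo isOpen_Ioo

theorem closure_oc {X Y : ℤ → ℝ} (hX : StrictMono X) (hY : StrictMono Y) (c : ℤ × ℤ) :
    closure (oc X Y c) = Icc (X c.1) (X (c.1 + 1)) ×ℂ Icc (Y c.2) (Y (c.2 + 1)) := by
  unfold oc
  rw [Complex.closure_reProdIm, closure_Ioo (hX (by omega)).ne, closure_Ioo (hY (by omega)).ne]

theorem preconn_oc (X Y : ℤ → ℝ) (c : ℤ × ℤ) : IsPreconnected (oc X Y c) := by
  have h : Convex ℝ (oc X Y c) := by
    unfold oc
    have h1 : Convex ℝ (Complex.re ⁻¹' Ioo (X c.1) (X (c.1 + 1))) :=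
      (convex_Ioo _ _).linear_preimage Complex.reLm
    have h2 : Convex ℝ (Complex.im ⁻¹' Ioo (Y c.2) (Y (c.2 + 1))) :=
      (convex_Ioo _ _).linear_preimage Complex.imLm
    exact h1.inter h2
  exact h.isPreconnected

/-- the index of the strip of a real number -/
theorem exists_idx {X : ℤ → ℝ} (hX : StrictMono X) (lo : ∀ r, ∃ k, X k ≤ r)
    (hi : ∀ r, ∃ k, r < X k) (r : ℝ) : ∃ k, X k ≤ r ∧ r < X (k + 1) := by
  obtain ⟨a, ha⟩ := lo r
  obtain ⟨b, hb⟩ := hi r
  obtain ⟨k, hk, hk'⟩ := Int.exists_greatest_of_bdd (P := fun k => X k ≤ r)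
    ⟨b, fun z hz => by
      by_contra h
      push Not at h
      exact absurd (hX h) (not_lt.2 (hz.trans hb.le))⟩ ⟨a, ha⟩
  refine ⟨k, hk, ?_⟩
  by_contra h
  push Not at h
  have := hk' (k + 1) h
  omega

theorem not_between {X : ℤ → ℝ} (hX : StrictMono X) (k m : ℤ) (h1 : X m < X k)
    (h2 : X k < X (m + 1)) : False := by
  have := hX.lt_iff_lt.1 h1
  have := hX.lt_iff_lt.1 h2
  omega

theorem seg_re {a b z : ℂ} (h : a.re = b.re) (hz : z ∈ segment ℝ a b) : z.re = a.re := by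
  obtain ⟨s, t, hs, ht, hst, rfl⟩ := hz
  simp only [Complex.add_re, Complex.real_smul, Complex.mul_re, Complex.ofReal_re,
    Complex.ofReal_im, zero_mul, sub_zero, ← h]
  rw [← add_mul, hst, one_mul]

theorem seg_im {a b z : ℂ} (h : a.im = b.im) (hz : z ∈ segment ℝ a b) : z.im = a.im := by
  obtain ⟨s, t, hs, ht, hst, rfl⟩ := hz
  simp only [Complex.add_im, Complex.real_smul, Complex.mul_im, Complex.ofReal_re,
    Complex.ofReal_im, zero_mul, add_zero, ← h]
  rw [← add_mul, hst, one_mul]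

variable {P : Set ℂ} {X Y : ℤ → ℝ}

theorem in_or_out (hX : StrictMono X) (hY : StrictMono Y)
    (hfr : ∀ z ∈ frontier P, (∃ k, z.re = X k) ∨ ∃ l, z.im = Y l) (c : ℤ × ℤ) :
    oc X Y c ⊆ interior P ∨ ∀ z ∈ oc X Y c, z ∉ P := by
  have hno : ∀ y ∈ oc X Y c, y ∉ frontier P := by
    intro y hy hyf
    rw [mem_oc] at hy
    rcases hfr y hyf with ⟨k, hk⟩ | ⟨k, hk⟩
    · rw [hk] at hy
      exact not_between hX k c.1 hy.1.1 hy.1.2
    · rw [hk] at hy
      exact not_between hY k c.2 hy.2.1 hy.2.2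
  have hcov : oc X Y c ⊆ interior P ∪ (closure P)ᶜ := by
    intro y hy
    by_cases h : y ∈ interior P
    · exact Or.inl h
    · exact Or.inr (fun h2 => hno y hy ⟨h2, h⟩)
  by_cases h1 : (oc X Y c ∩ (closure P)ᶜ).Nonempty
  · right
    intro z hz hzP
    have hzi : z ∈ interior P := by
      by_contra h
      exact hno z hz ⟨subset_closure hzP, h⟩
    obtain ⟨y, hy, hy1, hy2⟩ := preconn_oc X Y c (interior P) (closure P)ᶜ isOpen_interior
      isClosed_closure.isOpen_compl hcov ⟨z, hz, hzi⟩ h1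
    exact hy2 (subset_closure (interior_subset hy1))
  · left
    intro z hz
    rcases hcov hz with h | h
    · exact h
    · exact absurd ⟨z, hz, h⟩ h1

theorem closed_sub (hX : StrictMono X) (hY : StrictMono Y) (hP : closure (interior P) = P)
    (c : ℤ × ℤ) (hc : oc X Y c ⊆ interior P) (z : ℂ) (h1 : X c.1 ≤ z.re) (h2 : z.re ≤ X (c.1 + 1))
    (h3 : Y c.2 ≤ z.im) (h4 : z.im ≤ Y (c.2 + 1)) : z ∈ P := by
  have h : z ∈ closure (oc X Y c) := by
    rw [closure_oc hX hY, Complex.mem_reProdIm]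
    exact ⟨⟨h1, h2⟩, h3, h4⟩
  rw [← hP]
  exact closure_mono hc h

theorem fin_cells (hX : StrictMono X) (hY : StrictMono Y)
    (loX : ∀ r, ∃ k, X k ≤ r) (hiX : ∀ r, ∃ k, r < X k)
    (loY : ∀ r, ∃ k, Y k ≤ r) (hiY : ∀ r, ∃ k, r < Y k) (hP : IsCompact P) :
    {c : ℤ × ℤ | oc X Y c ⊆ interior P}.Finite := by
  obtain ⟨R, hR⟩ := hP.isBounded.subset_closedBall 0
  obtain ⟨a, ha⟩ := loX (-R)
  obtain ⟨b, hb⟩ := hiX R
  obtain ⟨a', ha'⟩ := loY (-R)
  obtain ⟨b', hb'⟩ := hiY R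
  apply ((Set.finite_Icc (a - 1) b).prod (Set.finite_Icc (a' - 1) b')).subset
  intro c hc
  have hz : (⟨(X c.1 + X (c.1 + 1)) / 2, (Y c.2 + Y (c.2 + 1)) / 2⟩ : ℂ) ∈ oc X Y c := by
    rw [mem_oc]
    have e1 : X c.1 < X (c.1 + 1) := hX (by omega)
    have e2 : Y c.2 < Y (c.2 + 1) := hY (by omega)
    exact ⟨⟨by dsimp only; linarith, by dsimp only; linarith⟩, by dsimp only; linarith, by dsimp only; linarith⟩
  have hz2 := hR (interior_subset (hc hz))
  rw [mem_closedBall_zero_iff] at hz2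
  rw [mem_oc] at hz
  have h1 := abs_le.1 ((Complex.abs_re_le_norm _).trans hz2)
  have h2 := abs_le.1 ((Complex.abs_im_le_norm _).trans hz2)
  rw [mem_prod, mem_Icc, mem_Icc]
  refine ⟨⟨?_, ?_⟩, ?_, ?_⟩
  · have : X a < X (c.1 + 1) := by linarith [hz.1.2, h1.1]
    have := hX.lt_iff_lt.1 this
    omega
  · have : X c.1 < X b := by linarith [hz.1.1, h1.2]
    have := hX.lt_iff_lt.1 this
    omega
  · have : Y a' < Y (c.2 + 1) := by linarith [hz.2.2, h2.1]
    have := hY.lt_iff_lt.1 this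
    omega
  · have : Y c.2 < Y b' := by linarith [hz.2.1, h2.2]
    have := hY.lt_iff_lt.1 this
    omega

theorem countable_range_compl_dense (X : ℤ → ℝ) : Dense (range X)ᶜ := by
  exact (countable_range X).dense_compl ℝ

theorem cover (hX : StrictMono X) (hY : StrictMono Y)
    (loX : ∀ r, ∃ k, X k ≤ r) (hiX : ∀ r, ∃ k, r < X k)
    (loY : ∀ r, ∃ k, Y k ≤ r) (hiY : ∀ r, ∃ k, r < Y k) (hP : IsCompact P)
    (hci : closure (interior P) = P)
    (hfr : ∀ z ∈ frontier P, (∃ k, z.re = X k) ∨ ∃ l, z.im = Y l) :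
    ∀ y ∈ P, ∃ c, oc X Y c ⊆ interior P ∧ X c.1 ≤ y.re ∧ y.re ≤ X (c.1 + 1) ∧
      Y c.2 ≤ y.im ∧ y.im ≤ Y (c.2 + 1) := by
  have hfin := fin_cells hX hY loX hiX loY hiY hP
  set C := {c : ℤ × ℤ | oc X Y c ⊆ interior P} with hC
  set U : Set ℂ := ⋃ c ∈ C, closure (oc X Y c) with hU
  have hUc : IsClosed U := hfin.isClosed_biUnion (fun c _ => isClosed_closure)
  have hD : Dense ((range X)ᶜ ×ℂ (range Y)ᶜ) := by
    have h1 := countable_range_compl_dense X
    have h2 := countable_range_compl_dense Y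
    intro z
    rw [Complex.closure_reProdIm, h1.closure_eq, h2.closure_eq, Complex.mem_reProdIm]
    exact ⟨trivial, trivial⟩
  have hsub : interior P ∩ ((range X)ᶜ ×ℂ (range Y)ᶜ) ⊆ U := by
    rintro z ⟨hz, hz2⟩
    rw [Complex.mem_reProdIm] at hz2
    obtain ⟨k, hk1, hk2⟩ := exists_idx hX loX hiX z.re
    obtain ⟨l, hl1, hl2⟩ := exists_idx hY loY hiY z.im
    have hzo : z ∈ oc X Y (k, l) := by
      rw [mem_oc]
      refine ⟨⟨lt_of_le_of_ne hk1 (fun h => hz2.1 ⟨k, h⟩), hk2⟩,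
        lt_of_le_of_ne hl1 (fun h => hz2.2 ⟨l, h⟩), hl2⟩
    have hcC : (k, l) ∈ C := by
      rcases in_or_out hX hY hfr (k, l) with h | h
      · exact h
      · exact absurd (interior_subset hz) (h z hzo)
    exact mem_biUnion hcC (subset_closure hzo)
  have hPU : P ⊆ U := by
    rw [← hci]
    apply closure_minimal _ hUc
    intro z hz
    have := hD.open_subset_closure_inter isOpen_interior hz
    exact hUc.closure_subset_iff.2 hsub this
  intro y hy
  have := hPU hy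
  rw [hU, mem_iUnion₂] at this
  obtain ⟨c, hc, hyc⟩ := this
  rw [closure_oc hX hY, Complex.mem_reProdIm] at hyc
  exact ⟨c, hc, hyc.1.1, hyc.1.2, hyc.2.1, hyc.2.2⟩

end GC1

variable {n : ℕ} {P : Set ℂ} {v : ZMod n → ℂ} {X Y : ℤ → ℝ}

theorem GC1.lo {X : ℤ → ℝ} (hX : Grid X) (r : ℝ) : ∃ k, X k ≤ r := by
  obtain ⟨k, hk⟩ := (hX.bot.eventually_le_atBot r).exists
  exact ⟨k, hk⟩

theorem GC1.hi {X : ℤ → ℝ} (hX : Grid X) (r : ℝ) : ∃ k, r < X k := by
  obtain ⟨k, hk⟩ := (hX.top.eventually_gt_atTop r).exists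
  exact ⟨k, hk⟩

theorem GC1.fr (hL : IsGrid P v X Y) : ∀ z ∈ frontier P, (∃ k, z.re = X k) ∨ ∃ l, z.im = Y l := by
  intro z hz
  rw [hL.poly.frontier_eq, mem_iUnion] at hz
  obtain ⟨i, hi⟩ := hz
  obtain ⟨k, l, hkl⟩ := hL.vert i
  rcases hL.axis i with h | h
  · left
    refine ⟨k, ?_⟩
    rw [GC1.seg_re h hi, hkl]
  · right
    refine ⟨l, ?_⟩
    rw [GC1.seg_im h hi, hkl]

theorem GC1.cells_iff (c : ℤ × ℤ) : c ∈ gcells P X Y ↔ GC1.oc X Y c ⊆ interior P := by
  constructor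
  · intro h z hz
    rw [GC1.mem_oc] at hz
    exact h z.re z.im hz.1.1 hz.1.2 hz.2.1 hz.2.2
  · intro h x y h1 h2 h3 h4
    exact h (GC1.mem_oc.2 ⟨⟨h1, h2⟩, h3, h4⟩)

/-- Every real number lies in an interval of the grid. Proof: `{k | X k ≤ x}` is nonempty (`bot`) and
bounded above (`top`): take its greatest element (`Int.exists_greatest_of_bdd`). -/
theorem grid_floor (hX : Grid X) (x : ℝ) : ∃ k : ℤ, X k ≤ x ∧ x < X (k + 1) := by
  exact GC1.exists_idx hX.mono (GC1.lo hX) (GC1.hi hX) x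

/-- Proof. The open rectangle `Q` of the cell `c` is connected (convex) and does not meet `frontier P`:
a point of a side `[v i, v (i+1)]` has a first coordinate in the range of `X` or a second coordinate in
the range of `Y` (`vert`, `axis`; the coordinate that is equal at both ends is constant on the
segment); by `StrictMono` there is no `X k` strictly between `X c.1` and `X (c.1+1)`. `interior P` and
`Pᶜ` (`P` closed) are open, disjoint and cover the complement of the frontier: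
`IsPreconnected.subset_or_subset` or `IsPreconnected.inter_frontier_nonempty`. -/
theorem gcell_inside_or_outside (hL : IsGrid P v X Y) (c : ℤ × ℤ) :
    c ∈ gcells P X Y ∨ ∀ x y : ℝ, X c.1 < x → x < X (c.1 + 1) → Y c.2 < y → y < Y (c.2 + 1) →
      (⟨x, y⟩ : ℂ) ∉ P := by
  rcases GC1.in_or_out hL.hX.mono hL.hY.mono (GC1.fr hL) c with h | h
  · exact Or.inl ((GC1.cells_iff c).2 h)
  · exact Or.inr (fun x y h1 h2 h3 h4 => h _ (GC1.mem_oc.2 ⟨⟨h1, h2⟩, h3, h4⟩))

/-- Proof. `P` is closed and the closed rectangle is in the closure of the open one (take e.g. the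
limit `t → 1⁻` of the points `m + t (z - m)`, `m` the centre). -/
theorem gcells_sub (hL : IsGrid P v X Y) (c : ℤ × ℤ) (hc : c ∈ gcells P X Y) (x y : ℝ)
    (hx0 : X c.1 ≤ x) (hx1 : x ≤ X (c.1 + 1)) (hy0 : Y c.2 ≤ y) (hy1 : y ≤ Y (c.2 + 1)) :
    (⟨x, y⟩ : ℂ) ∈ P := by
  exact GC1.closed_sub hL.hX.mono hL.hY.mono hL.poly.closure_interior c ((GC1.cells_iff c).1 hc)
    ⟨x, y⟩ hx0 hx1 hy0 hy1

/-- Proof. `P` is bounded, the centres of the cells are in `P`; `X k` and `Y l` are unbounded. -/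
theorem gcells_finite (hL : IsGrid P v X Y) : (gcells P X Y).Finite := by
  refine (GC1.fin_cells hL.hX.mono hL.hY.mono (GC1.lo hL.hX) (GC1.hi hL.hX) (GC1.lo hL.hY)
    (GC1.hi hL.hY) hL.poly.compact).subset ?_
  intro c hc
  exact (GC1.cells_iff c).1 hc

/-- The union of the closed cells. Proof: the right side is a finite union of compact sets, so closed;
it contains the points of `interior P` with `z.re ∉ range X`, `z.im ∉ range Y` (such a point lies in
the open rectangle of its cell (`grid_floor`), which is inside by `gcell_inside_or_outside`);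
`interior P` is in the closure of this part (the ranges are countable; or: near `z` there are points
`z + (ε, ε)` with this property, because each interval between grid coordinates is open and
`grid_floor` can be applied to `z.re`, `z.im`: for small `ε > 0`, `X k ≤ z.re < z.re + ε < X (k+1)`),
and `P = closure (interior P)`. -/
theorem gcells_cover (hL : IsGrid P v X Y) : ∀ z ∈ P, ∃ c ∈ gcells P X Y,
    X c.1 ≤ z.re ∧ z.re ≤ X (c.1 + 1) ∧ Y c.2 ≤ z.im ∧ z.im ≤ Y (c.2 + 1) := by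
  intro z hz
  obtain ⟨c, hc, h⟩ := GC1.cover hL.hX.mono hL.hY.mono (GC1.lo hL.hX) (GC1.hi hL.hX) (GC1.lo hL.hY)
    (GC1.hi hL.hY) hL.poly.compact hL.poly.closure_interior (GC1.fr hL) z hz
  exact ⟨c, (GC1.cells_iff c).2 hc, h⟩

end Pool.Agent.Lib.H42I
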