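import Pool.Agent.Lib.H42I.GDefs

/-! # Chunk GExists (S/M): every finite set of reals is contained in a grid -/

open Set

namespace Pool.Agent.Lib.H42I

/-- Proof. Induction on the finite set (`Finset.induction_on`). Empty set: `X k = k`. Step: let `X` be a
grid that contains `s`; if `x` is in the range of `X`, take `X`. Otherwise let `k` be the greatest
integer with `X k < x` (so `X k < x < X (k + 1)`), and `X' j = X j` for `j ≤ k`, `X' (k+1) = x`,
`X' j = X (j - 1)` for `j ≥ k + 2`. -/
theorem exists_grid (s : Finset ℝ) : ∃ X : ℤ → ℝ, Grid X ∧ ∀ x ∈ s, ∃ k : ℤ, X k = x := by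
  induction s using Finset.induction_on with
  | empty =>
    refine ⟨fun k => (k : ℝ), ⟨Int.cast_strictMono, ?_, ?_⟩, by simp⟩
    · exact tendsto_intCast_atTop_atTop
    · exact tendsto_intCast_atBot_iff.mpr Filter.tendsto_id
  | insert x s hx ih =>
    obtain ⟨X, hX, hs⟩ := ih
    by_cases hxr : ∃ k : ℤ, X k = x
    · refine ⟨X, hX, fun y hy => ?_⟩
      rcases Finset.mem_insert.mp hy with rfl | hy
      · exact hxr
      · exact hs y hy
    · have h1 : ∃ z : ℤ, X z < x := (hX.bot.eventually_lt_atBot x).exists
      have h2 : ∃ b : ℤ, ∀ z : ℤ, X z < x → z ≤ b := by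
        obtain ⟨b, hb⟩ := (hX.top.eventually_gt_atTop x).exists
        refine ⟨b, fun z hz => ?_⟩
        exact (hX.mono.lt_iff_lt.mp (hz.trans hb)).le
      obtain ⟨k, hk, hmax⟩ := Int.exists_greatest_of_bdd h2 h1
      have hk1 : x < X (k + 1) := by
        rcases lt_trichotomy (X (k + 1)) x with h | h | h
        · have := hmax _ h
          omega
        · exact absurd ⟨_, h⟩ hxr
        · exact h
      set X' : ℤ → ℝ := fun j => if j ≤ k then X j else if j = k + 1 then x else X (j - 1)
        with hX'
      have e1 : ∀ j, j ≤ k → X' j = X j := fun j hj => by simp only [hX', if_pos hj]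
      have e2 : X' (k + 1) = x := by
        have : ¬ (k + 1 ≤ k) := by omega
        simp only [hX', if_neg this, if_true]
      have e3 : ∀ j, k + 2 ≤ j → X' j = X (j - 1) := fun j hj => by
        have h : ¬ (j ≤ k) := by omega
        have h' : ¬ (j = k + 1) := by omega
        simp only [hX', if_neg h, if_neg h']
      have hle : ∀ j, X (j - 1) ≤ X' j ∧ X' j ≤ X j := by
        intro j
        rcases lt_trichotomy j (k + 1) with h | h | h
        · rw [e1 j (by omega)]
          exact ⟨hX.mono.monotone (by omega), le_refl _⟩
        · subst h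
          rw [e2]
          refine ⟨?_, hk1.le⟩
          have : k + 1 - 1 = k := by omega
          rw [this]
          exact hk.le
        · rw [e3 j (by omega)]
          exact ⟨le_refl _, hX.mono.monotone (by omega)⟩
      refine ⟨X', ⟨?_, ?_, ?_⟩, ?_⟩
      · refine strictMono_int_of_lt_succ fun j => ?_
        rcases lt_trichotomy j k with h | h | h
        · rw [e1 j h.le, e1 (j + 1) (by omega)]
          exact hX.mono (by omega)
        · subst h
          rw [e1 j le_rfl, e2]
          exact hk
        · rcases eq_or_ne j (k + 1) with h' | h'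
          · subst h'
            rw [e2, e3 _ (by omega)]
            have : k + 1 + 1 - 1 = k + 1 := by omega
            rw [this]
            exact hk1
          · rw [e3 j (by omega), e3 (j + 1) (by omega)]
            exact hX.mono (by omega)
      · refine Filter.tendsto_atTop_mono (fun j => (hle j).1) ?_
        exact hX.top.comp (Filter.tendsto_atTop_add_const_right _ (-1 : ℤ) Filter.tendsto_id)
      · exact Filter.tendsto_atBot_mono (fun j => (hle j).2) hX.bot
      · intro y hy
        rcases Finset.mem_insert.mp hy with rfl | hy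
        · exact ⟨k + 1, e2⟩
        · obtain ⟨j, hj⟩ := hs y hy
          rcases le_or_gt j k with h | h
          · exact ⟨j, (e1 j h).trans hj⟩
          · refine ⟨j + 1, ?_⟩
            rw [e3 _ (by omega)]
            have : j + 1 - 1 = j := by omega
            rw [this]
            exact hj

/-- Every polygon with sides parallel to the axes lies in a grid. Proof: `ZMod n` is finite
(`3 ≤ n`); apply `exists_grid` to the sets of the first and of the second coordinates. -/
theorem exists_isGrid {n : ℕ} {P : Set ℂ} {v : ZMod n → ℂ} (h : IsPolygon P v)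
    (ha : ∀ i, (v i).re = (v (i + 1)).re ∨ (v i).im = (v (i + 1)).im) :
    ∃ X Y : ℤ → ℝ, IsGrid P v X Y := by
  have hn := h.three_le
  have : NeZero n := ⟨by omega⟩
  classical
  obtain ⟨X, hX, hx⟩ := exists_grid (Finset.univ.image fun i : ZMod n => (v i).re)
  obtain ⟨Y, hY, hy⟩ := exists_grid (Finset.univ.image fun i : ZMod n => (v i).im)
  refine ⟨X, Y, h, hX, hY, fun i => ?_, ha⟩
  obtain ⟨k, hk⟩ := hx (v i).re (Finset.mem_image_of_mem _ (Finset.mem_univ i))
  obtain ⟨l, hl⟩ := hy (v i).im (Finset.mem_image_of_mem _ (Finset.mem_univ i))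
  exact ⟨k, l, by rw [hk, hl]⟩

end Pool.Agent.Lib.H42I
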