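import Pool.Agent.Lib.H42I.GCells1

/-! # Chunk GCells3 (M/L): the cells are connected through sides -/

open Set

namespace Pool.Agent.Lib.H42I

variable {n : ℕ} {P : Set ℂ} {v : ZMod n → ℂ} {X Y : ℤ → ℝ}

namespace GC3

/-- the union of the closed cells of `A` -/
def cl (X Y : ℤ → ℝ) (A : Set (ℤ × ℤ)) : Set ℂ := ⋃ c ∈ A, closure (GC1.oc X Y c)

theorem mem_closure_oc {X Y : ℤ → ℝ} (hX : StrictMono X) (hY : StrictMono Y) {c : ℤ × ℤ} {z : ℂ} :
    z ∈ closure (GC1.oc X Y c) ↔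
      (X c.1 ≤ z.re ∧ z.re ≤ X (c.1 + 1)) ∧ (Y c.2 ≤ z.im ∧ z.im ≤ Y (c.2 + 1)) := by
  rw [GC1.closure_oc hX hY, Complex.mem_reProdIm]
  rfl

theorem near {X : ℤ → ℝ} (hX : StrictMono X) {k m : ℤ} {r : ℝ} (h1 : X k ≤ r) (h2 : r ≤ X (k + 1))
    (h3 : X m ≤ r) (h4 : r ≤ X (m + 1)) : m = k ∨ m = k + 1 ∨ m = k - 1 := by
  have e1 := hX.le_iff_le.1 (h1.trans h4)
  have e2 := hX.le_iff_le.1 (h3.trans h2)
  omega

theorem isClosed_cl {X Y : ℤ → ℝ} {A : Set (ℤ × ℤ)} (hA : A.Finite) : IsClosed (cl X Y A) :=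
  hA.isClosed_biUnion (fun _ _ => isClosed_closure)

theorem meets (hL : IsGrid P v X Y) {A : Set (ℤ × ℤ)} (hA : A ⊆ gcells P X Y) (hne : A.Nonempty) :
    (interior P ∩ cl X Y A).Nonempty := by
  obtain ⟨c, hc⟩ := hne
  have e1 : X c.1 < X (c.1 + 1) := hL.hX.mono (by omega)
  have e2 : Y c.2 < Y (c.2 + 1) := hL.hY.mono (by omega)
  have hz : (⟨(X c.1 + X (c.1 + 1)) / 2, (Y c.2 + Y (c.2 + 1)) / 2⟩ : ℂ) ∈ GC1.oc X Y c := by
    rw [GC1.mem_oc]
    exact ⟨⟨by dsimp only; linarith, by dsimp only; linarith⟩, by dsimp only; linarith,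
      by dsimp only; linarith⟩
  exact ⟨_, (GC1.cells_iff c).1 (hA hc) hz, mem_biUnion hc (subset_closure hz)⟩

theorem mem_cells (hL : IsGrid P v X Y) {c : ℤ × ℤ} {z : ℂ} (hz : z ∈ interior P)
    (hc : z ∈ closure (GC1.oc X Y c)) : c ∈ gcells P X Y := by
  rw [GC1.cells_iff]
  rcases GC1.in_or_out hL.hX.mono hL.hY.mono (GC1.fr hL) c with h | h
  · exact h
  · exfalso
    obtain ⟨y, hy1, hy2⟩ := mem_closure_iff.1 hc (interior P) isOpen_interior hz
    exact h y hy2 (interior_subset hy1)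

end GC3

/-- Proof. Let `B = gcells \ A` and suppose `B ≠ ∅`. Let `FA`, `FB` be the unions of the closed
rectangles of the cells in `A`, `B`: closed sets (finite unions, `gcells_finite`) that cover `P`
(`gcells_cover`) and meet `interior P`. (a) A point `z ∈ interior P` is in no two closed cells
`c ∈ A`, `c' ∈ B`: every cell whose closed rectangle contains `z` is a cell of `P` (its open rectangle
has points near `z`, which are in `P`; `gcell_inside_or_outside`); `c` and `c'` differ by at most one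
in both coordinates (`StrictMono`); if they differ in one coordinate they are neighbours, so `c' ∈ A`
by the closure properties; if they differ in both, the cell `(c'.1, c.2)` also contains `z`, is a cell
of `P`, and is a neighbour of both. (b) So `interior P` (connected) is covered by two closed sets,
disjoint on it and both meeting it (`isPreconnected_closed_iff`): contradiction. -/
theorem gcells_conn (hL : IsGrid P v X Y) (A : Set (ℤ × ℤ)) (hA : A ⊆ gcells P X Y)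
    (hne : A.Nonempty)
    (h1 : ∀ c ∈ A, (c.1 + 1, c.2) ∈ gcells P X Y → (c.1 + 1, c.2) ∈ A)
    (h2 : ∀ c ∈ A, (c.1 - 1, c.2) ∈ gcells P X Y → (c.1 - 1, c.2) ∈ A)
    (h3 : ∀ c ∈ A, (c.1, c.2 + 1) ∈ gcells P X Y → (c.1, c.2 + 1) ∈ A)
    (h4 : ∀ c ∈ A, (c.1, c.2 - 1) ∈ gcells P X Y → (c.1, c.2 - 1) ∈ A) : A = gcells P X Y := by
  by_contra hcon
  have hX := hL.hX.mono
  have hY := hL.hY.mono
  have hfin := gcells_finite hL
  have hB : (gcells P X Y \ A).Nonempty := by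
    rw [Set.nonempty_iff_ne_empty]
    intro h
    exact hcon (subset_antisymm hA (sdiff_eq_empty.1 h))
  have hcov : interior P ⊆ GC3.cl X Y A ∪ GC3.cl X Y (gcells P X Y \ A) := by
    intro z hz
    obtain ⟨c, hc, e1, e2, e3, e4⟩ := gcells_cover hL z (interior_subset hz)
    have hzc : z ∈ closure (GC1.oc X Y c) := (GC3.mem_closure_oc hX hY).2 ⟨⟨e1, e2⟩, e3, e4⟩
    by_cases h : c ∈ A
    · exact Or.inl (mem_biUnion h hzc)
    · exact Or.inr (mem_biUnion (⟨hc, h⟩ : c ∈ gcells P X Y \ A) hzc)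
  obtain ⟨z, hz, hzA, hzB⟩ := isPreconnected_closed_iff.1 hL.poly.connected.isPreconnected
    (GC3.cl X Y A) (GC3.cl X Y (gcells P X Y \ A)) (GC3.isClosed_cl (hfin.subset hA))
    (GC3.isClosed_cl (hfin.subset sdiff_subset)) hcov (GC3.meets hL hA hne)
    (GC3.meets hL sdiff_subset hB)
  obtain ⟨c, hc, hzc⟩ := mem_iUnion₂.1 hzA
  obtain ⟨c', hc', hzc'⟩ := mem_iUnion₂.1 hzB
  obtain ⟨⟨a1, a2⟩, a3, a4⟩ := (GC3.mem_closure_oc hX hY).1 hzc
  obtain ⟨⟨b1, b2⟩, b3, b4⟩ := (GC3.mem_closure_oc hX hY).1 hzc'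
  have he : (c'.1, c.2) ∈ gcells P X Y :=
    GC3.mem_cells hL hz ((GC3.mem_closure_oc hX hY).2 ⟨⟨b1, b2⟩, a3, a4⟩)
  have heA : (c'.1, c.2) ∈ A := by
    rcases GC3.near hX a1 a2 b1 b2 with h | h | h
    · rw [h]; exact hc
    · rw [h] at he ⊢; exact h1 c hc he
    · rw [h] at he ⊢; exact h2 c hc he
  have hc'P : (c'.1, c'.2) ∈ gcells P X Y := hc'.1
  have hc'A : (c'.1, c'.2) ∈ A := by
    rcases GC3.near hY a3 a4 b3 b4 with h | h | h
    · rw [h]; exact heA
    · rw [h] at hc'P ⊢; exact h3 _ heA hc'P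
    · rw [h] at hc'P ⊢; exact h4 _ heA hc'P
  exact hc'.2 hc'A

end Pool.Agent.Lib.H42I
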