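import Pool.Agent.Lib.H42I.GCells2
import Pool.Agent.Lib.H42I.GCells3

/-! # H42I: the cell data of a rectilinear polygon (assembly) -/

namespace Pool.Agent.Lib.H42I

variable {n : ℕ} {P : Set ℂ} {v : ZMod n → ℂ} {X Y : ℤ → ℝ}

theorem gData (hL : IsGrid P v X Y) : GData P v X Y (gcells P X Y) where
  hX := hL.hX
  hY := hL.hY
  fin := gcells_finite hL
  cover := gcells_cover hL
  inner := fun _ hc => hc
  passR := fun c hc hc' y hy0 hy1 => gcells_passR hL c hc hc' y hy0 hy1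
  passU := fun c hc hc' x hx0 hx1 => gcells_passU hL c hc hc' x hx0 hx1
  wallR := by
    intro c hc hc' y hy0 hy1
    exact gcells_wall_vert hL (c.1 + 1) c.2 (Or.inl ⟨by simpa using hc, hc'⟩) y hy0 hy1
  wallL := by
    intro c hc hc' y hy0 hy1
    exact gcells_wall_vert hL c.1 c.2 (Or.inr ⟨hc', hc⟩) y hy0 hy1
  wallU := by
    intro c hc hc' x hx0 hx1
    exact gcells_wall_hor hL c.1 (c.2 + 1) (Or.inl ⟨by simpa using hc, hc'⟩) x hx0 hx1
  wallD := by
    intro c hc hc' x hx0 hx1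
    exact gcells_wall_hor hL c.1 c.2 (Or.inr ⟨hc', hc⟩) x hx0 hx1
  inj := hL.poly.inj
  three_le := hL.poly.three_le
  conn := fun A hA hne h1 h2 h3 h4 => gcells_conn hL A hA hne h1 h2 h3 h4

end Pool.Agent.Lib.H42I
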