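import Pool.Agent.Lib.H42I.Bridge
import Pool.Agent.Lib.H42I.GCD
import Pool.Agent.Lib.H25R.AllLit

/-! # H42I: rectilinear polygons are illuminated from every generic point, through every cell -/

namespace Pool.Agent.Lib.H42I

open Pool.Agent.Lib.H25R

variable {n : ℕ} {P : Set ℂ} {v : ZMod n → ℂ} {X Y : ℤ → ℝ}

theorem nongen_countable {S : Type} (M : Surf S) [Fintype S] (x : S) :
    {b : ℝ | ¬ Gen M x b}.Countable := by
  classical
  have hA : (⋃ i : {i : (S → ℤ) × ℤ // i.2 ≠ 0},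
      {b : ℝ | (∑ z, (i.1.1 z : ℝ) * (M.h z / M.W z)) + (i.1.2 : ℝ) * (b / M.W x) = 0}).Countable := by
    refine Set.countable_iUnion fun i => ?_
    refine Set.Subsingleton.countable ?_
    intro b hb b' hb'
    have hb1 : (∑ z, (i.1.1 z : ℝ) * (M.h z / M.W z)) + (i.1.2 : ℝ) * (b / M.W x) = 0 := hb
    have hb2 : (∑ z, (i.1.1 z : ℝ) * (M.h z / M.W z)) + (i.1.2 : ℝ) * (b' / M.W x) = 0 := hb'
    have h1 : (i.1.2 : ℝ) * (b / M.W x) = (i.1.2 : ℝ) * (b' / M.W x) := by linarith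
    have h2 : b / M.W x = b' / M.W x := mul_left_cancel₀ (by exact_mod_cast i.2) h1
    rwa [div_left_inj' (W_pos M x).ne'] at h2
  refine hA.mono ?_
  intro b hb
  have hb' : ¬ Gen M x b := hb
  unfold Gen at hb'
  push Not at hb'
  obtain ⟨n, k, h1, h2⟩ := hb'
  exact Set.mem_iUnion.2 ⟨⟨(n, k), h2⟩, h1⟩

private theorem orient (X : ℤ → ℝ) (hX : Grid X) (k : ℤ) (r : ℝ) (h0 : X k ≤ r)
    (h1 : r ≤ X (k + 1)) : ∃ (e : Bool) (u : ℝ), 0 < u ∧ u ≤ X (k + 1) - X k ∧ gc X k e u = r := by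
  have hk := hX.mono (show k < k + 1 by omega)
  rcases eq_or_lt_of_le h0 with h | h
  · exact ⟨false, X (k + 1) - X k, by linarith, le_rfl, by simp [gc, h]⟩
  · exact ⟨true, r - X k, by linarith, by linarith, by simp [gc]⟩

/-- Every point of `P`, through every cell that touches it, is reached by a light ray from every
point `q` off countably many horizontal and vertical lines. -/
theorem grid_lit (hL : IsGrid P v X Y) : ∃ A B : Set ℝ, A.Countable ∧ B.Countable ∧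
    (∀ k, X k ∈ A) ∧ (∀ k, Y k ∈ B) ∧
    ∀ q ∈ P, q.re ∉ A → q.im ∉ B → ∀ y ∈ P, ∀ c ∈ gcells P X Y, X c.1 ≤ y.re →
      y.re ≤ X (c.1 + 1) → Y c.2 ≤ y.im → y.im ≤ Y (c.2 + 1) →
      ∃ D : ℂ, Ray P v q y D ∧ D.re ≠ 0 ∧ D.im ≠ 0 ∧
        ∃ τ₀ : ℝ, 0 < τ₀ ∧ ∀ τ : ℝ, 0 < τ → τ < τ₀ →
          X c.1 < (y - τ * D).re ∧ (y - τ * D).re < X (c.1 + 1) ∧
          Y c.2 < (y - τ * D).im ∧ (y - τ * D).im < Y (c.2 + 1) := by
  classical
  have hC := gData hL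
  have hX := hL.hX
  have hY := hL.hY
  haveI : Finite {c : ℤ × ℤ // c ∈ gcells P X Y} := hC.fin
  haveI : Finite (St (gcells P X Y)) := inferInstance
  haveI : Fintype (St (gcells P X Y)) := Fintype.ofFinite _
  set M := surf X Y (gcells P X Y) hC.hX hC.hY with hM
  refine ⟨Set.range X ∪ ⋃ s : St (gcells P X Y), (fun b => X s.1.1.1 + b) '' {b | ¬ Gen M.swap s b},
    Set.range Y ∪ ⋃ s : St (gcells P X Y), (fun b => Y s.1.1.2 + b) '' {b | ¬ Gen M s b},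
    ?_, ?_, fun k => Or.inl ⟨k, rfl⟩, fun k => Or.inl ⟨k, rfl⟩, ?_⟩
  · exact (Set.countable_range X).union
      (Set.countable_iUnion fun s => (nongen_countable M.swap s).image _)
  · exact (Set.countable_range Y).union
      (Set.countable_iUnion fun s => (nongen_countable M s).image _)
  intro q hq hqA hqB y hy c hc hy1 hy2 hy3 hy4
  -- the point `q`
  obtain ⟨c₀, hc₀, h1, h2, h3, h4⟩ := hC.cover q hq
  have g1 : X c₀.1 < q.re := lt_of_le_of_ne h1 (fun h => hqA (Or.inl ⟨_, h⟩))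
  have g2 : q.re < X (c₀.1 + 1) := lt_of_le_of_ne h2 (fun h => hqA (Or.inl ⟨_, h.symm⟩))
  have g3 : Y c₀.2 < q.im := lt_of_le_of_ne h3 (fun h => hqB (Or.inl ⟨_, h⟩))
  have g4 : q.im < Y (c₀.2 + 1) := lt_of_le_of_ne h4 (fun h => hqB (Or.inl ⟨_, h.symm⟩))
  set x : St (gcells P X Y) := (⟨c₀, hc₀⟩, true, true) with hx
  have hga : Gen M.swap x (q.re - X c₀.1) := by
    by_contra hn
    refine hqA (Or.inr (Set.mem_iUnion.2 ⟨x, q.re - X c₀.1, hn, ?_⟩))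
    simp [hx]
  have hgb : Gen M x (q.im - Y c₀.2) := by
    by_contra hn
    refine hqB (Or.inr (Set.mem_iUnion.2 ⟨x, q.im - Y c₀.2, hn, ?_⟩))
    simp [hx]
  have hqp : gpt X Y x (q.re - X c₀.1) (q.im - Y c₀.2) = q := by
    apply Complex.ext <;> simp [gpt, gc, hx]
  -- the point `y`
  obtain ⟨e, c', hc'0, hc'1, hce⟩ := orient X hX c.1 y.re hy1 hy2
  obtain ⟨f, d', hd'0, hd'1, hdf⟩ := orient Y hY c.2 y.im hy3 hy4
  set t : St (gcells P X Y) := (⟨c, hc⟩, e, f) with ht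
  have hyp : gpt X Y t c' d' = y := by
    apply Complex.ext <;> simp [gpt, ht, hce, hdf]
  have hwt : M.w t = wd X t := rfl
  have hht : M.h t = hg Y t := rfl
  have hres := all_lit M (surf_trans hC) mirh mirv mirh_R mirh_U (fun _ => rfl) (fun _ => rfl)
    mirv_U mirv_R (fun _ => rfl) (fun _ => rfl) hgb hga (by linarith)
    (show q.re - X c₀.1 < X (c₀.1 + 1) - X c₀.1 by linarith) (by linarith)
    (show q.im - Y c₀.2 < Y (c₀.2 + 1) - Y c₀.2 by linarith) t c' d' hc'0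
    (show c' ≤ X (c.1 + 1) - X c.1 from hc'1) hd'0 (show d' ≤ Y (c.2 + 1) - Y c.2 from hd'1)
  have hfin : ∀ (z : St (gcells P X Y)) (u w : ℝ), Lit M x (q.re - X c₀.1) (q.im - Y c₀.2) z u w →
      0 < u → u ≤ wd X z → 0 < w → w ≤ hg Y z → gpt X Y z u w = y → z.1.1 = c →
      ∃ D : ℂ, Ray P v q y D ∧ D.re ≠ 0 ∧ D.im ≠ 0 ∧
        ∃ τ₀ : ℝ, 0 < τ₀ ∧ ∀ τ : ℝ, 0 < τ → τ < τ₀ →
          X c.1 < (y - τ * D).re ∧ (y - τ * D).re < X (c.1 + 1) ∧
          Y c.2 < (y - τ * D).im ∧ (y - τ * D).im < Y (c.2 + 1) := by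
    intro z u w hl hu0 hu1 hw0 hw1 hz hzc
    have := lit_ray hC hl (show 0 < q.re - X c₀.1 by linarith)
      (show q.re - X c₀.1 < X (c₀.1 + 1) - X c₀.1 by linarith)
      (show 0 < q.im - Y c₀.2 by linarith)
      (show q.im - Y c₀.2 < Y (c₀.2 + 1) - Y c₀.2 by linarith) hu0 hu1 hw0 hw1
    rwa [hqp, hz, hzc] at this
  rcases hres with h | ⟨hcw, h⟩ | ⟨hdh, h⟩
  · exact hfin t c' d' h hc'0 hc'1 hd'0 hd'1 hyp rfl
  · rw [hwt] at hcw h
    refine hfin (mirh t) (wd X t - c') d' h (by linarith) (by rw [wd_mirh]; linarith) hd'0 hd'1 ?_ rfl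
    rw [gpt_mirh, hyp]
  · rw [hht] at hdh h
    refine hfin (mirv t) c' (hg Y t - d') h hc'0 hc'1 (by linarith) (by rw [hg_mirv]; linarith) ?_ rfl
    rw [gpt_mirv, hyp]

end Pool.Agent.Lib.H42I
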