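import Pool.Agent.Lib.H42I.Defs

/-! # Chunk Cases (S/M): the five kinds of targets -/

namespace Pool.Agent.Lib.H42I

/-- Proof. If `Indep a₁ b₁` fails there is a relation `c₀ + c₁ a₁ + c₂ b₁ = 0`, not all `c` zero; as
`1, a₁` are independent (`Indep a₁ a₂` with `c₂ = 0`), `c₂ ≠ 0`, so `b₁ = r₁ + s₁ a₁` with rational
`r₁, s₁`; in the same way `b₂ = r₂ + s₂ a₂`. If `s₁ = s₂ = 0` the third alternative holds. If
`s₁ ≠ s₂`, the fourth: `c₀ + c₁ (a₁ - a₂) + c₂ (b₁ - b₂) = 0` gives `c₁ + c₂ s₁ = 0`,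
`c₁ + c₂ s₂ = 0` (by `Indep a₁ a₂`, after multiplication with a common denominator), so `c₂ = 0`,
`c₁ = 0`, `c₀ = 0`. If `s₁ = s₂ ≠ 0`, the fifth: `b₁` is irrational, and `1 - b₁` has the
coefficient `-s₁ ≠ s₂`. -/
theorem five_cases (a₁ a₂ b₁ b₂ : ℝ) (h : Indep a₁ a₂) :
    Indep a₁ b₁ ∨ Indep a₂ b₂ ∨ (∃ r₁ r₂ : ℚ, b₁ = r₁ ∧ b₂ = r₂) ∨ Indep (a₁ - a₂) (b₁ - b₂) ∨
      (Irrational b₁ ∧ Indep (a₁ - a₂) ((1 - b₁) - b₂)) := by
  classical
  -- rational coefficients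
  have hq : ∀ x y z : ℚ, (x : ℝ) + y * a₁ + z * a₂ = 0 → x = 0 ∧ y = 0 ∧ z = 0 := by
    intro x y z hxyz
    have hxd : (x.den : ℝ) ≠ 0 := by exact_mod_cast x.den_nz
    have hyd : (y.den : ℝ) ≠ 0 := by exact_mod_cast y.den_nz
    have hzd : (z.den : ℝ) ≠ 0 := by exact_mod_cast z.den_nz
    have hx : (x : ℝ) = (x.num : ℝ) / (x.den : ℝ) := by
      exact_mod_cast (Rat.num_div_den x).symm
    have hy : (y : ℝ) = (y.num : ℝ) / (y.den : ℝ) := by
      exact_mod_cast (Rat.num_div_den y).symm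
    have hz : (z : ℝ) = (z.num : ℝ) / (z.den : ℝ) := by
      exact_mod_cast (Rat.num_div_den z).symm
    have key := h (x.num * (y.den * z.den : ℕ)) (y.num * (x.den * z.den : ℕ))
      (z.num * (x.den * y.den : ℕ)) (by
        have e : (x.den : ℝ) * y.den * z.den * ((x : ℝ) + y * a₁ + z * a₂) = 0 := by
          rw [hxyz, mul_zero]
        rw [hx, hy, hz] at e
        push_cast
        field_simp at e
        linear_combination e)
    obtain ⟨k0, k1, k2⟩ := key
    have nx : ((y.den * z.den : ℕ) : ℤ) ≠ 0 := by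
      exact_mod_cast Nat.mul_ne_zero y.den_nz z.den_nz
    have ny : ((x.den * z.den : ℕ) : ℤ) ≠ 0 := by
      exact_mod_cast Nat.mul_ne_zero x.den_nz z.den_nz
    have nz : ((x.den * y.den : ℕ) : ℤ) ≠ 0 := by
      exact_mod_cast Nat.mul_ne_zero x.den_nz y.den_nz
    refine ⟨?_, ?_, ?_⟩
    · exact Rat.zero_of_num_zero ((mul_eq_zero.1 k0).resolve_right nx)
    · exact Rat.zero_of_num_zero ((mul_eq_zero.1 k1).resolve_right ny)
    · exact Rat.zero_of_num_zero ((mul_eq_zero.1 k2).resolve_right nz)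
  have aux : ∀ a b : ℝ, (∀ c₀ c₁ : ℤ, (c₀ : ℝ) + c₁ * a = 0 → c₀ = 0 ∧ c₁ = 0) → ¬ Indep a b →
      ∃ r s : ℚ, b = r + s * a := by
    intro a b ha hab
    unfold Indep at hab
    push Not at hab
    obtain ⟨c0, c1, c2, hc, hne⟩ := hab
    have hc2 : c2 ≠ 0 := by
      intro h0
      subst h0
      have := ha c0 c1 (by push_cast at hc; linarith)
      exact hne this.1 this.2 rfl
    have hc2' : (c2 : ℝ) ≠ 0 := by exact_mod_cast hc2
    refine ⟨-(c0 : ℚ) / c2, -(c1 : ℚ) / c2, ?_⟩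
    push_cast
    field_simp
    linear_combination hc
  by_cases h1 : Indep a₁ b₁
  · exact Or.inl h1
  by_cases h2 : Indep a₂ b₂
  · exact Or.inr (Or.inl h2)
  have ha1 : ∀ c₀ c₁ : ℤ, (c₀ : ℝ) + c₁ * a₁ = 0 → c₀ = 0 ∧ c₁ = 0 := by
    intro c0 c1 hc
    have := h c0 c1 0 (by push_cast; linarith)
    exact ⟨this.1, this.2.1⟩
  have ha2 : ∀ c₀ c₁ : ℤ, (c₀ : ℝ) + c₁ * a₂ = 0 → c₀ = 0 ∧ c₁ = 0 := by
    intro c0 c1 hc
    have := h c0 0 c1 (by push_cast; linarith)
    exact ⟨this.1, this.2.2⟩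
  obtain ⟨r1, s1, hb1⟩ := aux a₁ b₁ ha1 h1
  obtain ⟨r2, s2, hb2⟩ := aux a₂ b₂ ha2 h2
  by_cases hs : s1 = s2
  · by_cases hs0 : s1 = 0
    · refine Or.inr (Or.inr (Or.inl ⟨r1, r2, ?_, ?_⟩))
      · rw [hb1, hs0]; simp
      · rw [hb2, ← hs, hs0]; simp
    · refine Or.inr (Or.inr (Or.inr (Or.inr ⟨?_, ?_⟩)))
      · rintro ⟨ρ, hρ⟩
        have := hq (r1 - ρ) s1 0 (by push_cast; rw [hρ, hb1]; ring)
        exact hs0 this.2.1
      · intro c0 c1 c2 hc
        have e := hq (c0 + c2 * (1 - r1 - r2)) (c1 - c2 * s1) (-c1 - c2 * s1) (by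
          push_cast
          rw [hb1, hb2, ← hs] at hc
          linear_combination hc)
        obtain ⟨e0, e1, e2⟩ := e
        have hc2 : (c2 : ℚ) = 0 := by
          have : (c2 : ℚ) * s1 = 0 := by linarith
          exact (mul_eq_zero.1 this).resolve_right hs0
        have hc1 : (c1 : ℚ) = 0 := by rw [hc2] at e1; linarith
        have hc0 : (c0 : ℚ) = 0 := by rw [hc2] at e0; linarith
        exact ⟨by exact_mod_cast hc0, by exact_mod_cast hc1, by exact_mod_cast hc2⟩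
  · refine Or.inr (Or.inr (Or.inr (Or.inl ?_)))
    intro c0 c1 c2 hc
    have e := hq (c0 + c2 * (r1 - r2)) (c1 + c2 * s1) (-c1 - c2 * s2) (by
      push_cast
      rw [hb1, hb2] at hc
      linear_combination hc)
    obtain ⟨e0, e1, e2⟩ := e
    have hc2 : (c2 : ℚ) = 0 := by
      have : (c2 : ℚ) * (s1 - s2) = 0 := by linarith
      exact (mul_eq_zero.1 this).resolve_right (sub_ne_zero.2 hs)
    have hc1 : (c1 : ℚ) = 0 := by rw [hc2] at e1; linarith
    have hc0 : (c0 : ℚ) = 0 := by rw [hc2] at e0; linarith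
    exact ⟨by exact_mod_cast hc0, by exact_mod_cast hc1, by exact_mod_cast hc2⟩

/-- Generic points exist. Proof: e.g. `q = (α r √2, β s √3)` with rational `r, s ≠ 0` (dense), and
`1, √2, √3` are independent over `ℚ`; or countability: for fixed `(c₀, c₁, c₂)` the set of bad `q` is a
line or empty. -/
theorem exists_generic (α β : ℝ) (hα : 0 < α) (hβ : 0 < β) (O : Set ℂ) (hO : IsOpen O)
    (hne : O.Nonempty) : ∃ q ∈ O, Indep (q.re / α) (q.im / β) := by
  obtain ⟨z, hz⟩ := hne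
  obtain ⟨ε, hε, hball⟩ := Metric.isOpen_iff.1 hO z hz
  have hS1 : (Set.range (fun r : ℚ => α * (r : ℝ))).Countable := Set.countable_range _
  obtain ⟨x, hxS, hxb⟩ := (hS1.dense_compl ℝ).exists_mem_open Metric.isOpen_ball
    (⟨z.re, Metric.mem_ball_self (half_pos hε)⟩ : (Metric.ball z.re (ε / 2)).Nonempty)
  have hS2 : (Set.range (fun p : ℚ × ℚ => β * ((p.1 : ℝ) + (p.2 : ℝ) * (x / α)))).Countable :=
    Set.countable_range _
  obtain ⟨y, hyS, hyb⟩ := (hS2.dense_compl ℝ).exists_mem_open Metric.isOpen_ball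
    (⟨z.im, Metric.mem_ball_self (half_pos hε)⟩ : (Metric.ball z.im (ε / 2)).Nonempty)
  rw [Metric.mem_ball, Real.dist_eq] at hxb hyb
  refine ⟨⟨x, y⟩, hball ?_, ?_⟩
  · rw [Metric.mem_ball, Complex.dist_eq]
    calc ‖(⟨x, y⟩ : ℂ) - z‖ ≤ |((⟨x, y⟩ : ℂ) - z).re| + |((⟨x, y⟩ : ℂ) - z).im| :=
          Complex.norm_le_abs_re_add_abs_im _
      _ = |x - z.re| + |y - z.im| := by simp
      _ < ε := by linarith
  · intro c0 c1 c2 hc
    simp only at hc
    have hc2 : c2 = 0 := by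
      by_contra h0
      have h0' : (c2 : ℝ) ≠ 0 := by exact_mod_cast h0
      apply hyS
      refine ⟨(-(c0 : ℚ) / c2, -(c1 : ℚ) / c2), ?_⟩
      have hβ' : β ≠ 0 := hβ.ne'
      have e : y / β = -(c0 : ℝ) / c2 + -(c1 : ℝ) / c2 * (x / α) := by
        field_simp
        have := hc
        field_simp at this
        linear_combination this
      have e2 : y = β * (y / β) := by field_simp
      push_cast
      rw [← e]
      exact e2.symm
    subst hc2
    have hc1 : c1 = 0 := by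
      by_contra h0
      have h0' : (c1 : ℝ) ≠ 0 := by exact_mod_cast h0
      apply hxS
      refine ⟨-(c0 : ℚ) / c1, ?_⟩
      have hα' : α ≠ 0 := hα.ne'
      have e : x / α = -(c0 : ℝ) / c1 := by
        rw [eq_div_iff h0']
        push_cast at hc
        linear_combination hc
      have e2 : x = α * (x / α) := by field_simp
      push_cast
      rw [← e]
      exact e2.symm
    subst hc1
    refine ⟨?_, rfl, rfl⟩
    push_cast at hc
    have : (c0 : ℝ) = 0 := by linarith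
    exact_mod_cast this

end Pool.Agent.Lib.H42I
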