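import Pool.Agent.Lib.H42I.Defs

/-! # Chunk Kron1 (S/M): multiples of an irrational number are dense modulo one -/

namespace Pool.Agent.Lib.H42I

/-- Proof. E.g. from Mathlib (`AddCircle`, `dense_addSubgroupClosure_pair_iff` or similar), or by
Dirichlet: there is `t₀ ≥ 1` with `0 < |t₀ θ - z₀| < ε` (`Real.exists_int_int_abs_mul_sub_le`,
nonzero because `θ` is irrational); then the multiples `(T + j) t₀ θ`, `j = 0, 1, …`, move modulo one
by steps smaller than `ε` in one direction, so some `t = (T + j) * t₀` works. -/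
theorem kron1 (θ : ℝ) (hθ : Irrational θ) (x ε : ℝ) (hε : 0 < ε) (T : ℕ) :
    ∃ t : ℕ, T ≤ t ∧ ∃ z : ℤ, |(t : ℝ) * θ - x - z| < ε := by
  obtain ⟨n, hn⟩ := exists_nat_one_div_lt hε
  obtain ⟨j, k, hk, -, hjk⟩ := Real.exists_int_int_abs_mul_sub_le θ (Nat.succ_pos n)
  set δ : ℝ := (k : ℝ) * θ - j with hδdef
  have hδlt : |δ| < ε := by
    refine lt_of_le_of_lt hjk (lt_of_le_of_lt ?_ hn)
    apply one_div_le_one_div_of_le (by positivity)
    push_cast
    linarith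
  have hδ0 : δ ≠ 0 := by
    intro h0
    have hk0 : (k : ℝ) ≠ 0 := by exact_mod_cast hk.ne'
    have hθe : θ = ((j / k : ℚ) : ℝ) := by
      push_cast
      rw [eq_div_iff hk0]
      have : (k : ℝ) * θ = j := by linarith
      linarith
    exact hθ ⟨(j / k : ℚ), hθe.symm⟩
  -- an integer `z` with `(x + z) / δ ≥ T`
  have hz : ∃ z : ℤ, (T : ℝ) ≤ (x + z) / δ := by
    rcases lt_or_gt_of_ne hδ0 with hneg | hpos
    · refine ⟨⌊(T : ℝ) * δ - x⌋, ?_⟩
      rw [le_div_iff_of_neg hneg]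
      have := Int.floor_le ((T : ℝ) * δ - x)
      linarith
    · refine ⟨⌈(T : ℝ) * δ - x⌉, ?_⟩
      rw [le_div_iff₀ hpos]
      have := Int.le_ceil ((T : ℝ) * δ - x)
      linarith
  obtain ⟨z, hz⟩ := hz
  set y : ℝ := (x + z) / δ with hy
  have hy0 : 0 ≤ y := le_trans (Nat.cast_nonneg T) hz
  set m : ℕ := ⌊y⌋₊ with hm
  have hmT : T ≤ m := Nat.le_floor hz
  have hm1 : (m : ℝ) ≤ y := Nat.floor_le hy0
  have hm2 : y < m + 1 := Nat.lt_floor_add_one y
  have hkn : ((k.toNat : ℕ) : ℤ) = k := Int.toNat_of_nonneg hk.le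
  have hkr : ((k.toNat : ℕ) : ℝ) = (k : ℝ) := by
    rw [← hkn]
    simp only [Int.toNat_natCast, Int.cast_natCast]
  have hk1 : 1 ≤ k.toNat := by omega
  refine ⟨m * k.toNat, le_trans hmT (Nat.le_mul_of_pos_right m hk1), (m : ℤ) * j + z, ?_⟩
  have hxy : x + z = y * δ := by
    rw [hy]; field_simp
  have hmain : ((m * k.toNat : ℕ) : ℝ) * θ - x - (((m : ℤ) * j + z : ℤ) : ℝ) = (m - y) * δ := by
    push_cast
    rw [hkr]
    have hδ' : (k : ℝ) * θ = δ + j := by rw [hδdef]; ring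
    calc (m : ℝ) * k * θ - x - (m * j + z) = m * (k * θ) - m * j - (x + z) := by ring
      _ = m * (δ + j) - m * j - y * δ := by rw [hδ', hxy]
      _ = (m - y) * δ := by ring
  rw [hmain, abs_mul]
  have h1 : |(m : ℝ) - y| ≤ 1 := by
    rw [abs_le]; constructor <;> linarith
  calc |(m : ℝ) - y| * |δ| ≤ 1 * |δ| := mul_le_mul_of_nonneg_right h1 (abs_nonneg _)
    _ = |δ| := one_mul _
    _ < ε := hδlt

end Pool.Agent.Lib.H42I
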