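import Pool.Agent.Lib.H42I.Template
import Pool.Agent.Lib.H42I.Kron1

/-! # Chunk ClassB (M): rational targets -/

namespace Pool.Agent.Lib.H42I

private theorem classB_W_congr {G : Type*} [Group G] (R U : G) (k l : ℕ → ℤ) :
    ∀ m : ℕ, (∀ j < m, cj R U (k j) = cj R U (l j)) → W R U k m = W R U l m
  | 0, _ => rfl
  | m + 1, h => by
    have h1 := classB_W_congr R U k l m (fun j hj => h j (by omega))
    have h2 := h m (by omega)
    unfold W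
    rw [h1, h2]

private theorem classB_W_shift {G : Type*} [Group G] (R U : G) (k : ℕ → ℤ) :
    ∀ m : ℕ, W R U k (m + 1) = W R U (fun j => k (j + 1)) m * cj R U (k 0)
  | 0 => by simp [W]
  | m + 1 => by
    have h1 := classB_W_shift R U k m
    have h2 : W R U k (m + 1 + 1) = cj R U (k (m + 1)) * W R U k (m + 1) := rfl
    have h3 : W R U (fun j => k (j + 1)) (m + 1)
        = cj R U (k (m + 1)) * W R U (fun j => k (j + 1)) m := rfl
    rw [h2, h1, h3, mul_assoc]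

private theorem classB_inv {G : Type*} [Group G] (R U : G) (k : ℕ → ℤ) :
    ∀ m : ℕ, (W R⁻¹ U⁻¹ k m)⁻¹ = W R U (fun j => - k (m - 1 - j)) m
  | 0 => by simp [W]
  | m + 1 => by
    have h1 := classB_inv R U k m
    have h2 : W R⁻¹ U⁻¹ k (m + 1) = cj R⁻¹ U⁻¹ (k m) * W R⁻¹ U⁻¹ k m := rfl
    have h3 : (cj R⁻¹ U⁻¹ (k m))⁻¹ = cj R U (- k m) := by
      unfold cj
      simp [mul_assoc]
    rw [h2, mul_inv_rev, h1, h3, classB_W_shift]
    have h4 : (fun j => - k (m - 1 - j)) = fun j => - k (m + 1 - 1 - (j + 1)) := by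
      funext j
      have : m - 1 - j = m + 1 - 1 - (j + 1) := by omega
      rw [this]
    rw [h4]
    simp

private theorem classB_conj {G : Type*} [Group G] (R U : G) (k : ℕ → ℤ) (n : ℤ) :
    ∀ m : ℕ, W R U (fun j => n + k j) m = U ^ (-n) * W R U k m * U ^ n
  | 0 => by simp [W]
  | m + 1 => by
    have h1 := classB_conj R U k n m
    have h2 : W R U (fun j => n + k j) (m + 1)
        = cj R U (n + k m) * W R U (fun j => n + k j) m := rfl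
    have h3 : W R U k (m + 1) = cj R U (k m) * W R U k m := rfl
    rw [h2, h1, h3]
    unfold cj
    group

private theorem classB_eta (h : ℕ → ℝ) :
    ∀ m : ℕ, (∀ j < m, ∀ z : ℤ, h j ≠ z) →
      ∃ η : ℝ, 0 < η ∧ ∀ j < m, (⌊h j⌋ : ℝ) + η < h j ∧ h j < ⌊h j⌋ + 1 - η
  | 0, _ => ⟨1, one_pos, fun j hj => absurd hj (by omega)⟩
  | m + 1, hh => by
    obtain ⟨η, hη, h1⟩ := classB_eta h m (fun j hj => hh j (by omega))
    have h2 : (⌊h m⌋ : ℝ) < h m :=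
      lt_of_le_of_ne (Int.floor_le _) (fun e => hh m (by omega) ⌊h m⌋ e.symm)
    have h3 : h m < (⌊h m⌋ : ℝ) + 1 := Int.lt_floor_add_one _
    refine ⟨min η (min ((h m - ⌊h m⌋) / 2) ((⌊h m⌋ + 1 - h m) / 2)), ?_, ?_⟩
    · refine lt_min hη (lt_min (by linarith) (by linarith))
    · intro j hj
      have e1 := min_le_left η (min ((h m - ⌊h m⌋) / 2) ((⌊h m⌋ + 1 - h m) / 2))
      have e2 := min_le_right η (min ((h m - ⌊h m⌋) / 2) ((⌊h m⌋ + 1 - h m) / 2))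
      have e3 := min_le_left ((h m - ⌊h m⌋) / 2) ((⌊h m⌋ + 1 - h m) / 2)
      have e4 := min_le_right ((h m - ⌊h m⌋) / 2) ((⌊h m⌋ + 1 - h m) / 2)
      rcases Nat.lt_succ_iff_lt_or_eq.mp hj with hj' | rfl
      · obtain ⟨h4, h5⟩ := h1 j hj'
        constructor <;> linarith
      · constructor <;> linarith

private theorem classB_cj_period {G : Type*} [Group G] (R U : G) (L : ℕ) (hU : U ^ L = 1)
    (k s : ℤ) : cj R U (k + L * s) = cj R U k := by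
  have h1 : U ^ ((L : ℤ) * s) = 1 := by
    rw [zpow_mul, zpow_natCast, hU, one_zpow]
  have h2 : U ^ (-((L : ℤ) * s)) = 1 := by
    rw [zpow_neg, h1, inv_one]
  unfold cj
  rw [neg_add, zpow_add, h2, mul_one, zpow_add, h1, mul_one]

/-- Proof. Let `L = Nat.card G`, `p = (1 - b.1, 1 - b.2)` (rational, `InA p`), `v` the denominator of
`p.1`. `tpl_all` for the pair `R⁻¹, U⁻¹`, the point `p` and `g⁻¹` (in the closure of
`{R⁻¹, U⁻¹}`) gives `D > 0`, `m ≥ 1`, `n' : ℤ` with heights `p.2 + D (i+1-p.1) ∉ ℤ`,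
`κ i = ⌊p.2 + D (i+1-p.1)⌋` for `i < m`, and `g⁻¹ = (U⁻¹)^n' * W R⁻¹ U⁻¹ κ m`.
Let `M = m + b.1 - a.1` (irrational, positive), `n = n' + L t`, `σ = (n + b.2 - a.2)/M`.
`σ/(v L) = const + t /(v M)` with `1/(v M)` irrational, so by `kron1` there is a large `t` (`n ≥ 1`)
with `σ = D + ε₁ + v L z`, `|ε₁|` small; then `p.2 + σ (i+1-p.1)` is not an integer and its floor is
`≡ κ i mod L` (`v (i+1-p.1)` is an integer). For `j < m`, with `i = m - 1 - j`: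
`ht a b m n j = n + b.2 - σ (m + b.1 - (j+1)) = n + 1 - (p.2 + σ (i+1-p.1))` (as
`m + b.1 - (j+1) = i + b.1 = i + 1 - p.1`), so it is not an integer and
`⌊ht j⌋ = n - ⌊p.2 + σ (i+1-p.1)⌋ ≡ n - κ (m-1-j) mod L`. It remains to see
`U^n * W R U (fun j => n - κ (m-1-j)) m = g`, i.e. the inverse of
`(U⁻¹)^n * W R⁻¹ U⁻¹ κ m`: `(W R⁻¹ U⁻¹ κ m)⁻¹ = [U^κ0 R U^-κ0] [U^κ1 R U^-κ1] ⋯ [U^κ(m-1) R U^-κ(m-1)]`
(in this order from left to right) and `cj R U (n - κ) = U^-n (U^κ R U^-κ) U^n`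
(a general lemma by induction on `m`, e.g. with `W` of a shifted sequence:
`W R U k (m+1) = W R U (fun j => k (j+1)) m * cj R U (k 0)`). -/
theorem conn_rat {G : Type*} [Group G] [Finite G] (R U : G) (a b : ℝ × ℝ) (ha : InO a)
    (hb : InB b) (hi : Irrational a.1) (hr : ∃ r₁ r₂ : ℚ, b = ((r₁ : ℝ), (r₂ : ℝ))) :
    ∀ g ∈ Subgroup.closure ({R, U} : Set G), g ∈ Conn R U a b := by
  intro g hg
  obtain ⟨r₁, r₂, hr⟩ := hr
  obtain ⟨ha1, ha2, ha3, ha4⟩ := ha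
  obtain ⟨hb1, hb2, hb3, hb4⟩ := hb
  have hbr1 : b.1 = (r₁ : ℝ) := by rw [hr]
  have hbr2 : b.2 = (r₂ : ℝ) := by rw [hr]
  have hpA : InA ((1 - b.1, 1 - b.2) : ℝ × ℝ) := by
    refine ⟨?_, ?_, ?_, ?_⟩ <;> simp <;> linarith
  have hpr : ∃ s₁ s₂ : ℚ, ((1 - b.1, 1 - b.2) : ℝ × ℝ) = ((s₁ : ℝ), (s₂ : ℝ)) :=
    ⟨1 - r₁, 1 - r₂, by rw [hbr1, hbr2]; push_cast; rfl⟩
  have hmem : g⁻¹ ∈ Subgroup.closure ({R⁻¹, U⁻¹} : Set G) := by
    have h1 : ({R⁻¹, U⁻¹} : Set G) = ({R, U} : Set G)⁻¹ := by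
      rw [Set.inv_insert, Set.inv_singleton]
    rw [h1, Subgroup.closure_inv]
    exact inv_mem hg
  obtain ⟨D, hD, m, hm, n', hgood, hgw⟩ := tpl_all R⁻¹ U⁻¹ _ hpA hpr g⁻¹ hmem
  obtain ⟨η, hη, hflo⟩ := classB_eta
    (fun j : ℕ => (1 - b.2) + D * ((j + 1 : ℝ) - (1 - b.1))) m (fun j hj z => hgood j hj z)
  set L : ℕ := Nat.card G with hLdef
  have hL : 1 ≤ L := Nat.card_pos
  have hUL : U ^ L = 1 := pow_card_eq_one'
  set v : ℕ := r₁.den with hvdef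
  have hv : 1 ≤ v := r₁.den_pos
  have hvr : (v : ℝ) * b.1 = (r₁.num : ℝ) := by
    rw [hbr1, hvdef]
    have := Rat.den_mul_eq_num r₁
    exact_mod_cast this
  have hLr : (1 : ℝ) ≤ (L : ℝ) := by exact_mod_cast hL
  have hvr1 : (1 : ℝ) ≤ (v : ℝ) := by exact_mod_cast hv
  have hmr : (1 : ℝ) ≤ (m : ℝ) := by exact_mod_cast hm
  have hMpos : 0 < (m : ℝ) + b.1 - a.1 := by linarith
  have hMirr : Irrational ((m : ℝ) + b.1 - a.1) := by
    have h1 : (m : ℝ) + b.1 - a.1 = (((m : ℚ) + r₁ : ℚ) : ℝ) - a.1 := by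
      rw [hbr1]; push_cast; ring
    rw [h1]
    exact hi.ratCast_sub _
  set M : ℝ := (m : ℝ) + b.1 - a.1 with hMdef
  have hθ : Irrational (1 / ((v : ℝ) * M)) := by
    have h1 : Irrational ((v : ℝ) * M) := hMirr.natCast_mul (by omega)
    rw [one_div]
    exact h1.inv
  have hvL : 0 < (v : ℝ) * L := by positivity
  obtain ⟨t, htT, z, hz⟩ := kron1 (1 / ((v : ℝ) * M)) hθ
    ((D - ((n' : ℝ) + b.2 - a.2) / M) / ((v : ℝ) * L)) (η / (((m : ℝ) + 1) * ((v : ℝ) * L)))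
    (by positivity) (n'.natAbs + 1)
  have hnpos : 1 ≤ n' + (L : ℤ) * t := by
    have h1 : (t : ℤ) ≤ (L : ℤ) * t := by
      have : (1 : ℤ) ≤ L := by exact_mod_cast hL
      nlinarith [Int.natCast_nonneg t]
    have h2 : ((n'.natAbs + 1 : ℕ) : ℤ) ≤ t := by exact_mod_cast htT
    push_cast at h2
    have h3 : -n' ≤ |n'| := neg_le_abs n'
    omega
  obtain ⟨n, hn⟩ : ∃ n : ℕ, (n : ℤ) = n' + (L : ℤ) * t :=
    ⟨(n' + (L : ℤ) * t).toNat, Int.toNat_of_nonneg (by omega)⟩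
  have hn1 : 1 ≤ n := by omega
  have hnR : (n : ℝ) = n' + (L : ℝ) * t := by exact_mod_cast hn
  set σ : ℝ := ((n : ℝ) + b.2 - a.2) / M with hσdef
  have hσM : σ * M = (n : ℝ) + b.2 - a.2 := by
    rw [hσdef]; field_simp
  obtain ⟨e, he⟩ : ∃ e : ℝ, σ = D + e + (v : ℝ) * L * z := ⟨σ - D - (v : ℝ) * L * z, by ring⟩
  have heabs : |e| < η / ((m : ℝ) + 1) := by
    have h1 : (t : ℝ) * (1 / ((v : ℝ) * M))
        - (D - ((n' : ℝ) + b.2 - a.2) / M) / ((v : ℝ) * L) - z = e / ((v : ℝ) * L) := by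
      have h2 : e = σ - D - (v : ℝ) * L * z := by rw [he]; ring
      rw [h2, hσdef, hnR]
      field_simp
      ring
    rw [h1, abs_div, abs_of_pos hvL, div_lt_iff₀ hvL] at hz
    have h3 : η / (((m : ℝ) + 1) * ((v : ℝ) * L)) * ((v : ℝ) * L) = η / ((m : ℝ) + 1) := by
      field_simp
    rwa [h3] at hz
  have hkey : ∀ i : ℕ, i < m →
      ((⌊(1 - b.2) + D * ((i + 1 : ℝ) - (1 - b.1))⌋ + (L : ℤ) * (z * ((v : ℤ) * i + r₁.num)) : ℤ) : ℝ)
        < (1 - b.2) + σ * ((i + 1 : ℝ) - (1 - b.1)) ∧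
      (1 - b.2) + σ * ((i + 1 : ℝ) - (1 - b.1)) <
      ((⌊(1 - b.2) + D * ((i + 1 : ℝ) - (1 - b.1))⌋ + (L : ℤ) * (z * ((v : ℤ) * i + r₁.num)) : ℤ) : ℝ)
        + 1 := by
    intro i him
    obtain ⟨h1, h2⟩ := hflo i him
    have h3 : (i : ℝ) + 1 ≤ m := by exact_mod_cast him
    have h0 : (0 : ℝ) ≤ i := Nat.cast_nonneg i
    have h4 : |e * ((i : ℝ) + b.1)| < η := by
      rw [abs_mul, abs_of_pos (show (0 : ℝ) < i + b.1 by linarith)]
      have h5 : (i : ℝ) + b.1 ≤ (m : ℝ) + 1 := by linarith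
      calc |e| * ((i : ℝ) + b.1) ≤ |e| * ((m : ℝ) + 1) :=
            mul_le_mul_of_nonneg_left h5 (abs_nonneg e)
        _ < η / ((m : ℝ) + 1) * ((m : ℝ) + 1) := by
            apply mul_lt_mul_of_pos_right heabs
            positivity
        _ = η := by field_simp
    have h6 := abs_lt.mp h4
    have h7 : (1 - b.2) + σ * ((i + 1 : ℝ) - (1 - b.1))
        = (1 - b.2) + D * ((i + 1 : ℝ) - (1 - b.1)) + e * ((i : ℝ) + b.1)
          + (L : ℝ) * (z * ((v : ℝ) * i + r₁.num)) := by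
      rw [he, ← hvr]; ring
    rw [h7]
    push_cast
    constructor <;> linarith
  have hht : ∀ j : ℕ, j < m → ht a b m n j
      = (n : ℝ) + 1 - ((1 - b.2) + σ * (((m - 1 - j : ℕ) : ℝ) + 1 - (1 - b.1))) := by
    intro j hj
    have h1 : ((m - 1 - j : ℕ) : ℝ) = (m : ℝ) - 1 - j := by
      have h2 : m - 1 - j = m - (1 + j) := by omega
      rw [h2, Nat.cast_sub (by omega)]
      push_cast
      ring
    rw [h1]
    unfold ht
    rw [← hMdef, mul_div_right_comm, ← hσdef]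
    have h3 : σ * ((j + 1 : ℝ) - a.1)
        = σ * M - σ * ((m : ℝ) - 1 - j + 1 - (1 - b.1)) := by
      rw [hMdef]; ring
    rw [h3, hσM]
    ring
  have hfl : ∀ j : ℕ, j < m → ⌊ht a b m n j⌋
      = (n : ℤ) + - ⌊(1 - b.2) + D * ((((m - 1 - j : ℕ) : ℝ) + 1) - (1 - b.1))⌋
        + (L : ℤ) * (-(z * ((v : ℤ) * ((m - 1 - j : ℕ) : ℤ) + r₁.num))) := by
    intro j hj
    obtain ⟨h1, h2⟩ := hkey (m - 1 - j) (by omega)
    rw [Int.floor_eq_iff, hht j hj]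
    push_cast at h1 h2 ⊢
    constructor <;> linarith
  refine ⟨m, n, hm, hn1, ?_, ?_⟩
  · intro j hj w hw
    obtain ⟨h1, h2⟩ := hkey (m - 1 - j) (by omega)
    rw [hht j hj] at hw
    have h3 : (1 - b.2) + σ * ((((m - 1 - j : ℕ) : ℝ) + 1) - (1 - b.1))
        = (((n : ℤ) + 1 - w : ℤ) : ℝ) := by
      push_cast
      linarith
    rw [h3] at h1 h2
    have h4 : ⌊(1 - b.2) + D * ((((m - 1 - j : ℕ) : ℝ) + 1) - (1 - b.1))⌋
        + (L : ℤ) * (z * ((v : ℤ) * ((m - 1 - j : ℕ) : ℤ) + r₁.num)) < (n : ℤ) + 1 - w := by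
      exact_mod_cast h1
    have h5 : (n : ℤ) + 1 - w < ⌊(1 - b.2) + D * ((((m - 1 - j : ℕ) : ℝ) + 1) - (1 - b.1))⌋
        + (L : ℤ) * (z * ((v : ℤ) * ((m - 1 - j : ℕ) : ℤ) + r₁.num)) + 1 := by
      exact_mod_cast h2
    omega
  · have hU1 : U ^ (n : ℤ) = U ^ n' := by
      rw [hn, zpow_add, zpow_mul, zpow_natCast U L, hUL, one_zpow, mul_one]
    have hW1 : W R U (fun j => ⌊ht a b m n j⌋) m
        = W R U (fun j => (n : ℤ) +
          - ⌊(1 - b.2) + D * ((((m - 1 - j : ℕ) : ℝ) + 1) - (1 - b.1))⌋) m := by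
      apply classB_W_congr
      intro j hj
      rw [hfl j hj, classB_cj_period R U L hUL]
    rw [hW1, classB_conj R U
      (fun j => - ⌊(1 - b.2) + D * ((((m - 1 - j : ℕ) : ℝ) + 1) - (1 - b.1))⌋) (n : ℤ) m]
    have h2 := classB_inv R U
      (fun j : ℕ => ⌊(1 - b.2) + D * ((j + 1 : ℝ) - (1 - b.1))⌋) m
    rw [← h2, hU1]
    have h3 : g = (g⁻¹)⁻¹ := (inv_inv g).symm
    rw [h3, hgw]
    have h4 : U ^ (-(n : ℤ)) = (U ^ n')⁻¹ := by rw [zpow_neg, hU1]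
    rw [mul_inv_rev, h4, inv_zpow, inv_inv, mul_assoc, mul_inv_cancel_left]

end Pool.Agent.Lib.H42I
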