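import Pool.Agent.Lib.H42I.Climb

/-! # Chunk Line (M): the light ray along a line without lattice points -/

namespace Pool.Agent.Lib.H42I

variable {n : ℕ} {P : Set ℂ} {v : ZMod n → ℂ} {α β : ℝ} {S : Set (ℤ × ℤ)}

/-- Proof. Let `x = m + b.1 - a.1 > 0`, `y = N + b.2 - a.2 > 0`, `h j = ht a b m N j`
(so `h j = a.2 + (y/x) (j + 1 - a.1)`), `k j = ⌊h j⌋`, `f j = h j - k j` in `(0,1)` (by `Good`) for
`j < m`, `T j = U^(k j) * W R U k (j+1)` (`R = pR S`, `U = pU S`). Claim: for all `j < m`,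
`Fly P v q α β (T j s₀) x y 0 (f j)`. Induction on `j`. Start `j = 0`: `fly_start` and `climb` from
`(a.1, a.2)` to `(1, f 0)` with `k 0` steps (`0 ≤ k 0`) in the state `s₀`, then `cross_right`; the new
state is `R (U^(k 0) s₀)`, and `U^(k 0) * W R U k 1 = R * U^(k 0)`. Step: from `(0, f j)` to
`(1, f (j+1))` with `k (j+1) - k j ≥ 0` steps, then cross;
`U^(k (j+1)) * W R U k (j+2) = R * U^(k (j+1) - k j) * (U^(k j) * W R U k (j+1))`.
End: `climb` from `(0, f (m-1))` to `(b.1, b.2)` with `N - k (m-1) ≥ 0` steps. -/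
theorem line_light (hC : CellData P v α β S) (hα : 0 < α) (hβ : 0 < β) (s₀ : St S)
    (a b : ℝ × ℝ) (ha : InO a) (hb : InB b) (m N : ℕ) (hm : 1 ≤ m) (hN : 1 ≤ N)
    (hg : Good a b m N) (t : St S)
    (ht' : t = (pU S ^ (N : ℤ) * W (pR S) (pU S) (fun j => ⌊ht a b m N j⌋) m) s₀) :
    RayS P v (pt α β s₀ a.1 a.2) (pt α β t b.1 b.2)
      (dr α β t (m + b.1 - a.1) (N + b.2 - a.2)) := by
  obtain ⟨M, rfl⟩ : ∃ M, m = M + 1 := ⟨m - 1, by omega⟩
  obtain ⟨ha1, ha1', ha2, ha2'⟩ := ha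
  obtain ⟨hb1, hb1', hb2, hb2'⟩ := hb
  set x : ℝ := ((M + 1 : ℕ) : ℝ) + b.1 - a.1 with hx
  set y : ℝ := (N : ℝ) + b.2 - a.2 with hy
  set h : ℕ → ℝ := fun j => ht a b (M + 1) N j with hh
  set k : ℕ → ℤ := fun j => ⌊ht a b (M + 1) N j⌋ with hk
  set q : ℂ := pt α β s₀ a.1 a.2 with hq
  have hM0 : (0 : ℝ) ≤ M := Nat.cast_nonneg M
  have hx0 : 0 < x := by rw [hx]; push_cast; linarith
  have hN' : (1 : ℝ) ≤ N := by exact_mod_cast hN
  have hy0 : 0 < y := by rw [hy]; linarith
  have hh' : ∀ j : ℕ, (h j - a.2) * x = ((j : ℝ) + 1 - a.1) * y := by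
    intro j
    have e : h j = a.2 + y * ((j : ℝ) + 1 - a.1) / x := rfl
    rw [e]
    field_simp
    ring
  have hfl : ∀ j, ((k j : ℤ) : ℝ) + Int.fract (h j) = h j := fun j => Int.floor_add_fract (h j)
  have hf0 : ∀ j, j < M + 1 → 0 < Int.fract (h j) := by
    intro j hj
    rw [Int.fract_pos]
    exact hg j hj ⌊h j⌋
  have hf1 : ∀ j, Int.fract (h j) < 1 := fun j => Int.fract_lt_one _
  have hhstep : ∀ j : ℕ, (h (j + 1) - h j) * x = y := by
    intro j
    have e1 := hh' (j + 1)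
    have e2 := hh' j
    push_cast at e1
    linear_combination e1 - e2
  have hhlt : ∀ j : ℕ, h j < h (j + 1) := by
    intro j
    by_contra hc
    push Not at hc
    have := hhstep j
    nlinarith
  have hh0 : 0 < h 0 := by
    have e := hh' 0
    push_cast at e
    have : 0 < ((0 : ℝ) + 1 - a.1) * y := mul_pos (by linarith) hy0
    by_contra hc
    push Not at hc
    nlinarith
  have hkmono : ∀ j : ℕ, k j ≤ k (j + 1) := fun j => Int.floor_mono (hhlt j).le
  have hk0 : 0 ≤ k 0 := Int.floor_nonneg.2 hh0.le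
  have hlast : ((N : ℝ) + b.2 - h M) * x = b.1 * y := by
    have e := hh' M
    have e2 : x = (M : ℝ) + 1 + b.1 - a.1 := by rw [hx]; push_cast; ring
    have e3 : (N : ℝ) + b.2 - h M = y - (h M - a.2) := by rw [hy]; ring
    rw [e3, sub_mul, e, e2]
    ring
  have hkN : k M ≤ N := by
    have h1 : h M < N + 1 := by
      have : 0 < b.1 * y := mul_pos hb1 hy0
      by_contra hc
      push Not at hc
      have h2 : (N : ℝ) + b.2 - h M ≤ 0 := by linarith
      nlinarith
    have h2 : k M < N + 1 := by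
      rw [Int.floor_lt]
      push_cast
      exact h1
    omega
  have hpow : ∀ (z : ℤ) (_ : 0 ≤ z), pU S ^ z.toNat = pU S ^ z := by
    intro z hz
    rw [← zpow_natCast, Int.toNat_of_nonneg hz]
  have hcast : ∀ (z : ℤ) (_ : 0 ≤ z), ((z.toNat : ℕ) : ℝ) = (z : ℝ) := by
    intro z hz
    have : ((z.toNat : ℤ) : ℝ) = (z : ℝ) := by rw [Int.toNat_of_nonneg hz]
    exact_mod_cast this
  have hT : ∀ j : ℕ, (pU S ^ (k j) * W (pR S) (pU S) k (j + 1)) =
      pR S * (pU S ^ (k j) * W (pR S) (pU S) k j) := by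
    intro j
    simp only [W, cj]
    rw [← mul_assoc, ← mul_assoc, ← mul_assoc, ← zpow_add, add_neg_cancel, zpow_zero, one_mul,
      mul_assoc]
  have claim : ∀ j : ℕ, j < M + 1 →
      Fly P v q α β ((pU S ^ (k j) * W (pR S) (pU S) k (j + 1)) s₀) x y 0 (Int.fract (h j)) := by
    intro j
    induction j with
    | zero =>
      intro hj
      have h1 := fly_start hC hα hβ s₀ x y a.1 a.2 hx0 hy0 ha1 ha1' ha2 ha2'
      have h2 := climb hC hα hβ q x y hx0 hy0 (k 0).toNat s₀ a.1 a.2 ha1.le ha1' ha2.le ha2' h1 1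
        (Int.fract (h 0)) ha1' le_rfl (hf0 0 hj) (hf1 0).le (by
          have e := hh' 0
          push_cast at e
          rw [hcast _ hk0]
          have e2 := hfl 0
          linear_combination e + x * e2)
      have h3 := cross_right hC hα hβ q _ x y _ hx0 hy0 (hf0 0 hj) (hf1 0) h2
      rw [hpow _ hk0] at h3
      rw [hT 0]
      have e0 : W (pR S) (pU S) k 0 = 1 := rfl
      rw [e0, mul_one]
      exact h3
    | succ j ih =>
      intro hj
      have h1 := ih (by omega)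
      have hd : 0 ≤ k (j + 1) - k j := sub_nonneg.2 (hkmono j)
      have h2 := climb hC hα hβ q x y hx0 hy0 (k (j + 1) - k j).toNat _ 0 (Int.fract (h j)) le_rfl
        one_pos (hf0 j (by omega)).le (hf1 j) h1 1
        (Int.fract (h (j + 1))) one_pos le_rfl (hf0 (j + 1) hj) (hf1 (j + 1)).le (by
          have e := hhstep j
          rw [hcast _ hd]
          push_cast
          have e2 := hfl j
          have e3 := hfl (j + 1)
          linear_combination e + x * e3 - x * e2)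
      have h3 := cross_right hC hα hβ q _ x y _ hx0 hy0 (hf0 (j + 1) hj) (hf1 (j + 1)) h2
      rw [hpow _ hd] at h3
      rw [hT (j + 1)]
      have e4 : pU S ^ (k (j + 1)) * W (pR S) (pU S) k (j + 1) =
          pU S ^ (k (j + 1) - k j) * (pU S ^ (k j) * W (pR S) (pU S) k (j + 1)) := by
        rw [← mul_assoc, ← zpow_add, sub_add_cancel]
      rw [e4]
      exact h3
  have h1 := claim M (by omega)
  have hd : 0 ≤ (N : ℤ) - k M := sub_nonneg.2 hkN
  have h2 := climb hC hα hβ q x y hx0 hy0 ((N : ℤ) - k M).toNat _ 0 (Int.fract (h M)) le_rfl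
    one_pos (hf0 M (by omega)).le (hf1 M) h1 b.1 b.2 hb1 hb1' hb2 hb2' (by
      rw [hcast _ hd]
      push_cast
      have e2 := hfl M
      linear_combination hlast - x * e2)
  rw [hpow _ hd] at h2
  have e5 : pU S ^ (N : ℤ) * W (pR S) (pU S) k (M + 1) =
      pU S ^ ((N : ℤ) - k M) * (pU S ^ (k M) * W (pR S) (pU S) k (M + 1)) := by
    rw [← mul_assoc, ← zpow_add, sub_add_cancel]
  rw [ht', e5]
  exact h2

end Pool.Agent.Lib.H42I
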