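import Pool.Agent.Lib.H42I.Dual

/-! # Chunk Swap (M): words of lines read along the horizontal lines -/

namespace Pool.Agent.Lib.H42I

/-- bounds for the heights -/
private theorem swap_ht_bounds (a b : ℝ × ℝ) (ha : InA a) (hb : InB b) (m n : ℕ) (hm : 1 ≤ m)
    (hn : 1 ≤ n) (j : ℕ) (hj : j < m) :
    a.2 < ht a b m n j ∧ ht a b m n j < n + 1 := by
  obtain ⟨ha1, ha2, ha3, ha4⟩ := ha
  obtain ⟨hb1, hb2, hb3, hb4⟩ := hb
  have hmr : (1 : ℝ) ≤ m := by exact_mod_cast hm
  have hnr : (1 : ℝ) ≤ n := by exact_mod_cast hn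
  have hM : 0 < (m : ℝ) + b.1 - a.1 := by linarith
  have hN : 0 < (n : ℝ) + b.2 - a.2 := by linarith
  have hj1 : ((j : ℝ) + 1) ≤ m := by exact_mod_cast hj
  have hj0 : (0 : ℝ) ≤ j := Nat.cast_nonneg j
  have hpos : 0 < (j : ℝ) + 1 - a.1 := by linarith
  unfold ht
  constructor
  · have : 0 < (n + b.2 - a.2) * ((j + 1 : ℝ) - a.1) / (m + b.1 - a.1) := by positivity
    linarith
  · have h1 : (n + b.2 - a.2) * ((j + 1 : ℝ) - a.1) / (m + b.1 - a.1) < n + b.2 - a.2 := by
      rw [div_lt_iff₀ hM]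
      apply mul_lt_mul_of_pos_left _ hN
      linarith
    linarith

/-- the two ways to compare a lattice point with the line -/
private theorem swap_le_iff (a b : ℝ × ℝ) (ha : InA a) (hb : InB b) (m n : ℕ) (hm : 1 ≤ m)
    (hn : 1 ≤ n) (i j : ℕ) :
    ((i : ℝ) + 1 ≤ ht a b m n j ↔ ht a.swap b.swap n m i ≤ (j : ℝ) + 1) ∧
    ((i : ℝ) + 1 = ht a b m n j ↔ ht a.swap b.swap n m i = (j : ℝ) + 1) := by
  obtain ⟨ha1, ha2, ha3, ha4⟩ := ha
  obtain ⟨hb1, hb2, hb3, hb4⟩ := hb
  have hmr : (1 : ℝ) ≤ m := by exact_mod_cast hm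
  have hnr : (1 : ℝ) ≤ n := by exact_mod_cast hn
  have hM : 0 < (m : ℝ) + b.1 - a.1 := by linarith
  have hN : 0 < (n : ℝ) + b.2 - a.2 := by linarith
  have e1 : ht a b m n j - ((i : ℝ) + 1)
      = ((n + b.2 - a.2) * ((j + 1 : ℝ) - a.1) - (m + b.1 - a.1) * ((i : ℝ) + 1 - a.2))
        / (m + b.1 - a.1) := by
    unfold ht
    field_simp
    ring
  have e2 : (j : ℝ) + 1 - ht a.swap b.swap n m i
      = ((n + b.2 - a.2) * ((j + 1 : ℝ) - a.1) - (m + b.1 - a.1) * ((i : ℝ) + 1 - a.2))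
        / (n + b.2 - a.2) := by
    unfold ht
    simp only [Prod.fst_swap, Prod.snd_swap]
    field_simp
    ring
  constructor
  · constructor
    · intro h
      rw [← sub_nonneg, e1, le_div_iff₀ hM, zero_mul] at h
      rw [← sub_nonneg, e2]
      exact div_nonneg h hN.le
    · intro h
      rw [← sub_nonneg, e2, le_div_iff₀ hN, zero_mul] at h
      rw [← sub_nonneg, e1]
      exact div_nonneg h hM.le
  · constructor
    · intro h
      have h1 : ht a b m n j - ((i : ℝ) + 1) = 0 := by rw [h]; ring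
      rw [e1, div_eq_zero_iff] at h1
      have h2 : (j : ℝ) + 1 - ht a.swap b.swap n m i = 0 := by
        rw [e2, div_eq_zero_iff]
        left
        exact h1.resolve_right hM.ne'
      linarith
    · intro h
      have h1 : (j : ℝ) + 1 - ht a.swap b.swap n m i = 0 := by rw [h]; ring
      rw [e2, div_eq_zero_iff] at h1
      have h2 : ht a b m n j - ((i : ℝ) + 1) = 0 := by
        rw [e1, div_eq_zero_iff]
        left
        exact h1.resolve_right hN.ne'
      linarith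

private theorem swap_sub {G : Type*} [Group G] (R U : G) (a b : ℝ × ℝ) (ha : InA a) (hb : InB b) :
    Conn R U a b ⊆ Conn U R a.swap b.swap := by
  have ha' : InA a.swap := ⟨ha.2.2.1, ha.2.2.2, ha.1, ha.2.1⟩
  have hb' : InB b.swap := ⟨hb.2.2.1, hb.2.2.2, hb.1, hb.2.1⟩
  rintro g ⟨m, n, hm, hn, hgood, rfl⟩
  have hkb : ∀ j < m, a.2 < ht a b m n j ∧ ht a b m n j < n + 1 :=
    fun j hj => swap_ht_bounds a b ha hb m n hm hn j hj
  have hlb : ∀ i < n, a.1 < ht a.swap b.swap n m i ∧ ht a.swap b.swap n m i < m + 1 :=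
    fun i hi => swap_ht_bounds a.swap b.swap ha' hb' n m hn hm i hi
  have hiff := swap_le_iff a b ha hb m n hm hn
  refine ⟨n, m, hn, hm, ?_, ?_⟩
  · intro i hi z hz
    obtain ⟨h1, h2⟩ := hlb i hi
    rw [hz] at h1 h2
    have h3 : (0 : ℝ) < z := lt_of_le_of_lt ha.1 h1
    have h3' : 0 < z := by exact_mod_cast h3
    have h4' : z < m + 1 := by exact_mod_cast h2
    obtain ⟨j, hj⟩ : ∃ j : ℕ, z = (j : ℤ) + 1 := ⟨(z - 1).toNat, by omega⟩
    have hjm : j < m := by omega
    have h5 := (hiff i j).2.2 (by rw [hz, hj]; push_cast; ring)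
    exact hgood j hjm ((i : ℤ) + 1) (by push_cast; exact h5.symm)
  · apply dual
    · intro j hj
      obtain ⟨h1, h2⟩ := hkb j hj
      constructor
      · apply Int.floor_nonneg.mpr
        linarith [ha.2.2.1]
      · apply Int.lt_add_one_iff.mp
        rw [Int.floor_lt]
        push_cast
        exact h2
    · intro i hi
      obtain ⟨h1, h2⟩ := hlb i hi
      constructor
      · apply Int.floor_nonneg.mpr
        linarith [ha.1]
      · apply Int.lt_add_one_iff.mp
        rw [Int.floor_lt]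
        push_cast
        exact h2
    · intro j hj i hi
      have hne : ht a.swap b.swap n m i ≠ (j : ℝ) + 1 := by
        intro h
        have h5 := (hiff i j).2.2 h
        exact hgood j hj ((i : ℤ) + 1) (by push_cast; exact h5.symm)
      rw [Int.le_floor]
      push_cast
      rw [(hiff i j).1, ← Int.lt_add_one_iff, Int.floor_lt]
      push_cast
      exact ⟨fun h => lt_of_le_of_ne h hne, fun h => h.le⟩

/-- Proof. It is enough to show `Conn R U a b ⊆ Conn U R a.swap b.swap` (apply it also to the swapped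
data: `Prod.swap_swap`). Given `m, n`: put `k j = ⌊ht a b m n j⌋`, `l i = ⌊ht a.swap b.swap n m i⌋`
(the abscissa `x_i = a.1 + (m + b.1 - a.1) (i + 1 - a.2) / (n + b.2 - a.2)`). With
`M = m + b.1 - a.1 > 0`, `N = n + b.2 - a.2 > 0` (as `m, n ≥ 1`): for `j < m`, `i < n`:
`i + 1 ≤ ht j ↔ (i + 1 - a.2) / N ≤ (j + 1 - a.1) / M ↔ x_i ≤ j + 1`, and equality would give
`ht j = i + 1`, excluded by `Good`; so `i + 1 ≤ k j ↔ i + 1 ≤ ht j ↔ x_i < j + 1 ↔ l i ≤ j`
(`Int.le_floor`, `Int.floor_lt`). Ranges: `0 ≤ a.2 ≤ ht j < n + b.2 ≤ n + 1` and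
`a.1 ≤ x_i < m + b.1 ≤ m + 1`. `Good` for the swapped line: `x_i = z` integral gives `1 ≤ z ≤ m`
(`a.1 < x_i < m + 1`, `0 ≤ a.1`), and then `ht (z - 1) = i + 1`. Then use `dual`. -/
theorem conn_swap {G : Type*} [Group G] (R U : G) (a b : ℝ × ℝ) (ha : InA a) (hb : InB b) :
    Conn R U a b = Conn U R a.swap b.swap := by
  have ha' : InA a.swap := ⟨ha.2.2.1, ha.2.2.2, ha.1, ha.2.1⟩
  have hb' : InB b.swap := ⟨hb.2.2.1, hb.2.2.2, hb.1, hb.2.1⟩
  apply Set.Subset.antisymm (swap_sub R U a b ha hb)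
  have h := swap_sub U R a.swap b.swap ha' hb'
  rwa [Prod.swap_swap, Prod.swap_swap] at h

end Pool.Agent.Lib.H42I
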