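import Pool.Agent.Lib.H42I.ClassA
import Pool.Agent.Lib.H42I.Swap

/-! # Chunk Slant (M): the functional x - y -/

namespace Pool.Agent.Lib.H42I

/-- The change of basis `(R, U) ↦ (R, U R)`. Proof: induction on `n`
(`cj (U * R) R (l n) = R^(n+1-k₀) * cj U R (l n + (n+1) - k₀) * R^(k₀-n)`). -/
theorem W_shear {G : Type*} [Group G] (R U : G) (l : ℕ → ℤ) (k₀ : ℤ) (n : ℕ) :
    W (U * R) R l n = R ^ ((n : ℤ) - k₀) * W U R (fun i => l i + (i + 1) - k₀) n * R ^ k₀ := by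
  induction n with
  | zero =>
    simp only [W, Nat.cast_zero, zero_sub, mul_one]
    rw [← zpow_add, neg_add_cancel, zpow_zero]
  | succ n ih =>
    simp only [W]
    rw [ih]
    simp only [cj]
    have e1 : R ^ (-(l n)) * (U * R) * R ^ (l n) * (R ^ ((n : ℤ) - k₀) *
        W U R (fun i => l i + (i + 1) - k₀) n * R ^ k₀)
        = R ^ (-(l n)) * U * (R ^ (1 : ℤ) * R ^ (l n) * R ^ ((n : ℤ) - k₀)) *
        W U R (fun i => l i + (i + 1) - k₀) n * R ^ k₀ := by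
      rw [zpow_one]; simp only [mul_assoc]
    have e2 : R ^ (((n + 1 : ℕ) : ℤ) - k₀) * (R ^ (-(l n + (n + 1) - k₀)) * U *
        R ^ (l n + (n + 1) - k₀) * W U R (fun i => l i + (i + 1) - k₀) n) * R ^ k₀
        = (R ^ (((n + 1 : ℕ) : ℤ) - k₀) * R ^ (-(l n + (n + 1) - k₀))) * U *
        R ^ (l n + (n + 1) - k₀) * W U R (fun i => l i + (i + 1) - k₀) n * R ^ k₀ := by
      simp only [mul_assoc]
    rw [e1, e2, ← zpow_add, ← zpow_add, ← zpow_add]
    have e3 : ((n + 1 : ℕ) : ℤ) - k₀ + -(l n + (n + 1) - k₀) = -(l n) := by push_cast; ring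
    have e4 : 1 + l n + ((n : ℤ) - k₀) = l n + (n + 1) - k₀ := by ring
    rw [e3, e4]

private lemma slant_zero_one {s t : ℝ} (h : Indep s t) : s ≠ 0 ∧ t ≠ 0 := by
  constructor
  · intro hs
    have := (h 0 1 0 (by simp [hs])).2.1
    exact one_ne_zero this
  · intro ht
    have := (h 0 0 1 (by simp [ht])).2.2
    exact one_ne_zero this

/-- a shift by `0` or `1` into the interval `(0,1)` -/
private lemma slant_shift {x : ℝ} (h0 : x ≠ 0) (h1 : x < 1) (h2 : -1 < x) :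
    ∃ k : ℕ, k ≤ 1 ∧ 0 < x + k ∧ x + k < 1 := by
  rcases lt_or_gt_of_ne h0 with h | h
  · exact ⟨1, le_rfl, by push_cast; linarith, by push_cast; linarith⟩
  · exact ⟨0, Nat.zero_le _, by push_cast; linarith, by push_cast; linarith⟩

/-- Proof. `a.1 - a.2` and `b.1 - b.2` are irrational, so not `0`. Let `k₀ = 0` if `a.1 > a.2`, else
`1`; `k₁ = 0` if `b.1 > b.2`, else `1`; `a' = (a.1 - a.2 + k₀, a.2)`, `b' = (b.1 - b.2 + k₁, b.2)`:
`InO a'`, `InB b'` and `Indep a'.1 b'.1`. The closure of `{R, U * R}` is that of `{R, U}`; so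
`g' = R^(-k₁) * g * R^k₀` is in `Conn R (U * R) a' b'` by `conn_indep`, so in
`Conn (U * R) R a'.swap b'.swap` by `conn_swap`: there are `n, m' ≥ 1` with
`g' = R^m' * W (U * R) R l' n`, `l' i = ⌊x' i⌋`,
`x' i = ht a'.swap b'.swap n m' i = a'.1 + (m' + b'.1 - a'.1) (i+1-a.2)/(n + b.2 - a.2)` not an
integer for `i < n`. Let `m = m' + n + k₁ - k₀ ≥ 1`. Then
`ht a.swap b.swap n m i = a.1 + (m + b.1 - a.1) (i+1-a.2)/(n+b.2-a.2) = x' i + (i+1) - k₀`, so it is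
not an integer and its floor is `l' i + (i+1) - k₀`. By `W_shear`,
`g' = R^(m'+n-k₀) * W U R l n * R^k₀`, so
`R^m * W U R l n = R^(m-m'-n+k₀) * g' * R^(-k₀) = R^k₁ * g' * R^(-k₀) = g`. Thus
`g ∈ Conn U R a.swap b.swap = Conn R U a b` (`conn_swap`). -/
theorem conn_slant {G : Type*} [Group G] [Finite G] (R U : G) (a b : ℝ × ℝ) (ha : InO a)
    (hb : InB b) (h : Indep (a.1 - a.2) (b.1 - b.2)) :
    ∀ g ∈ Subgroup.closure ({R, U} : Set G), g ∈ Conn R U a b := by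
  intro g hg
  obtain ⟨ha1, ha2, ha3, ha4⟩ := ha
  obtain ⟨hb1, hb2, hb3, hb4⟩ := hb
  obtain ⟨hs, ht0⟩ := slant_zero_one h
  obtain ⟨k₀, hk₀, hk₀a, hk₀b⟩ := slant_shift hs (by linarith) (by linarith)
  obtain ⟨k₁, hk₁, hk₁a, hk₁b⟩ := slant_shift ht0 (by linarith) (by linarith)
  set a' : ℝ × ℝ := (a.1 - a.2 + k₀, a.2) with ha'
  set b' : ℝ × ℝ := (b.1 - b.2 + k₁, b.2) with hb'
  have hInO : InO a' := ⟨hk₀a, hk₀b, ha3, ha4⟩
  have hInA' : InA a' := ⟨hk₀a.le, hk₀b, ha3.le, ha4⟩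
  have hInB' : InB b' := ⟨hk₁a, hk₁b.le, hb3, hb4⟩
  have hInA : InA a := ⟨ha1.le, ha2, ha3.le, ha4⟩
  have hInB : InB b := ⟨hb1, hb2, hb3, hb4⟩
  have hind : Indep a'.1 b'.1 := by
    intro c₀ c₁ c₂ hc
    have h1 := h (c₀ + c₁ * k₀ + c₂ * k₁) c₁ c₂ (by
      push_cast
      simp only [ha', hb'] at hc
      linarith)
    obtain ⟨h2, h3, h4⟩ := h1
    refine ⟨?_, h3, h4⟩
    rw [h3, h4] at h2
    simpa using h2
  -- the element `g'`
  have hR : R ∈ Subgroup.closure ({R, U * R} : Set G) := Subgroup.subset_closure (by simp)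
  have hUR : U * R ∈ Subgroup.closure ({R, U * R} : Set G) := Subgroup.subset_closure (by simp)
  have hU : U ∈ Subgroup.closure ({R, U * R} : Set G) := by
    have := Subgroup.mul_mem _ hUR (Subgroup.inv_mem _ hR)
    rwa [mul_inv_cancel_right] at this
  have hle : Subgroup.closure ({R, U} : Set G) ≤ Subgroup.closure ({R, U * R} : Set G) := by
    rw [Subgroup.closure_le]
    intro x hx
    rcases hx with hx | hx
    · rw [hx]; exact hR
    · rw [Set.mem_singleton_iff.1 hx]; exact hU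
  have hg' : R ^ (-(k₁ : ℤ)) * g * R ^ (k₀ : ℤ) ∈ Subgroup.closure ({R, U * R} : Set G) :=
    Subgroup.mul_mem _ (Subgroup.mul_mem _ (Subgroup.zpow_mem _ hR _) (hle hg))
      (Subgroup.zpow_mem _ hR _)
  have hc := conn_indep R (U * R) a' b' hInO hInB' hind _ hg'
  rw [conn_swap R (U * R) a' b' hInA' hInB'] at hc
  rw [conn_swap R U a b hInA hInB]
  obtain ⟨n, m', hn, hm', hG, hgg⟩ := hc
  have hle1 : k₀ ≤ m' + n + k₁ := by omega
  have hcast : ((m' + n + k₁ - k₀ : ℕ) : ℝ) = m' + n + k₁ - k₀ := by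
    rw [Nat.cast_sub hle1]; push_cast; ring
  have hcastZ : ((m' + n + k₁ - k₀ : ℕ) : ℤ) = m' + n + k₁ - k₀ := by
    rw [Nat.cast_sub hle1]; push_cast; ring
  have hN : (n : ℝ) + b.2 - a.2 ≠ 0 := by
    have : (1 : ℝ) ≤ n := by exact_mod_cast hn
    have : 0 < (n : ℝ) + b.2 - a.2 := by linarith
    exact this.ne'
  have hkey : ∀ i : ℕ, ht a.swap b.swap n (m' + n + k₁ - k₀) i
      = ht a'.swap b'.swap n m' i + (i + 1) - k₀ := by
    intro i
    simp only [ht, Prod.fst_swap, Prod.snd_swap, hcast, ha', hb']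
    field_simp
    ring
  refine ⟨n, m' + n + k₁ - k₀, hn, by omega, ?_, ?_⟩
  · intro i hi z hz
    apply hG i hi (z - (i + 1) + k₀)
    rw [hkey] at hz
    push_cast
    linarith
  · have hfl : (fun i : ℕ => ⌊ht a.swap b.swap n (m' + n + k₁ - k₀) i⌋)
        = fun i : ℕ => ⌊ht a'.swap b'.swap n m' i⌋ + ((i : ℤ) + 1) - (k₀ : ℤ) := by
      funext i
      rw [hkey]
      have : ht a'.swap b'.swap n m' i + ((i : ℝ) + 1) - (k₀ : ℝ)
          = ht a'.swap b'.swap n m' i + (((i : ℤ) + 1 - (k₀ : ℤ) : ℤ) : ℝ) := by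
        push_cast; ring
      rw [this, Int.floor_add_intCast]
      ring
    rw [hfl, hcastZ]
    have hsh := W_shear R U (fun i => ⌊ht a'.swap b'.swap n m' i⌋) (k₀ : ℤ) n
    rw [hsh] at hgg
    set w := W U R (fun i : ℕ => ⌊ht a'.swap b'.swap n m' i⌋ + ((i : ℤ) + 1) - (k₀ : ℤ)) n with hw
    have h1 : g = R ^ (k₁ : ℤ) * (R ^ (-(k₁ : ℤ)) * g * R ^ (k₀ : ℤ)) * R ^ (-(k₀ : ℤ)) := by
      simp only [zpow_neg, mul_assoc, mul_inv_cancel_left, mul_inv_cancel, mul_one]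
    rw [h1, hgg]
    have h2 : (m' : ℤ) + n + k₁ - k₀ = k₁ + (m' + (n - k₀)) := by ring
    rw [h2, zpow_add, zpow_add]
    simp only [zpow_neg, mul_assoc, mul_inv_cancel, mul_one]

end Pool.Agent.Lib.H42I
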