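import Pool.Agent.Lib.H42I.Perm

/-! # Chunk Trans (M): transitivity -/

namespace Pool.Agent.Lib.H42I

private def trRel (S : Set (ℤ × ℤ)) (s t : St S) : Prop :=
  ∃ g ∈ Subgroup.closure ({pR S, pU S} : Set (Equiv.Perm (St S))), g s = t

private theorem trRel_refl {S : Set (ℤ × ℤ)} (s : St S) : trRel S s s :=
  ⟨1, Subgroup.one_mem _, rfl⟩

private theorem trRel_trans {S : Set (ℤ × ℤ)} {s t r : St S} (h : trRel S s t)
    (h' : trRel S t r) : trRel S s r := by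
  obtain ⟨g, hg, rfl⟩ := h
  obtain ⟨g', hg', rfl⟩ := h'
  exact ⟨g' * g, Subgroup.mul_mem _ hg' hg, rfl⟩

private theorem trRel_symm {S : Set (ℤ × ℤ)} {s t : St S} (h : trRel S s t) : trRel S t s := by
  obtain ⟨g, hg, rfl⟩ := h
  exact ⟨g⁻¹, Subgroup.inv_mem _ hg, by simp⟩

private theorem trRel_R {S : Set (ℤ × ℤ)} (s : St S) : trRel S s (stepR s) :=
  ⟨pR S, Subgroup.subset_closure (Or.inl rfl), rfl⟩

private theorem trRel_U {S : Set (ℤ × ℤ)} (s : St S) : trRel S s (stepU s) :=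
  ⟨pU S, Subgroup.subset_closure (Or.inr rfl), rfl⟩

private theorem tr_stepR_true {S : Set (ℤ × ℤ)} {c : ℤ × ℤ} (hc : c ∈ S) (f : Bool)
    (h : (c.1 + 1, c.2) ∈ S) :
    stepR ((⟨c, hc⟩, true, f) : St S) = (⟨(c.1 + 1, c.2), h⟩, true, f) := by
  simp only [stepR]
  rw [dif_pos h]

private theorem tr_stepR_true' {S : Set (ℤ × ℤ)} {c : ℤ × ℤ} (hc : c ∈ S) (f : Bool)
    (h : (c.1 + 1, c.2) ∉ S) :
    stepR ((⟨c, hc⟩, true, f) : St S) = (⟨c, hc⟩, false, f) := by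
  simp only [stepR]
  rw [dif_neg h]

private theorem tr_stepR_false {S : Set (ℤ × ℤ)} {c : ℤ × ℤ} (hc : c ∈ S) (f : Bool)
    (h : (c.1 - 1, c.2) ∈ S) :
    stepR ((⟨c, hc⟩, false, f) : St S) = (⟨(c.1 - 1, c.2), h⟩, false, f) := by
  simp only [stepR]
  rw [dif_pos h]

private theorem tr_stepU_true {S : Set (ℤ × ℤ)} {c : ℤ × ℤ} (hc : c ∈ S) (f : Bool)
    (h : (c.1, c.2 + 1) ∈ S) :
    stepU ((⟨c, hc⟩, f, true) : St S) = (⟨(c.1, c.2 + 1), h⟩, f, true) := by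
  simp only [stepU]
  rw [dif_pos h]

private theorem tr_stepU_true' {S : Set (ℤ × ℤ)} {c : ℤ × ℤ} (hc : c ∈ S) (f : Bool)
    (h : (c.1, c.2 + 1) ∉ S) :
    stepU ((⟨c, hc⟩, f, true) : St S) = (⟨c, hc⟩, f, false) := by
  simp only [stepU]
  rw [dif_neg h]

private theorem tr_stepU_false {S : Set (ℤ × ℤ)} {c : ℤ × ℤ} (hc : c ∈ S) (f : Bool)
    (h : (c.1, c.2 - 1) ∈ S) :
    stepU ((⟨c, hc⟩, f, false) : St S) = (⟨(c.1, c.2 - 1), h⟩, f, false) := by
  simp only [stepU]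
  rw [dif_pos h]

private theorem tr_flipR_aux {S : Set (ℤ × ℤ)} (M : ℤ) (hM : ∀ c ∈ S, c.1 ≤ M) (f : Bool) :
    ∀ (k : ℕ) (c : ℤ × ℤ) (hc : c ∈ S), M < c.1 + k →
      trRel S (⟨c, hc⟩, true, f) (⟨c, hc⟩, false, f) := by
  intro k
  induction k with
  | zero =>
    intro c hc h
    have := hM c hc
    simp only [Nat.cast_zero, add_zero] at h
    omega
  | succ k ih =>
    intro c hc h
    by_cases h1 : (c.1 + 1, c.2) ∈ S
    · have e1 : trRel S (⟨c, hc⟩, true, f) (⟨(c.1 + 1, c.2), h1⟩, true, f) := by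
        have := trRel_R ((⟨c, hc⟩, true, f) : St S)
        rwa [tr_stepR_true hc f h1] at this
      have e2 := ih (c.1 + 1, c.2) h1 (by push_cast at h; simp only; omega)
      have h3 : ((c.1 + 1, c.2) : ℤ × ℤ).1 - 1 = c.1 := by simp
      have h2 : ((((c.1 + 1, c.2) : ℤ × ℤ).1 - 1, ((c.1 + 1, c.2) : ℤ × ℤ).2) : ℤ × ℤ) ∈ S := by
        simpa using hc
      have e3 : trRel S (⟨(c.1 + 1, c.2), h1⟩, false, f) (⟨c, hc⟩, false, f) := by
        have := trRel_R ((⟨(c.1 + 1, c.2), h1⟩, false, f) : St S)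
        rw [tr_stepR_false h1 f h2] at this
        have e : (⟨_, h2⟩ : {c : ℤ × ℤ // c ∈ S}) = ⟨c, hc⟩ := Subtype.ext (Prod.ext h3 rfl)
        rwa [e] at this
      exact trRel_trans e1 (trRel_trans e2 e3)
    · have := trRel_R ((⟨c, hc⟩, true, f) : St S)
      rwa [tr_stepR_true' hc f h1] at this

private theorem tr_flipU_aux {S : Set (ℤ × ℤ)} (M : ℤ) (hM : ∀ c ∈ S, c.2 ≤ M) (f : Bool) :
    ∀ (k : ℕ) (c : ℤ × ℤ) (hc : c ∈ S), M < c.2 + k →
      trRel S (⟨c, hc⟩, f, true) (⟨c, hc⟩, f, false) := by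
  intro k
  induction k with
  | zero =>
    intro c hc h
    have := hM c hc
    simp only [Nat.cast_zero, add_zero] at h
    omega
  | succ k ih =>
    intro c hc h
    by_cases h1 : (c.1, c.2 + 1) ∈ S
    · have e1 : trRel S (⟨c, hc⟩, f, true) (⟨(c.1, c.2 + 1), h1⟩, f, true) := by
        have := trRel_U ((⟨c, hc⟩, f, true) : St S)
        rwa [tr_stepU_true hc f h1] at this
      have e2 := ih (c.1, c.2 + 1) h1 (by push_cast at h; simp only; omega)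
      have h3 : ((c.1, c.2 + 1) : ℤ × ℤ).2 - 1 = c.2 := by simp
      have h2 : ((((c.1, c.2 + 1) : ℤ × ℤ).1, ((c.1, c.2 + 1) : ℤ × ℤ).2 - 1) : ℤ × ℤ) ∈ S := by
        simpa using hc
      have e3 : trRel S (⟨(c.1, c.2 + 1), h1⟩, f, false) (⟨c, hc⟩, f, false) := by
        have := trRel_U ((⟨(c.1, c.2 + 1), h1⟩, f, false) : St S)
        rw [tr_stepU_false h1 f h2] at this
        have e : (⟨_, h2⟩ : {c : ℤ × ℤ // c ∈ S}) = ⟨c, hc⟩ := Subtype.ext (Prod.ext rfl h3)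
        rwa [e] at this
      exact trRel_trans e1 (trRel_trans e2 e3)
    · have := trRel_U ((⟨c, hc⟩, f, true) : St S)
      rwa [tr_stepU_true' hc f h1] at this

/-- Proof. `s ~ t :⇔ ∃ g ∈ closure, g s = t` is an equivalence relation with `s ~ stepR s`,
`s ~ stepU s`. (1) `(c, true, f) ~ (c, false, f)`: by finiteness of `S` there is `k` with
`(c.1 + k + 1, c.2) ∉ S` and `(c.1 + i, c.2) ∈ S` for `i ≤ k`; induction on `k`: for `k = 0`,
`stepR (c, true, f) = (c, false, f)`; else `(c, true, f) ~ (c', true, f) ~ (c', false, f) ~ (c, false, f)`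
with `c' = c + (1, 0)`. In the same way for the third component with `stepU`. (2) If `c` and
`c + (1,0)` are in `S` then `stepR (c, true, f) = (c + (1,0), true, f)`, and similarly for the other
three neighbours (use (1)). (3) The set `A` of the cells `c` with `s ~ (c, true, true)` satisfies the
hypotheses of `hconn`, so `A = S`. -/
theorem trans_states (S : Set (ℤ × ℤ)) (hfin : S.Finite)
    (hconn : ∀ A : Set (ℤ × ℤ), A ⊆ S → A.Nonempty →
      (∀ c ∈ A, (c.1 + 1, c.2) ∈ S → (c.1 + 1, c.2) ∈ A) →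
      (∀ c ∈ A, (c.1 - 1, c.2) ∈ S → (c.1 - 1, c.2) ∈ A) →
      (∀ c ∈ A, (c.1, c.2 + 1) ∈ S → (c.1, c.2 + 1) ∈ A) →
      (∀ c ∈ A, (c.1, c.2 - 1) ∈ S → (c.1, c.2 - 1) ∈ A) → A = S)
    (s t : St S) : ∃ g ∈ Subgroup.closure ({pR S, pU S} : Set (Equiv.Perm (St S))), g s = t := by
  obtain ⟨M₁, hM₁⟩ := (hfin.image Prod.fst).bddAbove
  obtain ⟨M₂, hM₂⟩ := (hfin.image Prod.snd).bddAbove
  have flipR : ∀ (c : ℤ × ℤ) (hc : c ∈ S) (f : Bool),
      trRel S (⟨c, hc⟩, true, f) (⟨c, hc⟩, false, f) := by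
    intro c hc f
    refine tr_flipR_aux M₁ (fun c hc => hM₁ ⟨c, hc, rfl⟩) f (M₁ - c.1 + 1).toNat c hc ?_
    have := Int.self_le_toNat (M₁ - c.1 + 1)
    omega
  have flipU : ∀ (c : ℤ × ℤ) (hc : c ∈ S) (f : Bool),
      trRel S (⟨c, hc⟩, f, true) (⟨c, hc⟩, f, false) := by
    intro c hc f
    refine tr_flipU_aux M₂ (fun c hc => hM₂ ⟨c, hc, rfl⟩) f (M₂ - c.2 + 1).toNat c hc ?_
    have := Int.self_le_toNat (M₂ - c.2 + 1)
    omega
  have norm : ∀ (c : ℤ × ℤ) (hc : c ∈ S) (e f : Bool),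
      trRel S (⟨c, hc⟩, true, true) (⟨c, hc⟩, e, f) := by
    intro c hc e f
    cases e <;> cases f
    · exact trRel_trans (flipR c hc true) (flipU c hc false)
    · exact flipR c hc true
    · exact flipU c hc true
    · exact trRel_refl _
  obtain ⟨⟨c₀, hc₀⟩, e₀, f₀⟩ := s
  obtain ⟨⟨c₁, hc₁⟩, e₁, f₁⟩ := t
  let A : Set (ℤ × ℤ) := {c | ∃ h : c ∈ S, trRel S (⟨c₀, hc₀⟩, e₀, f₀) (⟨c, h⟩, true, true)}
  have hA : A = S := by
    refine hconn A ?_ ⟨c₀, hc₀, trRel_symm (norm c₀ hc₀ e₀ f₀)⟩ ?_ ?_ ?_ ?_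
    · rintro c ⟨h, _⟩
      exact h
    · rintro c ⟨h, hr⟩ h'
      refine ⟨h', trRel_trans hr ?_⟩
      have := trRel_R ((⟨c, h⟩, true, true) : St S)
      rwa [tr_stepR_true h true h'] at this
    · rintro c ⟨h, hr⟩ h'
      refine ⟨h', trRel_trans hr (trRel_trans (flipR c h true) (trRel_trans ?_
        (trRel_symm (flipR _ h' true))))⟩
      have := trRel_R ((⟨c, h⟩, false, true) : St S)
      rwa [tr_stepR_false h true h'] at this
    · rintro c ⟨h, hr⟩ h'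
      refine ⟨h', trRel_trans hr ?_⟩
      have := trRel_U ((⟨c, h⟩, true, true) : St S)
      rwa [tr_stepU_true h true h'] at this
    · rintro c ⟨h, hr⟩ h'
      refine ⟨h', trRel_trans hr (trRel_trans (flipU c h true) (trRel_trans ?_
        (trRel_symm (flipU _ h' true))))⟩
      have := trRel_U ((⟨c, h⟩, true, false) : St S)
      rwa [tr_stepU_false h true h'] at this
  have h1 : c₁ ∈ A := by rw [hA]; exact hc₁
  obtain ⟨_, hr⟩ := h1
  exact trRel_trans hr (norm c₁ hc₁ e₁ f₁)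

end Pool.Agent.Lib.H42I
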