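import Pool.Agent.Lib.H42I.CD
import Pool.Agent.Lib.H42I.Cases
import Pool.Agent.Lib.H42I.Slant
import Pool.Agent.Lib.H42I.ClassB
import Pool.Agent.Lib.H42I.Trans
import Pool.Agent.Lib.H42I.Line

/-! # H42I: lattice polygons are illuminated from every generic point, through every cell -/

namespace Pool.Agent.Lib.H42I

variable {n : ℕ} {P : Set ℂ} {v : ZMod n → ℂ} {α β : ℝ}

/-- the conclusion of `squares` for the point with the local coordinates `b` in the state `t` -/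
private def SqGoal {n : ℕ} (P : Set ℂ) (v : ZMod n → ℂ) (α β : ℝ) (q y : ℂ) (c : ℤ × ℤ) : Prop :=
  ∃ d : ℂ, Ray P v q y d ∧ d.re ≠ 0 ∧ d.im ≠ 0 ∧
      ∃ τ₀ : ℝ, 0 < τ₀ ∧ ∀ τ : ℝ, 0 < τ → τ < τ₀ → ∃ u w : ℝ, 0 < u ∧ u < 1 ∧ 0 < w ∧ w < 1 ∧
        y - τ * d = ⟨α * (c.1 + u), β * (c.2 + w)⟩

private theorem sq_lc (e : Bool) (u : ℝ) (h0 : 0 < u) (h1 : u < 1) : 0 < lc e u ∧ lc e u < 1 := by
  cases e <;> simp [lc] <;> constructor <;> linarith

private theorem sq_lc_sub (e : Bool) (u x : ℝ) : lc e (u - x) = lc e u - sg e x := by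
  cases e <;> simp [lc, sg] <;> ring

private theorem sq_core {S : Set (ℤ × ℤ)} (hC : CellData P v α β S) (hα : 0 < α) (hβ : 0 < β)
    (s₀ : St S) (a : ℝ × ℝ) (ha : InO a) (t : St S) (b : ℝ × ℝ) (hb : InB b)
    (h : ∀ g ∈ Subgroup.closure ({pR S, pU S} : Set (Equiv.Perm (St S))),
      g ∈ Conn (pR S) (pU S) a b) :
    SqGoal P v α β (pt α β s₀ a.1 a.2) (pt α β t b.1 b.2) t.1.1 := by
  obtain ⟨g, hg, hgt⟩ := trans_states S hC.fin hC.conn s₀ t
  obtain ⟨m, N, hm, hN, hgood, hgW⟩ := h g hg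
  obtain ⟨k, hk, hr⟩ := line_light (P := P) (v := v) hC hα hβ s₀ a b ha hb m N hm hN hgood t
    (by rw [← hgt, hgW])
  obtain ⟨ha1, ha2, ha3, ha4⟩ := ha
  obtain ⟨hb1, hb2, hb3, hb4⟩ := hb
  have hm1 : (1 : ℝ) ≤ m := by exact_mod_cast hm
  have hN1 : (1 : ℝ) ≤ N := by exact_mod_cast hN
  set x : ℝ := m + b.1 - a.1 with hx
  set y : ℝ := N + b.2 - a.2 with hy
  have hx0 : 0 < x := by rw [hx]; linarith
  have hy0 : 0 < y := by rw [hy]; linarith
  obtain ⟨⟨c, hc⟩, e, f⟩ := t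
  refine ⟨_, hr, ?_, ?_, ?_⟩
  · cases e <;> simp [dr, sg, hk.ne', hα.ne', hx0.ne']
  · cases f <;> simp [dr, sg, hk.ne', hβ.ne', hy0.ne']
  · refine ⟨min (b.1 / (k * x)) (b.2 / (k * y)), lt_min (by positivity) (by positivity), ?_⟩
    intro τ hτ hτ'
    have h1 : τ * (k * x) < b.1 := by
      have := lt_of_lt_of_le hτ' (min_le_left _ _)
      rwa [lt_div_iff₀ (by positivity)] at this
    have h2 : τ * (k * y) < b.2 := by
      have := lt_of_lt_of_le hτ' (min_le_right _ _)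
      rwa [lt_div_iff₀ (by positivity)] at this
    have h3 : 0 < τ * (k * x) := by positivity
    have h4 : 0 < τ * (k * y) := by positivity
    obtain ⟨p1, p2⟩ := sq_lc e (b.1 - τ * (k * x)) (by linarith) (by linarith)
    obtain ⟨p3, p4⟩ := sq_lc f (b.2 - τ * (k * y)) (by linarith) (by linarith)
    refine ⟨_, _, p1, p2, p3, p4, ?_⟩
    rw [sq_lc_sub, sq_lc_sub]
    apply Complex.ext
    · cases e <;> simp [pt, dr, sg] <;> ring
    · cases f <;> simp [pt, dr, sg] <;> ring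

private theorem sq_indep_shift {s t : ℝ} (k l : ℤ) (h : Indep (k + s) (l + t)) : Indep s t := by
  intro c₀ c₁ c₂ h0
  have := h (c₀ - c₁ * k - c₂ * l) c₁ c₂ (by push_cast; linarith)
  obtain ⟨h1, h2, h3⟩ := this
  refine ⟨?_, h2, h3⟩
  rw [h2, h3] at h1
  simpa using h1

private theorem sq_indep_irr {s t : ℝ} (h : Indep s t) : Irrational s := by
  rintro ⟨r, hr⟩
  have h1 := h (-r.num) r.den 0 (by
    have : (r.den : ℝ) * s = r.num := by
      rw [← hr]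
      have := Rat.den_mul_eq_num r
      exact_mod_cast this
    push_cast
    linarith)
  have := h1.2.1
  have h2 := r.den_nz
  omega

private theorem sq_flip {S : Set (ℤ × ℤ)} (c : {c : ℤ × ℤ // c ∈ S}) (e f : Bool) (u w : ℝ) :
    pt α β ((c, !e, f) : St S) (1 - u) w = pt α β ((c, e, f) : St S) u w := by
  cases e <;> simp [pt, lc]

private theorem sq_orient (u : ℝ) (h0 : 0 ≤ u) (h1 : u ≤ 1) :
    ∃ (e : Bool) (b : ℝ), 0 < b ∧ b ≤ 1 ∧ lc e b = u := by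
  rcases eq_or_lt_of_le h0 with h | h
  · exact ⟨false, 1, one_pos, le_rfl, by simp [lc, ← h]⟩
  · exact ⟨true, u, h, h1, by simp [lc]⟩

/-- The square-tiled part: `P` is a polygon with sides parallel to the axes and vertices in
`αℤ × βℤ`, `q` a generic point of `P`, `y` a point of `P` in the closed cell `c` of `P`. Then a light
ray from `q` arrives at `y` through the open cell `c`, in a direction which is not parallel to an
axis. -/
theorem squares (hL : IsLattice P v α β) (q : ℂ) (hq : q ∈ P)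
    (hg : Indep (q.re / α) (q.im / β)) (y : ℂ) (c : ℤ × ℤ) (hc : c ∈ cells P α β)
    (hy : ∃ u w : ℝ, 0 ≤ u ∧ u ≤ 1 ∧ 0 ≤ w ∧ w ≤ 1 ∧ y = ⟨α * (c.1 + u), β * (c.2 + w)⟩) :
    ∃ d : ℂ, Ray P v q y d ∧ d.re ≠ 0 ∧ d.im ≠ 0 ∧
      ∃ τ₀ : ℝ, 0 < τ₀ ∧ ∀ τ : ℝ, 0 < τ → τ < τ₀ → ∃ u w : ℝ, 0 < u ∧ u < 1 ∧ 0 < w ∧ w < 1 ∧
        y - τ * d = ⟨α * (c.1 + u), β * (c.2 + w)⟩ := by
  classical
  have hα := hL.hα
  have hβ := hL.hβ
  have hC := cellData hL
  haveI : Finite {c : ℤ × ℤ // c ∈ cells P α β} := hC.fin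
  haveI : Finite (Equiv.Perm (St (cells P α β))) := inferInstance
  -- the point `q`
  obtain ⟨c₀, hc₀, u₀, w₀, hu0, hu1, hw0, hw1, hqe⟩ := hC.cover q hq
  have hqre : q.re / α = c₀.1 + u₀ := by rw [hqe]; field_simp
  have hqim : q.im / β = c₀.2 + w₀ := by rw [hqe]; field_simp
  rw [hqre, hqim] at hg
  have hI : Indep u₀ w₀ := sq_indep_shift _ _ hg
  have hI' : Indep w₀ u₀ := by
    intro a b d h
    obtain ⟨h1, h2, h3⟩ := hI a d b (by linarith)
    exact ⟨h1, h3, h2⟩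
  have hirr : Irrational u₀ := sq_indep_irr hI
  have hirr' : Irrational w₀ := sq_indep_irr hI'
  have ha : InO (u₀, w₀) := by
    refine ⟨lt_of_le_of_ne hu0 ?_, lt_of_le_of_ne hu1 ?_, lt_of_le_of_ne hw0 ?_,
      lt_of_le_of_ne hw1 ?_⟩
    · intro h; exact hirr ⟨0, by simpa using h⟩
    · intro h; exact hirr ⟨1, by simpa using h.symm⟩
    · intro h; exact hirr' ⟨0, by simpa using h⟩
    · intro h; exact hirr' ⟨1, by simpa using h.symm⟩
  set s₀ : St (cells P α β) := (⟨c₀, hc₀⟩, true, true) with hs₀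
  have hqp : pt α β s₀ u₀ w₀ = q := by rw [hqe, hs₀]; simp [pt, lc]
  -- the point `y`
  obtain ⟨u, w, hu0', hu1', hw0', hw1', hye⟩ := hy
  obtain ⟨e, b₁, hb10, hb11, hbe⟩ := sq_orient u hu0' hu1'
  obtain ⟨f, b₂, hb20, hb21, hbf⟩ := sq_orient w hw0' hw1'
  have hyp : pt α β ((⟨c, hc⟩, e, f) : St (cells P α β)) b₁ b₂ = y := by
    rw [hye]; simp [pt, hbe, hbf]
  have hb : InB (b₁, b₂) := ⟨hb10, hb11, hb20, hb21⟩
  have hcore : ∀ (t : St (cells P α β)) (b : ℝ × ℝ), InB b → t.1.1 = c → pt α β t b.1 b.2 = y →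
      (∀ g ∈ Subgroup.closure ({pR (cells P α β), pU (cells P α β)} :
        Set (Equiv.Perm (St (cells P α β)))),
        g ∈ Conn (pR (cells P α β)) (pU (cells P α β)) (u₀, w₀) b) → SqGoal P v α β q y c := by
    intro t b hb ht hpt h
    have := sq_core hC hα hβ s₀ (u₀, w₀) ha t b hb h
    rwa [hqp, hpt, ht] at this
  show SqGoal P v α β q y c
  rcases five_cases u₀ w₀ b₁ b₂ hI with h | h | h | h | ⟨hi, h⟩
  · exact hcore _ _ hb rfl hyp (conn_indep _ _ _ _ ha hb h)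
  · refine hcore _ _ hb rfl hyp ?_
    intro g hgc
    rw [conn_swap _ _ _ _ ⟨ha.1.le, ha.2.1, ha.2.2.1.le, ha.2.2.2⟩ hb]
    refine conn_indep _ _ _ _ ⟨ha.2.2.1, ha.2.2.2, ha.1, ha.2.1⟩
      ⟨hb.2.2.1, hb.2.2.2, hb.1, hb.2.1⟩ h g ?_
    rwa [Set.pair_comm]
  · obtain ⟨r₁, r₂, h1, h2⟩ := h
    exact hcore _ _ hb rfl hyp (conn_rat _ _ _ _ ha hb hirr ⟨r₁, r₂, by rw [h1, h2]⟩)
  · exact hcore _ _ hb rfl hyp (conn_slant _ _ _ _ ha hb h)
  · have hb1 : b₁ < 1 := lt_of_le_of_ne hb11 (fun h => hi ⟨1, by simpa using h.symm⟩)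
    have hb' : InB (1 - b₁, b₂) := ⟨by simpa using hb1, by simpa using hb10.le, hb20, hb21⟩
    refine hcore (⟨c, hc⟩, !e, f) (1 - b₁, b₂) hb' rfl ?_ (conn_slant _ _ _ _ ha hb' h)
    rw [← hyp]
    exact sq_flip _ _ _ _ _

end Pool.Agent.Lib.H42I
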