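import Pool.Agent.Lib.H42I.GLight
import Pool.Agent.Lib.H42I.Trans
import Pool.Agent.Lib.H25R.Defs

/-! # H42I: from the abstract surface (H25R) to light rays in a rectilinear polygon -/

namespace Pool.Agent.Lib.H42I

open Pool.Agent.Lib.H25R

variable {n : ℕ} {P : Set ℂ} {v : ZMod n → ℂ} {X Y : ℤ → ℝ} {S : Set (ℤ × ℤ)}

theorem wd_pos (hX : Grid X) (s : St S) : 0 < wd X s := by
  have := hX.mono (show s.1.1.1 < s.1.1.1 + 1 by omega)
  unfold wd
  linarith

theorem hg_pos (hY : Grid Y) (s : St S) : 0 < hg Y s := by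
  have := hY.mono (show s.1.1.2 < s.1.1.2 + 1 by omega)
  unfold hg
  linarith

theorem hg_pR (Y : ℤ → ℝ) (s : St S) : hg Y (pR S s) = hg Y s := by
  obtain ⟨⟨⟨x, y⟩, hc⟩, e, f⟩ := s
  show hg Y (stepR _) = _
  cases e
  · by_cases h : (x - 1, y) ∈ S <;> simp [stepR, hg, h]
  · by_cases h : (x + 1, y) ∈ S <;> simp [stepR, hg, h]

theorem wd_pU (X : ℤ → ℝ) (s : St S) : wd X (pU S s) = wd X s := by
  obtain ⟨⟨⟨x, y⟩, hc⟩, e, f⟩ := s
  show wd X (stepU _) = _
  cases f
  · by_cases h : (x, y - 1) ∈ S <;> simp [stepU, wd, h]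
  · by_cases h : (x, y + 1) ∈ S <;> simp [stepU, wd, h]

/-- The surface of four copies of each cell. -/
noncomputable def surf (X Y : ℤ → ℝ) (S : Set (ℤ × ℤ)) (hX : Grid X) (hY : Grid Y) :
    Surf (St S) where
  R := pR S
  U := pU S
  w := wd X
  h := hg Y
  w_pos := wd_pos hX
  h_pos := hg_pos hY
  hR := hg_pR Y
  wU := wd_pU X

/-- mirror image in a vertical line -/
def mirh (s : St S) : St S := (s.1, !s.2.1, s.2.2)

/-- mirror image in a horizontal line -/
def mirv (s : St S) : St S := (s.1, s.2.1, !s.2.2)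

theorem mirh_R (s : St S) : pR S (mirh (pR S s)) = mirh s := by
  show stepR (mirh (stepR s)) = mirh s
  obtain ⟨⟨⟨x, y⟩, hc⟩, b, e⟩ := s
  cases b
  · by_cases h : (x - 1, y) ∈ S
    · simp [stepR, mirh, h, hc]
    · simp [stepR, mirh, h]
  · by_cases h : (x + 1, y) ∈ S
    · simp [stepR, mirh, h, hc]
    · simp [stepR, mirh, h]

theorem mirv_U (s : St S) : pU S (mirv (pU S s)) = mirv s := by
  show stepU (mirv (stepU s)) = mirv s
  obtain ⟨⟨⟨x, y⟩, hc⟩, e, b⟩ := s
  cases b
  · by_cases h : (x, y - 1) ∈ S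
    · simp [stepU, mirv, h, hc]
    · simp [stepU, mirv, h]
  · by_cases h : (x, y + 1) ∈ S
    · simp [stepU, mirv, h, hc]
    · simp [stepU, mirv, h]

theorem mirh_U (s : St S) : pU S (mirh s) = mirh (pU S s) := by
  show stepU (mirh s) = mirh (stepU s)
  obtain ⟨⟨⟨x, y⟩, hc⟩, e, b⟩ := s
  cases b
  · by_cases h : (x, y - 1) ∈ S <;> simp [stepU, mirh, h]
  · by_cases h : (x, y + 1) ∈ S <;> simp [stepU, mirh, h]

theorem mirv_R (s : St S) : pR S (mirv s) = mirv (pR S s) := by
  show stepR (mirv s) = mirv (stepR s)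
  obtain ⟨⟨⟨x, y⟩, hc⟩, b, e⟩ := s
  cases b
  · by_cases h : (x - 1, y) ∈ S <;> simp [stepR, mirv, h]
  · by_cases h : (x + 1, y) ∈ S <;> simp [stepR, mirv, h]

theorem wd_mirh (s : St S) : wd X (mirh s) = wd X s := rfl
theorem hg_mirh (s : St S) : hg Y (mirh s) = hg Y s := rfl
theorem wd_mirv (s : St S) : wd X (mirv s) = wd X s := rfl
theorem hg_mirv (s : St S) : hg Y (mirv s) = hg Y s := rfl

/-- the same point in the mirror image -/
theorem gpt_mirh (s : St S) (u w : ℝ) : gpt X Y (mirh s) (wd X s - u) w = gpt X Y s u w := by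
  obtain ⟨c, b, e⟩ := s
  cases b
  · simp only [gpt, mirh, gc, wd, Bool.not_false, if_true, Bool.false_eq_true, if_false]
    congr 1
    ring
  · simp only [gpt, mirh, gc, wd, Bool.not_true, if_true, Bool.false_eq_true, if_false]
    congr 1
    ring

theorem gpt_mirv (s : St S) (u w : ℝ) : gpt X Y (mirv s) u (hg Y s - w) = gpt X Y s u w := by
  obtain ⟨c, b, e⟩ := s
  cases e
  · simp only [gpt, mirv, gc, hg, Bool.not_false, if_true, Bool.false_eq_true, if_false]
    congr 1
    ring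
  · simp only [gpt, mirv, gc, hg, Bool.not_true, if_true, Bool.false_eq_true, if_false]
    congr 1
    ring

/-- transitivity in the form of H25R -/
theorem surf_trans (hC : GData P v X Y S) : Pool.Agent.Lib.H25R.Trans (surf X Y S hC.hX hC.hY) := by
  classical
  haveI : Finite {c : ℤ × ℤ // c ∈ S} := hC.fin
  haveI : Finite (St S) := inferInstance
  intro T hT hR hU x
  obtain ⟨t, ht⟩ := hT
  -- a permutation with `g s ∈ T → s ∈ T` maps the complement of `T` onto itself
  have key : ∀ g : Equiv.Perm (St S), (∀ s, g s ∈ T → s ∈ T) → ∀ s, s ∈ T → g s ∈ T := by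
    intro g hg s hs
    by_contra hn
    have hinj : Function.Injective (fun z : {z : St S // z ∉ T} =>
        (⟨g z.1, fun h => z.2 (hg _ h)⟩ : {z : St S // z ∉ T})) := by
      intro z z' hzz
      have := congrArg Subtype.val hzz
      exact Subtype.ext (g.injective this)
    have hsurj := Finite.injective_iff_surjective.1 hinj
    obtain ⟨z, hz⟩ := hsurj ⟨g s, hn⟩
    have h1 := congrArg Subtype.val hz
    have h2 : z.1 = s := g.injective h1
    exact z.2 (h2 ▸ hs)
  have hR' := key (pR S) hR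
  have hU' := key (pU S) hU
  obtain ⟨g, hg, hgt⟩ := trans_states S hC.fin hC.conn t x
  have hgT : ∀ s, s ∈ T ↔ g s ∈ T := by
    refine Subgroup.closure_induction (p := fun g _ => ∀ s, s ∈ T ↔ g s ∈ T) ?_ ?_ ?_ ?_ hg
    · intro k hk s
      rcases hk with rfl | hk
      · exact ⟨hR' s, hR s⟩
      · rw [Set.mem_singleton_iff] at hk
        subst hk
        exact ⟨hU' s, hU s⟩
    · intro s; simp
    · intro a b _ _ ha hb s
      rw [Equiv.Perm.mul_apply, hb s, ha (b s)]
    · intro a _ ha s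
      have := ha (a⁻¹ s)
      rw [show a (a⁻¹ s) = s from a.apply_symm_apply s] at this
      exact this.symm
  rw [← hgt]
  exact (hgT t).1 ht

/-- A straight segment in the surface is a light ray in the polygon. -/
theorem line_ray (hC : GData P v X Y S) (q : ℂ) {s : ℝ} (hs : 0 < s) {x y : St S} {a b c d : ℝ}
    (h : Line (surf X Y S hC.hX hC.hY) s x a b y c d) (ha : 0 ≤ a) (hb : 0 ≤ b)
    (hf : GFly P v q X Y x s 1 a b) : RayS P v q (gpt X Y y c d) (gdr y s 1) := by
  induction h with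
  | here x a b c d hd hc hcw hdh =>
    have := hf (d - b) (by linarith) (by rw [mul_comm, ← hc]; exact hcw)
      (by rw [mul_one, add_sub_cancel]; exact hdh)
    rw [mul_comm (d - b) s, ← hc, mul_one, add_sub_cancel] at this
    exact this
  | right x a b y c d b1 ha1 hb1 hh hl ih =>
    have hw : (surf X Y S hC.hX hC.hY).w x = wd X x := rfl
    have hh' : (surf X Y S hC.hX hC.hY).h x = hg Y x := rfl
    rw [hw] at ha1 hb1
    rw [hh'] at hh
    have hbb : b < b1 := by
      by_contra hn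
      push Not at hn
      nlinarith
    refine ih le_rfl (by linarith) ?_
    refine gcross_right hC q x s 1 b1 hs one_pos (by linarith) hh ?_
    have := hf (b1 - b) (by linarith) (by rw [mul_comm, hb1]; linarith)
      (by rw [mul_one, add_sub_cancel]; exact hh.le)
    rw [mul_comm (b1 - b) s, hb1, mul_one, add_sub_cancel, add_sub_cancel] at this
    exact this
  | up x a b y c d a1 hb1 ha1 hw hl ih =>
    have hw' : (surf X Y S hC.hX hC.hY).w x = wd X x := rfl
    have hh' : (surf X Y S hC.hX hC.hY).h x = hg Y x := rfl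
    rw [hh'] at hb1 ha1
    rw [hw'] at hw
    have hpos : 0 < s * (hg Y x - b) := mul_pos hs (by linarith)
    refine ih (by linarith) le_rfl ?_
    refine gcross_up hC q x s 1 a1 hs one_pos (by linarith) hw ?_
    have := hf (hg Y x - b) (by linarith) (by rw [mul_comm, ← ha1]; exact hw.le)
      (by rw [mul_one, add_sub_cancel])
    rw [mul_comm (hg Y x - b) s, ← ha1, mul_one, add_sub_cancel] at this
    exact this

private theorem gc_sub (X : ℤ → ℝ) (k : ℤ) (e : Bool) (u x : ℝ) :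
    gc X k e (u - x) = gc X k e u - sg e x := by
  cases e <;> simp [gc, sg] <;> ring

private theorem gc_mem (X : ℤ → ℝ) (k : ℤ) (e : Bool) (u : ℝ) (h0 : 0 < u)
    (h1 : u < X (k + 1) - X k) : X k < gc X k e u ∧ gc X k e u < X (k + 1) := by
  cases e <;> simp [gc] <;> constructor <;> linarith

/-- A point of the surface that is lit gives a point of the polygon that is lit, and the last leg
is in the open cell. -/
theorem lit_ray (hC : GData P v X Y S) {x y : St S} {a b c d : ℝ}
    (h : Lit (surf X Y S hC.hX hC.hY) x a b y c d) (ha0 : 0 < a) (ha : a < wd X x) (hb0 : 0 < b)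
    (hb : b < hg Y x) (hc0 : 0 < c) (hc : c ≤ wd X y) (hd0 : 0 < d) (hd : d ≤ hg Y y) :
    ∃ D : ℂ, Ray P v (gpt X Y x a b) (gpt X Y y c d) D ∧ D.re ≠ 0 ∧ D.im ≠ 0 ∧
      ∃ τ₀ : ℝ, 0 < τ₀ ∧ ∀ τ : ℝ, 0 < τ → τ < τ₀ →
        X y.1.1.1 < (gpt X Y y c d - τ * D).re ∧ (gpt X Y y c d - τ * D).re < X (y.1.1.1 + 1) ∧
        Y y.1.1.2 < (gpt X Y y c d - τ * D).im ∧
        (gpt X Y y c d - τ * D).im < Y (y.1.1.2 + 1) := by
  obtain ⟨s, hs, hl⟩ := h
  obtain ⟨k, hk, hr⟩ := line_ray hC (gpt X Y x a b) hs hl ha0.le hb0.le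
    (gfly_start hC x s 1 a b hs one_pos ha0 ha hb0 hb)
  refine ⟨_, hr, ?_, ?_, ?_⟩
  · obtain ⟨⟨c', hc'⟩, e, f⟩ := y
    cases e <;> simp [gdr, sg, hk.ne', hs.ne']
  · obtain ⟨⟨c', hc'⟩, e, f⟩ := y
    cases f <;> simp [gdr, sg, hk.ne']
  · refine ⟨min (c / (k * s)) (d / k), lt_min (by positivity) (by positivity), ?_⟩
    intro τ hτ hτ'
    have h1 : τ * (k * s) < c := by
      have := lt_of_lt_of_le hτ' (min_le_left _ _)
      rwa [lt_div_iff₀ (by positivity)] at this
    have h2 : τ * k < d := by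
      have := lt_of_lt_of_le hτ' (min_le_right _ _)
      rwa [lt_div_iff₀ (by positivity)] at this
    have h3 : 0 < τ * (k * s) := by positivity
    have h4 : 0 < τ * k := by positivity
    have hre : (gpt X Y y c d - τ * (k * gdr y s 1)).re = gc X y.1.1.1 y.2.1 (c - τ * (k * s)) := by
      obtain ⟨c', e, f⟩ := y
      cases e <;> simp [gpt, gdr, gc, sg] <;> ring
    have him : (gpt X Y y c d - τ * (k * gdr y s 1)).im = gc Y y.1.1.2 y.2.2 (d - τ * k) := by
      obtain ⟨c', e, f⟩ := y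
      cases f <;> simp [gpt, gdr, gc, sg] <;> ring
    obtain ⟨p1, p2⟩ := gc_mem X y.1.1.1 y.2.1 (c - τ * (k * s)) (by linarith)
      (by unfold wd at hc; linarith)
    obtain ⟨p3, p4⟩ := gc_mem Y y.1.1.2 y.2.2 (d - τ * k) (by linarith)
      (by unfold hg at hd; linarith)
    rw [hre, him]
    exact ⟨p1, p2, p3, p4⟩

end Pool.Agent.Lib.H42I
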