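import Pool.Agent.Lib.H42I.GCD

/-! # H42I: the cell data of a lattice polygon -/

open Set

namespace Pool.Agent.Lib.H42I

variable {n : ℕ} {P : Set ℂ} {v : ZMod n → ℂ} {α β : ℝ}

theorem grid_mul (hα : 0 < α) : Grid (fun k : ℤ => α * k) where
  mono := by
    intro a b hab
    have : (a : ℝ) < b := by exact_mod_cast hab
    show α * a < α * b
    nlinarith
  top := Filter.Tendsto.const_mul_atTop hα tendsto_intCast_atTop_atTop
  bot := Filter.Tendsto.const_mul_atBot hα (tendsto_intCast_atBot_iff.2 Filter.tendsto_id)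

theorem isGrid (hL : IsLattice P v α β) :
    IsGrid P v (fun k : ℤ => α * k) (fun l : ℤ => β * l) where
  poly := hL.poly
  hX := grid_mul hL.hα
  hY := grid_mul hL.hβ
  vert := by
    intro i
    obtain ⟨k, l, h⟩ := hL.vert i
    exact ⟨k, l, by rw [h, mul_comm (k : ℝ), mul_comm (l : ℝ)]⟩
  axis := hL.axis

private theorem cd_lt {α : ℝ} (hα : 0 < α) (k : ℤ) {u : ℝ} (h : 0 < u) :
    α * (k : ℝ) < α * (k + u) := by nlinarith

private theorem cd_lt' {α : ℝ} (hα : 0 < α) (k : ℤ) {u : ℝ} (h : u < 1) :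
    α * (k + u) < α * ((k + 1 : ℤ) : ℝ) := by push_cast; nlinarith

private theorem cd_inv {α : ℝ} (hα : 0 < α) (k : ℤ) (x : ℝ) (h0 : α * (k : ℝ) ≤ x)
    (h1 : x ≤ α * ((k + 1 : ℤ) : ℝ)) :
    0 ≤ x / α - k ∧ x / α - k ≤ 1 ∧ x = α * (k + (x / α - k)) := by
  have e : x = α * (k + (x / α - k)) := by field_simp; ring
  push_cast at h1
  refine ⟨?_, ?_, e⟩
  · rw [sub_nonneg, le_div_iff₀ hα]; linarith
  · rw [sub_le_iff_le_add, div_le_iff₀ hα]; linarith

private theorem cd_inv' {α : ℝ} (hα : 0 < α) (k : ℤ) (x : ℝ) (h0 : α * (k : ℝ) < x)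
    (h1 : x < α * ((k + 1 : ℤ) : ℝ)) :
    0 < x / α - k ∧ x / α - k < 1 ∧ α * (k + (x / α - k)) = x := by
  have e : α * (k + (x / α - k)) = x := by field_simp; ring
  push_cast at h1
  refine ⟨?_, ?_, e⟩
  · rw [sub_pos, lt_div_iff₀ hα]; linarith
  · rw [sub_lt_iff_lt_add, div_lt_iff₀ hα]; linarith

theorem gcells_eq (hα : 0 < α) (hβ : 0 < β) :
    gcells P (fun k : ℤ => α * k) (fun l : ℤ => β * l) = cells P α β := by
  ext c
  simp only [gcells, cells, Set.mem_ofPred_eq]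
  constructor
  · intro h u w hu0 hu1 hw0 hw1
    exact h _ _ (cd_lt hα _ hu0) (cd_lt' hα _ hu1) (cd_lt hβ _ hw0) (cd_lt' hβ _ hw1)
  · intro h x y hx0 hx1 hy0 hy1
    obtain ⟨a1, a2, a3⟩ := cd_inv' hα c.1 x hx0 hx1
    obtain ⟨b1, b2, b3⟩ := cd_inv' hβ c.2 y hy0 hy1
    have := h (x / α - c.1) (y / β - c.2) a1 a2 b1 b2
    rwa [a3, b3] at this

theorem cellData (hL : IsLattice P v α β) : CellData P v α β (cells P α β) := by
  have h := gData (isGrid hL)
  have hα := hL.hα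
  have hβ := hL.hβ
  rw [gcells_eq hα hβ] at h
  refine ⟨h.fin, ?_, fun _ hc => hc, ?_, ?_, ?_, ?_, ?_, ?_, h.inj, h.three_le, h.conn⟩
  · intro y hy
    obtain ⟨c, hc, h1, h2, h3, h4⟩ := h.cover y hy
    obtain ⟨a1, a2, a3⟩ := cd_inv hα c.1 y.re h1 h2
    obtain ⟨b1, b2, b3⟩ := cd_inv hβ c.2 y.im h3 h4
    exact ⟨c, hc, _, _, a1, a2, b1, b2, Complex.ext a3 b3⟩
  · intro c hc hc' w hw0 hw1
    have := h.passR c hc hc' _ (cd_lt hβ _ hw0) (cd_lt' hβ _ hw1)
    push_cast at this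
    exact this
  · intro c hc hc' u hu0 hu1
    have := h.passU c hc hc' _ (cd_lt hα _ hu0) (cd_lt' hα _ hu1)
    push_cast at this
    exact this
  · intro c hc hc' w hw0 hw1
    have := h.wallR c hc hc' _ (cd_lt hβ _ hw0) (cd_lt' hβ _ hw1)
    push_cast at this
    exact this
  · intro c hc hc' w hw0 hw1
    exact h.wallL c hc hc' _ (cd_lt hβ _ hw0) (cd_lt' hβ _ hw1)
  · intro c hc hc' u hu0 hu1
    have := h.wallU c hc hc' _ (cd_lt hα _ hu0) (cd_lt' hα _ hu1)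
    push_cast at this
    exact this
  · intro c hc hc' u hu0 hu1
    exact h.wallD c hc hc' _ (cd_lt hα _ hu0) (cd_lt' hα _ hu1)

end Pool.Agent.Lib.H42I
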