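import Pool.Agent.Lib.H42I.Defs

/-! # Chunk Kron2 (M): Kronecker's theorem in dimension two -/

namespace Pool.Agent.Lib.H42I

private theorem kron2_rec (α β : ℝ) (δ : ℝ) (hδ : 0 < δ) (T : ℕ) :
    ∃ t : ℕ, T ≤ t ∧ ∃ a b : ℤ, |(t : ℝ) * α - a| < δ ∧ |(t : ℝ) * β - b| < δ := by
  have h := mapClusterPt_zero_atTop_nsmul
    (((α : UnitAddCircle), (β : UnitAddCircle)) : UnitAddCircle × UnitAddCircle)
  have h2 := (h.frequently (Metric.ball_mem_nhds _ hδ)).and_eventually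
    (Filter.eventually_ge_atTop T)
  obtain ⟨t, ht, hT⟩ := h2.exists
  rw [dist_zero_right] at ht
  have h3 : ∀ γ : ℝ, t • (γ : UnitAddCircle) = (((t : ℝ) * γ : ℝ) : UnitAddCircle) := by
    intro γ
    rw [← nsmul_eq_mul]
    exact (AddCircle.coe_nsmul 1).symm
  have h4 : ‖((t • ((α : UnitAddCircle), (β : UnitAddCircle))) : UnitAddCircle × UnitAddCircle)‖
      = max ‖t • (α : UnitAddCircle)‖ ‖t • (β : UnitAddCircle)‖ := rfl
  rw [h4, max_lt_iff, h3, h3, UnitAddCircle.norm_eq, UnitAddCircle.norm_eq] at ht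
  exact ⟨t, hT, round ((t : ℝ) * α), round ((t : ℝ) * β), ht.1, ht.2⟩

private theorem kron2_pair (α β : ℝ) (h : Indep α β) (δ : ℝ) (hδ : 0 < δ) :
    ∃ (t t' : ℕ) (a b a' b' : ℤ), |(t : ℝ) * α - a| < δ ∧ |(t : ℝ) * β - b| < δ ∧
      |(t' : ℝ) * α - a'| < δ ∧ |(t' : ℝ) * β - b'| < δ ∧
      ((t : ℝ) * α - a) * ((t' : ℝ) * β - b') - ((t : ℝ) * β - b) * ((t' : ℝ) * α - a') ≠ 0 := by
  obtain ⟨t, ht, a, b, h1, h2⟩ := kron2_rec α β δ hδ 1
  have ht0 : (0 : ℝ) < t := by exact_mod_cast ht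
  have hv : (t : ℝ) * α - a ≠ 0 := by
    intro h0
    have := (h (-a) t 0 (by push_cast; linarith)).2.1
    have : (t : ℤ) = 0 := this
    omega
  have hδ' : 0 < min δ (|(t : ℝ) * α - a| / t) :=
    lt_min hδ (div_pos (abs_pos.mpr hv) ht0)
  obtain ⟨t', ht', a', b', h3, h4⟩ := kron2_rec α β _ hδ' 1
  refine ⟨t, t', a, b, a', b', h1, h2, lt_of_lt_of_le h3 (min_le_left _ _),
    lt_of_lt_of_le h4 (min_le_left _ _), ?_⟩
  intro h0
  have h5 := h (a * b' - b * a') (b * t' - t * b') (t * a' - a * t') (by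
    push_cast
    linarith)
  have h6 : (t : ℤ) * a' - a * t' = 0 := h5.2.2
  have h7 : (t : ℝ) * a' = a * t' := by
    have : (t : ℤ) * a' = a * t' := by linarith
    exact_mod_cast this
  have h8 : |(t' : ℝ) * α - a'| < |(t : ℝ) * α - a| / t :=
    lt_of_lt_of_le h3 (min_le_right _ _)
  rw [lt_div_iff₀ ht0] at h8
  have h9 : |(t' : ℝ) * α - a'| * t = |(t : ℝ) * α - a| * t' := by
    rw [← abs_of_pos ht0, ← abs_mul]
    have ht'0 : (0 : ℝ) ≤ t' := Nat.cast_nonneg _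
    have e : |(t : ℝ) * α - a| * (t' : ℝ) = |((t : ℝ) * α - a) * t'| := by
      rw [abs_mul, abs_of_nonneg ht'0]
    rw [abs_of_pos ht0, e]
    congr 1
    linarith [h7]
  rw [h9] at h8
  have ht'1 : (1 : ℝ) ≤ t' := by exact_mod_cast ht'
  have := abs_pos.mpr hv
  nlinarith

/-- Proof (Fourier). Let `e x = exp (2 π i x)`,
`F u w = ((2 + e u + e (-u)) (2 + e w + e (-w)) / 16) ^ K` (`(2 + e u + e (-u)) / 4 = cos² (π u)`).
Expanded (binomial: `((2 + e u + e (-u))/4)^K = 4^(-K) ∑_{|j| ≤ K} C(2K, K + j) e (j u)`), the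
averages over `T ≤ t < T + N` of `F (t α - x) (t β - y)` tend for `N → ∞` to the constant term
`(C(2K,K) / 4^K)² ≥ 1/(2K+1)²` (geometric sums: `j α + k β ∉ ℤ` unless `j = k = 0`; `Indep`).
If no `t ≥ T` works then every value is at most `cos² (π ε)^K =: c^K` with `c < 1` (one of
`t α - x`, `t β - y` has distance `≥ ε` from the integers; let `ε < 1/2`), so
`1/(2K+1)² ≤ c^K` for every `K`: contradiction. Any other proof is fine (e.g. two steps from
the one-dimensional theorem, closed subgroups of `AddCircle × AddCircle`, or a compactness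
argument in Mathlib's `Mathlib.Analysis.Fourier`). -/
theorem kron2 (α β : ℝ) (h : Indep α β) (x y ε : ℝ) (hε : 0 < ε) (T : ℕ) :
    ∃ t : ℕ, T ≤ t ∧ (∃ z : ℤ, |(t : ℝ) * α - x - z| < ε) ∧
      ∃ z : ℤ, |(t : ℝ) * β - y - z| < ε := by
  obtain ⟨t, t', a, b, a', b', h1, h2, h3, h4, hΔ⟩ := kron2_pair α β h (ε / 2) (half_pos hε)
  set v1 : ℝ := (t : ℝ) * α - a with hv1
  set v2 : ℝ := (t : ℝ) * β - b with hv2
  set w1 : ℝ := (t' : ℝ) * α - a' with hw1
  set w2 : ℝ := (t' : ℝ) * β - b' with hw2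
  set Δ : ℝ := v1 * w2 - v2 * w1 with hΔd
  set s : ℝ := (x * w2 - y * w1) / Δ with hs
  set r : ℝ := (v1 * y - v2 * x) / Δ with hr
  have hx : s * v1 + r * w1 = x := by
    rw [hs, hr]; field_simp; rw [hΔd]; ring
  have hy : s * v2 + r * w2 = y := by
    rw [hs, hr]; field_simp; rw [hΔd]; ring
  set m : ℤ := round s with hm
  set n : ℤ := round r with hn
  have hms : |(m : ℝ) - s| ≤ 1 / 2 := by rw [abs_sub_comm]; exact abs_sub_round s
  have hnr : |(n : ℝ) - r| ≤ 1 / 2 := by rw [abs_sub_comm]; exact abs_sub_round r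
  set t0 : ℤ := m * t + n * t' with ht0
  obtain ⟨u, hu, c, d, hc, hd⟩ := kron2_rec α β (ε / 2) (half_pos hε) (T + t0.natAbs)
  have hu0 : (T : ℤ) ≤ (u : ℤ) + t0 := by omega
  have hcast : ((((u : ℤ) + t0).toNat : ℕ) : ℝ) = (u : ℝ) + t0 := by
    have e : ((((u : ℤ) + t0).toNat : ℕ) : ℤ) = (u : ℤ) + t0 := Int.toNat_of_nonneg (by omega)
    exact_mod_cast e
  have key : ∀ p q z : ℝ, |p| < ε / 2 → |q| < ε / 2 → |z| < ε / 2 →
      |z + (((m : ℝ) - s) * p + ((n : ℝ) - r) * q)| < ε := by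
    intro p q z hp hq hz
    have e1 : |((m : ℝ) - s) * p| ≤ 1 / 2 * (ε / 2) := by
      rw [abs_mul]
      exact mul_le_mul hms hp.le (abs_nonneg _) (by norm_num)
    have e2 : |((n : ℝ) - r) * q| ≤ 1 / 2 * (ε / 2) := by
      rw [abs_mul]
      exact mul_le_mul hnr hq.le (abs_nonneg _) (by norm_num)
    have e3 := abs_add_le (((m : ℝ) - s) * p) (((n : ℝ) - r) * q)
    have e4 := abs_add_le z (((m : ℝ) - s) * p + ((n : ℝ) - r) * q)
    linarith
  refine ⟨((u : ℤ) + t0).toNat, by omega, ⟨c + m * a + n * a', ?_⟩, ⟨d + m * b + n * b', ?_⟩⟩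
  · have e : ((((u : ℤ) + t0).toNat : ℕ) : ℝ) * α - x - ((c + m * a + n * a' : ℤ) : ℝ)
        = ((u : ℝ) * α - c) + (((m : ℝ) - s) * v1 + ((n : ℝ) - r) * w1) := by
      rw [hcast, ← hx, ht0, hv1, hw1]
      push_cast
      ring
    rw [e]
    exact key _ _ _ h1 h3 hc
  · have e : ((((u : ℤ) + t0).toNat : ℕ) : ℝ) * β - y - ((d + m * b + n * b' : ℤ) : ℝ)
        = ((u : ℝ) * β - d) + (((m : ℝ) - s) * v2 + ((n : ℝ) - r) * w2) := by
      rw [hcast, ← hy, ht0, hv2, hw2]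
      push_cast
      ring
    rw [e]
    exact key _ _ _ h2 h4 hd

end Pool.Agent.Lib.H42I
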