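import Pool.Agent.Lib.H42I.Template
import Pool.Agent.Lib.H42I.Kron2

/-! # Chunk ClassA (M): independent abscissae -/

namespace Pool.Agent.Lib.H42I

private lemma clA_cj_per {G : Type*} [Group G] (R U : G) {L : ℤ} (hL : U ^ L = 1) (k z : ℤ) :
    cj R U (k + L * z) = cj R U k := by
  have e : U ^ (L * z) = 1 := by rw [zpow_mul, hL, one_zpow]
  have e1 : U ^ (k + L * z) = U ^ k := by rw [zpow_add, e, mul_one]
  have e2 : U ^ (-(k + L * z)) = U ^ (-k) := by rw [zpow_neg, zpow_neg, e1]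
  unfold cj
  rw [e1, e2]

private lemma clA_W_congr {G : Type*} [Group G] (R U : G) (k k' : ℕ → ℤ) (m : ℕ)
    (h : ∀ j < m, cj R U (k j) = cj R U (k' j)) : W R U k m = W R U k' m := by
  induction m with
  | zero => rfl
  | succ m ih =>
    show cj R U (k m) * W R U k m = cj R U (k' m) * W R U k' m
    rw [h m (Nat.lt_succ_self m), ih (fun j hj => h j (Nat.lt_succ_of_lt hj))]

private lemma clA_single (x : ℝ) (hx : ∀ z : ℤ, x ≠ z) :
    ∃ ρ : ℝ, 0 < ρ ∧ ∀ η : ℝ, |η| < ρ → (⌊x⌋ : ℝ) < x + η ∧ x + η < ⌊x⌋ + 1 := by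
  have h1 : (⌊x⌋ : ℝ) < x := lt_of_le_of_ne (Int.floor_le x) (fun h => hx _ h.symm)
  have h2 : x < ⌊x⌋ + 1 := Int.lt_floor_add_one x
  refine ⟨min (x - ⌊x⌋) (⌊x⌋ + 1 - x), lt_min (by linarith) (by linarith), ?_⟩
  intro η hη
  have h3 := (abs_lt.1 hη).1
  have h4 := (abs_lt.1 hη).2
  have h5 := min_le_left (x - ⌊x⌋) (⌊x⌋ + 1 - x)
  have h6 := min_le_right (x - ⌊x⌋) (⌊x⌋ + 1 - x)
  constructor <;> linarith

private lemma clA_family (x : ℕ → ℝ) (m : ℕ) (hx : ∀ j < m, ∀ z : ℤ, x j ≠ z) :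
    ∃ ρ : ℝ, 0 < ρ ∧ ∀ j < m, ∀ η : ℝ, |η| < ρ →
      (⌊x j⌋ : ℝ) < x j + η ∧ x j + η < ⌊x j⌋ + 1 := by
  induction m with
  | zero => exact ⟨1, one_pos, fun j hj => absurd hj (Nat.not_lt_zero j)⟩
  | succ m ih =>
    obtain ⟨ρ, hρ, h⟩ := ih (fun j hj => hx j (Nat.lt_succ_of_lt hj))
    obtain ⟨ρ', hρ', h'⟩ := clA_single (x m) (hx m (Nat.lt_succ_self m))
    refine ⟨min ρ ρ', lt_min hρ hρ', ?_⟩
    intro j hj η hη
    rcases Nat.lt_succ_iff_lt_or_eq.1 hj with hj' | rfl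
    · exact h j hj' η (lt_of_lt_of_le hη (min_le_left _ _))
    · exact h' η (lt_of_lt_of_le hη (min_le_right _ _))

/-- Proof. Let `L = Nat.card G`. `tpl_all` for `p = (0,0)` gives `D > 0`, `m ≥ 1`, `n' : ℤ` with
`D (j+1) ∉ ℤ` for `j < m` and `g = U^n' * W R U (fun j => ⌊0 + D ((j+1) - 0)⌋) m`. Let
`M = m + b.1 - a.1 > 0`. Take `n = n' + L t` with `t` a large natural number (`n ≥ 1`):
`σ = (n + b.2 - a.2)/M`, `ht a b m n j = a.2 + σ (j + 1 - a.1) = H + j σ`, `H = a.2 + σ (1 - a.1)`.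
`σ / L = const + t (1/M)`, `H / L = const + t ((1 - a.1)/M)`, and `Indep (1/M) ((1 - a.1)/M)`: a
relation `c₀ + c₁/M + c₂ (1-a.1)/M = 0` times `M` is
`(c₀ m + c₁ + c₂) + (-c₀ - c₂) a.1 + c₀ b.1 = 0`. So by `kron2` there is `t` with
`σ = D + ε₁ + L z₁`, `H = D + ε₂ + L z₂`, `|ε₁|, |ε₂|` as small as we want; so
`ht j = D (j+1) + (ε₂ + j ε₁) + L (z₂ + j z₁)`, which is not an integer and has
`⌊ht j⌋ = ⌊D (j+1)⌋ + L (z₂ + j z₁)` if `|ε₂ + j ε₁|` is smaller than the distance of `D (j+1)` from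
the integers for all `j < m`. As `U^L = 1`, `cj R U` is `L`-periodic and `U^n = U^n'`. -/
theorem conn_indep {G : Type*} [Group G] [Finite G] (R U : G) (a b : ℝ × ℝ) (ha : InO a)
    (hb : InB b) (h : Indep a.1 b.1) :
    ∀ g ∈ Subgroup.closure ({R, U} : Set G), g ∈ Conn R U a b := by
  intro g hg
  obtain ⟨D, hD, m, hm, n', hne, hgW⟩ := tpl_all R U ((0 : ℝ), (0 : ℝ))
    ⟨le_rfl, one_pos, le_rfl, one_pos⟩ ⟨0, 0, by simp⟩ g hg
  obtain ⟨ρ, hρ, hfam⟩ := clA_family (fun j => (0 : ℝ) + D * ((j + 1 : ℝ) - 0)) m hne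
  set M : ℝ := m + b.1 - a.1 with hMdef
  have hm1 : (1 : ℝ) ≤ m := by exact_mod_cast hm
  have hM : 0 < M := by
    have := ha.2.1
    have := hb.1
    rw [hMdef]
    linarith
  obtain ⟨L, hLdef⟩ : ∃ L : ℕ, L = Nat.card G := ⟨_, rfl⟩
  have hL0 : 0 < L := by rw [hLdef]; exact Nat.card_pos
  have hLr : (0 : ℝ) < L := by exact_mod_cast hL0
  have hUL : U ^ (L : ℤ) = 1 := by
    rw [zpow_natCast, hLdef]
    exact pow_card_eq_one'
  -- independence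
  have hind : Indep (1 / M) ((1 - a.1) / M) := by
    intro c₀ c₁ c₂ hc
    have hc' : (c₀ : ℝ) * M + c₁ + c₂ * (1 - a.1) = 0 := by
      have := congrArg (fun y => y * M) hc
      simp only [zero_mul] at this
      rw [← this]
      field_simp
    have h2 := h (c₀ * m + c₁ + c₂) (-c₀ - c₂) c₀ (by
      push_cast
      rw [hMdef] at hc'
      linarith)
    obtain ⟨e1, e2, e3⟩ := h2
    subst e3
    have e4 : c₂ = 0 := by linarith
    subst e4
    refine ⟨rfl, by linarith, rfl⟩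
  set A0 : ℝ := (n' + b.2 - a.2) / (M * L) with hA0
  set ε : ℝ := ρ / (L * (m + 1)) with hε
  have hm0 : (0 : ℝ) < m + 1 := by linarith
  have hεpos : 0 < ε := by rw [hε]; positivity
  obtain ⟨t, htT, ⟨z₁, hz₁⟩, ⟨z₂, hz₂⟩⟩ := kron2 (1 / M) ((1 - a.1) / M) hind
    (D / L - A0) (D / L - a.2 / L - A0 * (1 - a.1)) ε hεpos (n'.natAbs + 1)
  -- the natural number `n`
  have hnpos : 1 ≤ n' + (L : ℤ) * t := by
    have h1 : (t : ℤ) ≤ (L : ℤ) * t := by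
      have : (1 : ℤ) ≤ L := by exact_mod_cast hL0
      nlinarith [Int.natCast_nonneg t]
    have h2 : ((n'.natAbs + 1 : ℕ) : ℤ) ≤ t := by exact_mod_cast htT
    push_cast at h2
    have h3 : -|n'| ≤ n' := neg_abs_le n'
    linarith
  obtain ⟨n, hn⟩ : ∃ n : ℕ, (n : ℤ) = n' + (L : ℤ) * t :=
    ⟨(n' + (L : ℤ) * t).toNat, Int.toNat_of_nonneg (by linarith)⟩
  have hnr : (n : ℝ) = n' + (L : ℝ) * t := by exact_mod_cast hn
  set e₁ : ℝ := (t : ℝ) * (1 / M) - (D / L - A0) - z₁ with he₁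
  set e₂ : ℝ := (t : ℝ) * ((1 - a.1) / M) - (D / L - a.2 / L - A0 * (1 - a.1)) - z₂ with he₂
  have hht : ∀ j : ℕ, ht a b m n j =
      (0 + D * ((j + 1 : ℝ) - 0)) + (L * (e₂ + j * e₁)) + (L : ℝ) * (z₂ + j * z₁) := by
    intro j
    have hMne : M ≠ 0 := hM.ne'
    have hLne : (L : ℝ) ≠ 0 := hLr.ne'
    unfold ht
    rw [← hMdef, he₁, he₂, hA0, hnr]
    field_simp
    ring
  have hsmall : ∀ j < m, |(L : ℝ) * (e₂ + j * e₁)| < ρ := by
    intro j hj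
    have hjm : (j : ℝ) + 1 ≤ m := by exact_mod_cast hj
    have hj0 : (0 : ℝ) ≤ j := Nat.cast_nonneg j
    have h1 : |e₂ + j * e₁| ≤ |e₂| + j * |e₁| := by
      refine (abs_add_le _ _).trans ?_
      rw [abs_mul, abs_of_nonneg hj0]
    have h2 : |e₂| + j * |e₁| ≤ ε + j * ε := by
      have := hz₂.le
      have h3 := mul_le_mul_of_nonneg_left hz₁.le hj0
      linarith
    have h4 : ε + j * ε ≤ ε * m := by nlinarith
    have h5 : ε * m < ε * (m + 1) := by nlinarith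
    rw [abs_mul, abs_of_pos hLr]
    have h6 : (L : ℝ) * |e₂ + j * e₁| < L * (ε * (m + 1)) := by
      apply mul_lt_mul_of_pos_left _ hLr
      linarith
    have h7 : (L : ℝ) * (ε * (m + 1)) = ρ := by
      rw [hε]
      field_simp
    linarith
  have hkey : ∀ j < m, (∀ z : ℤ, ht a b m n j ≠ z) ∧
      ⌊ht a b m n j⌋ = ⌊(0 : ℝ) + D * ((j + 1 : ℝ) - 0)⌋ + (L : ℤ) * (z₂ + j * z₁) := by
    intro j hj
    obtain ⟨h1, h2⟩ := hfam j hj _ (hsmall j hj)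
    have hcast : (L : ℝ) * (z₂ + j * z₁) = (((L : ℤ) * (z₂ + j * z₁) : ℤ) : ℝ) := by push_cast; ring
    constructor
    · intro z hz
      rw [hht j, hcast] at hz
      have hz' : (0 + D * ((j + 1 : ℝ) - 0)) + (L * (e₂ + j * e₁)) =
          ((z - (L : ℤ) * (z₂ + j * z₁) : ℤ) : ℝ) := by
        rw [Int.cast_sub]
        linarith
      rw [hz'] at h1 h2
      have h3 : ⌊(0 : ℝ) + D * ((j + 1 : ℝ) - 0)⌋ < z - (L : ℤ) * (z₂ + j * z₁) := by
        exact_mod_cast h1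
      have h4 : z - (L : ℤ) * (z₂ + j * z₁) < ⌊(0 : ℝ) + D * ((j + 1 : ℝ) - 0)⌋ + 1 := by
        exact_mod_cast h2
      omega
    · rw [hht j, hcast, Int.floor_add_intCast]
      congr 1
      rw [Int.floor_eq_iff]
      exact ⟨h1.le, h2⟩
  refine ⟨m, n, hm, ?_, fun j hj => (hkey j hj).1, ?_⟩
  · have : (1 : ℤ) ≤ n := by rw [hn]; exact hnpos
    exact_mod_cast this
  · have hUn : U ^ (n : ℤ) = U ^ n' := by
      rw [hn, zpow_add, zpow_mul, hUL, one_zpow, mul_one]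
    rw [hgW, hUn]
    congr 1
    symm
    apply clA_W_congr
    intro j hj
    show cj R U ⌊ht a b m n j⌋ = cj R U ⌊(0 : ℝ) + D * ((j + 1 : ℝ) - 0)⌋
    rw [(hkey j hj).2]
    exact clA_cj_per R U hUL _ _

end Pool.Agent.Lib.H42I
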