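import Pool.Agent.Lib.H42I.Defs

/-! # Chunk Perm (S/M): the steps are permutations, transitive on the states -/

namespace Pool.Agent.Lib.H42I

private def perm_fR {S : Set (ℤ × ℤ)} (s : St S) : St S := (s.1, !s.2.1, s.2.2)

private def perm_fU {S : Set (ℤ × ℤ)} (s : St S) : St S := (s.1, s.2.1, !s.2.2)

private theorem perm_fR_fR {S : Set (ℤ × ℤ)} (s : St S) : perm_fR (perm_fR s) = s := by
  obtain ⟨c, b, e⟩ := s
  simp [perm_fR]

private theorem perm_fU_fU {S : Set (ℤ × ℤ)} (s : St S) : perm_fU (perm_fU s) = s := by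
  obtain ⟨c, b, e⟩ := s
  simp [perm_fU]

private theorem perm_leftR {S : Set (ℤ × ℤ)} (s : St S) :
    perm_fR (stepR (perm_fR (stepR s))) = s := by
  obtain ⟨⟨⟨x, y⟩, hc⟩, b, e⟩ := s
  cases b
  · by_cases h : (x - 1, y) ∈ S
    · simp [stepR, perm_fR, h, hc]
    · simp [stepR, perm_fR, h]
  · by_cases h : (x + 1, y) ∈ S
    · simp [stepR, perm_fR, h, hc]
    · simp [stepR, perm_fR, h]

private theorem perm_leftU {S : Set (ℤ × ℤ)} (s : St S) :
    perm_fU (stepU (perm_fU (stepU s))) = s := by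
  obtain ⟨⟨⟨x, y⟩, hc⟩, e, b⟩ := s
  cases b
  · by_cases h : (x, y - 1) ∈ S
    · simp [stepU, perm_fU, h, hc]
    · simp [stepU, perm_fU, h]
  · by_cases h : (x, y + 1) ∈ S
    · simp [stepU, perm_fU, h, hc]
    · simp [stepU, perm_fU, h]

/-- Proof. With `F (c, e, f) = (c, !e, f)`: `stepR (F (stepR (F s))) = s` and
`F (stepR (F (stepR s))) = s` (case distinctions). -/
theorem stepR_bij (S : Set (ℤ × ℤ)) : Function.Bijective (stepR (S := S)) := by
  refine Function.bijective_iff_has_inverse.2 ⟨fun s => perm_fR (stepR (perm_fR s)),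
    fun s => perm_leftR s, fun s => ?_⟩
  have h := congrArg perm_fR (perm_leftR (perm_fR s))
  rw [perm_fR_fR, perm_fR_fR] at h
  exact h

/-- The same with `F (c, e, f) = (c, e, !f)`. -/
theorem stepU_bij (S : Set (ℤ × ℤ)) : Function.Bijective (stepU (S := S)) := by
  refine Function.bijective_iff_has_inverse.2 ⟨fun s => perm_fU (stepU (perm_fU s)),
    fun s => perm_leftU s, fun s => ?_⟩
  have h := congrArg perm_fU (perm_leftU (perm_fU s))
  rw [perm_fU_fU, perm_fU_fU] at h
  exact h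

/-- the permutation `R` -/
noncomputable def pR (S : Set (ℤ × ℤ)) : Equiv.Perm (St S) := Equiv.ofBijective _ (stepR_bij S)

/-- the permutation `U` -/
noncomputable def pU (S : Set (ℤ × ℤ)) : Equiv.Perm (St S) := Equiv.ofBijective _ (stepU_bij S)

end Pool.Agent.Lib.H42I
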