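import Pool.Agent.Lib.H42I.Light
import Pool.Agent.Lib.H42I.Perm

/-! # Chunk Climb (S/M): flying upwards inside a column -/

namespace Pool.Agent.Lib.H42I

variable {n : ℕ} {P : Set ℂ} {v : ZMod n → ℂ} {α β : ℝ} {S : Set (ℤ × ℤ)}

/-- Proof. Induction on `k` (generalizing `s u w`). `k = 0`: `Fly` with `τ = (u' - u) / x`.
`k + 1`: let `u₁ = u + (1 - w) x / y`: `u < u₁ < u'` (the line is at height `1` before
`w' + k + 1`). `Fly` with `τ = (1 - w)/y` gives `RayS` at `pt s u₁ 1`, `cross_up` gives `Fly` at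
`u₁, 0` for `stepU s`; use the induction hypothesis (`(pU S ^ (k+1)) s = (pU S ^ k) (stepU s)`). -/
theorem climb (hC : CellData P v α β S) (hα : 0 < α) (hβ : 0 < β) (q : ℂ)
    (x y : ℝ) (hx : 0 < x) (hy : 0 < y) (k : ℕ) (s : St S) (u w : ℝ)
    (hu0 : 0 ≤ u) (hu1 : u < 1) (hw0 : 0 ≤ w) (hw1 : w < 1)
    (h : Fly P v q α β s x y u w) (u' w' : ℝ) (huu : u < u') (hu' : u' ≤ 1) (hw'0 : 0 < w')
    (hw'1 : w' ≤ 1) (hline : (w' + k - w) * x = (u' - u) * y) :
    RayS P v q (pt α β ((pU S ^ k) s) u' w') (dr α β ((pU S ^ k) s) x y) := by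
  induction k generalizing s u w with
  | zero =>
    have hτ : 0 < (u' - u) / x := div_pos (by linarith) hx
    have h1 : u + (u' - u) / x * x = u' := by
      rw [div_mul_cancel₀ _ hx.ne']; ring
    have h2 : w + (u' - u) / x * y = w' := by
      have h3 : (u' - u) / x * y = w' - w := by
        rw [div_mul_eq_mul_div, div_eq_iff hx.ne']
        have h4 := hline
        simp only [Nat.cast_zero, add_zero] at h4
        linarith
      rw [h3]; ring
    have h5 := h ((u' - u) / x) hτ (by rw [h1]; exact hu') (by rw [h2]; exact hw'1)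
    rw [h1, h2] at h5
    simpa using h5
  | succ k ih =>
    have hτ : 0 < (1 - w) / y := div_pos (by linarith) hy
    have hk : (0 : ℝ) ≤ k := Nat.cast_nonneg k
    have h2 : w + (1 - w) / y * y = 1 := by
      rw [div_mul_cancel₀ _ hy.ne']; ring
    have hl : (w' + ((k : ℝ) + 1) - w) * x = (u' - u) * y := by
      have h4 := hline
      push_cast at h4
      exact h4
    have h6 : (1 - w) / y * x * y = (1 - w) * x := by
      field_simp
    have hlt : u + (1 - w) / y * x < u' := by
      have h7 : (1 - w) / y * x * y < (u' - u) * y := by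
        rw [h6, ← hl]
        have : 0 < (w' + k) * x := mul_pos (by linarith) hx
        nlinarith
      have h8 : (1 - w) / y * x < u' - u := lt_of_mul_lt_mul_right h7 hy.le
      linarith
    have hu1' : u + (1 - w) / y * x < 1 := lt_of_lt_of_le hlt hu'
    have hpos : 0 < (1 - w) / y * x := mul_pos hτ hx
    have h9 := h ((1 - w) / y) hτ hu1'.le (by rw [h2])
    rw [h2] at h9
    have h10 := cross_up hC hα hβ q s x y (u + (1 - w) / y * x) hx hy (by linarith) hu1' h9
    have h11 := ih (stepU s) (u + (1 - w) / y * x) 0 (by linarith) hu1' le_rfl one_pos h10 hlt (by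
      have h12 : (u' - (u + (1 - w) / y * x)) * y = (u' - u) * y - (1 - w) / y * x * y := by ring
      rw [h12, h6, ← hl]; ring)
    have h13 : (pU S ^ (k + 1)) s = (pU S ^ k) (stepU s) := by
      rw [pow_succ, Equiv.Perm.mul_apply]
      rfl
    rw [h13]
    exact h11

end Pool.Agent.Lib.H42I
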