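import Pool.Agent.Lib.H42I.Defs

/-! # Chunk Dual (S/M): the two words of a staircase -/

namespace Pool.Agent.Lib.H42I

private theorem W_zero_pow {G : Type*} [Group G] (R U : G) (k : ℕ → ℤ) :
    ∀ m : ℕ, (∀ j < m, k j = 0) → W R U k m = R ^ (m : ℤ)
  | 0, _ => by simp [W]
  | m + 1, h => by
    have h1 := W_zero_pow R U k m (fun j hj => h j (by omega))
    have h2 : k m = 0 := h m (by omega)
    unfold W
    rw [h1, h2]
    unfold cj
    push_cast
    rw [zpow_add, zpow_one, neg_zero, zpow_zero, one_mul, mul_one, ← zpow_one_add, zpow_add, zpow_one,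
      ← zpow_add_one, ← zpow_one_add]
    congr 1
    ring

/-- Conjugate partitions. `k j` = number of horizontal lines crossed before the vertical line number
`j + 1`, `l i` = number of vertical lines crossed before the horizontal line number `i + 1`.
Proof: induction on `m + n` (e.g. `∀ N m n, m + n = N → …`). If `m = 0`: all `l i = 0`
(`0 ≤ l i ≤ 0`), so `W U R l n = U ^ n` (small induction). If `n = 0` the same. If `m = m' + 1`,
`n = n' + 1`:
(a) `k m' = n`: then `l i ≤ m'` for all `i < n` (by `hkl`, as `i + 1 ≤ n = k m'`), and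
`U^n * cj R U n = R * U^n`, so `U^n * W R U k (m'+1) = R * (U^n * W R U k m')`; use the induction
hypothesis for `(m', n)`.
(b) `k m' ≤ n'`: then not `l n' ≤ m'`, so `l n' = m`; for `j < m`: `k j ≤ n'` (otherwise
`n' + 1 ≤ k j`, so `l n' ≤ j < m`). Symmetric: `R^m * W U R l (n'+1) = U * (R^m * W U R l n')`, and
`U^n = U * U^n'`; use the induction hypothesis for `(m, n')`. -/
theorem dual {G : Type*} [Group G] (R U : G) (m n : ℕ) (k l : ℕ → ℤ)
    (hk : ∀ j < m, 0 ≤ k j ∧ k j ≤ n) (hl : ∀ i < n, 0 ≤ l i ∧ l i ≤ m)
    (hkl : ∀ j < m, ∀ i < n, ((i : ℤ) + 1 ≤ k j ↔ l i ≤ j)) :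
    U ^ (n : ℤ) * W R U k m = R ^ (m : ℤ) * W U R l n := by
  obtain ⟨N, hN⟩ : ∃ N, m + n = N := ⟨_, rfl⟩
  induction N generalizing m n with
  | zero =>
    obtain ⟨rfl, rfl⟩ : m = 0 ∧ n = 0 := by omega
    simp [W]
  | succ N ih =>
    rcases m with _ | m
    · rw [W_zero_pow U R l n (fun i hi => by have := hl i hi; push_cast at this; omega)]
      simp [W]
    rcases n with _ | n
    · rw [W_zero_pow R U k (m + 1) (fun j hj => by have := hk j hj; push_cast at this; omega)]
      simp [W]
    rcases eq_or_ne (k m) ((n + 1 : ℕ) : ℤ) with h | h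
    · have h1 := ih m (n + 1) (fun j hj => hk j (by omega))
        (fun i hi => ⟨(hl i hi).1, (hkl m (by omega) i hi).1 (by rw [h]; exact_mod_cast hi)⟩)
        (fun j hj i hi => hkl j (by omega) i hi) (by omega)
      have h2 : U ^ ((n + 1 : ℕ) : ℤ) * W R U k (m + 1)
          = R * (U ^ ((n + 1 : ℕ) : ℤ) * W R U k m) := by
        conv_lhs => unfold W
        unfold cj
        rw [h]
        group
      rw [h2, h1, ← mul_assoc]
      congr 1
      push_cast
      rw [add_comm, zpow_add, zpow_one]
    · have h3 : k m ≤ n := by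
        have := (hk m (by omega)).2
        push_cast at this h
        omega
      have h4 : l n = ((m + 1 : ℕ) : ℤ) := by
        have h5 := (hl n (by omega)).2
        have h6 := (hkl m (by omega) n (by omega)).2
        push_cast at h5 h6 ⊢
        by_contra hne
        have := h6 (by omega)
        omega
      have h1 := ih (m + 1) n
        (fun j hj => ⟨(hk j hj).1, by
          have h7 := (hkl j hj n (by omega)).1
          by_contra hc
          have := h7 (by omega)
          rw [h4] at this
          push_cast at this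
          omega⟩)
        (fun i hi => hl i (by omega)) (fun j hj i hi => hkl j hj i (by omega)) (by omega)
      have h2 : R ^ ((m + 1 : ℕ) : ℤ) * W U R l (n + 1)
          = U * (R ^ ((m + 1 : ℕ) : ℤ) * W U R l n) := by
        conv_lhs => unfold W
        unfold cj
        rw [h4]
        group
      rw [h2, ← h1, ← mul_assoc]
      congr 1
      push_cast
      rw [add_comm, zpow_add, zpow_one]

end Pool.Agent.Lib.H42I
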