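import Pool.Agent.Lib.H42I.GCells1

/-! # Chunk GCells2 (M): open sides between two cells of `P`, walls -/

open Set

namespace Pool.Agent.Lib.H42I

variable {n : ℕ} {P : Set ℂ} {v : ZMod n → ℂ} {X Y : ℤ → ℝ}

/-- Proof. The union of the two closed cells (in `P` by `gcells_sub`) is a neighbourhood of the
point. -/
theorem gcells_passR (hL : IsGrid P v X Y) (c : ℤ × ℤ) (hc : c ∈ gcells P X Y)
    (hc' : (c.1 + 1, c.2) ∈ gcells P X Y) (y : ℝ) (hy0 : Y c.2 < y) (hy1 : y < Y (c.2 + 1)) :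
    (⟨X (c.1 + 1), y⟩ : ℂ) ∈ interior P := by
  have e1 : X c.1 < X (c.1 + 1) := hL.hX.mono (by omega)
  have e2 : X (c.1 + 1) < X (c.1 + 1 + 1) := hL.hX.mono (by omega)
  have hU : IsOpen (Ioo (X c.1) (X (c.1 + 1 + 1)) ×ℂ Ioo (Y c.2) (Y (c.2 + 1))) :=
    IsOpen.reProdIm isOpen_Ioo isOpen_Ioo
  refine interior_maximal ?_ hU ?_
  · rintro ⟨a, b⟩ hz
    rw [Complex.mem_reProdIm] at hz
    obtain ⟨⟨h1, h2⟩, h3, h4⟩ := hz
    dsimp only at h1 h2 h3 h4
    rcases le_total a (X (c.1 + 1)) with h | h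
    · exact gcells_sub hL c hc a b h1.le h h3.le h4.le
    · exact gcells_sub hL (c.1 + 1, c.2) hc' a b h h2.le h3.le h4.le
  · rw [Complex.mem_reProdIm]
    exact ⟨⟨e1, e2⟩, hy0, hy1⟩

theorem gcells_passU (hL : IsGrid P v X Y) (c : ℤ × ℤ) (hc : c ∈ gcells P X Y)
    (hc' : (c.1, c.2 + 1) ∈ gcells P X Y) (x : ℝ) (hx0 : X c.1 < x) (hx1 : x < X (c.1 + 1)) :
    (⟨x, Y (c.2 + 1)⟩ : ℂ) ∈ interior P := by
  have e1 : Y c.2 < Y (c.2 + 1) := hL.hY.mono (by omega)
  have e2 : Y (c.2 + 1) < Y (c.2 + 1 + 1) := hL.hY.mono (by omega)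
  have hU : IsOpen (Ioo (X c.1) (X (c.1 + 1)) ×ℂ Ioo (Y c.2) (Y (c.2 + 1 + 1))) :=
    IsOpen.reProdIm isOpen_Ioo isOpen_Ioo
  refine interior_maximal ?_ hU ?_
  · rintro ⟨a, b⟩ hz
    rw [Complex.mem_reProdIm] at hz
    obtain ⟨⟨h1, h2⟩, h3, h4⟩ := hz
    dsimp only at h1 h2 h3 h4
    rcases le_total b (Y (c.2 + 1)) with h | h
    · exact gcells_sub hL c hc a b h1.le h2.le h3.le h
    · exact gcells_sub hL (c.1, c.2 + 1) hc' a b h1.le h2.le h h4.le
  · rw [Complex.mem_reProdIm]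
    exact ⟨⟨hx0, hx1⟩, e1, e2⟩

/-- A cell whose closed rectangle contains an interior point of `P` is a cell of `P`. -/
private theorem gc2_mem_cells (hL : IsGrid P v X Y) {c : ℤ × ℤ} {z : ℂ} (hz : z ∈ interior P)
    (h1 : X c.1 ≤ z.re) (h2 : z.re ≤ X (c.1 + 1)) (h3 : Y c.2 ≤ z.im) (h4 : z.im ≤ Y (c.2 + 1)) :
    c ∈ gcells P X Y := by
  rw [GC1.cells_iff]
  rcases GC1.in_or_out hL.hX.mono hL.hY.mono (GC1.fr hL) c with h | h
  · exact h
  · exfalso
    have hc : z ∈ closure (GC1.oc X Y c) := by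
      rw [GC1.closure_oc hL.hX.mono hL.hY.mono, Complex.mem_reProdIm]
      exact ⟨⟨h1, h2⟩, h3, h4⟩
    obtain ⟨y, hy1, hy2⟩ := mem_closure_iff.1 hc (interior P) isOpen_interior hz
    exact h y hy2 (interior_subset hy1)

/-- A point of `P` which is not an interior point lies on a side. -/
private theorem gc2_side (hL : IsGrid P v X Y) {z : ℂ} (hz : z ∈ P) (hz' : z ∉ interior P) :
    ∃ i, z ∈ segment ℝ (v i) (v (i + 1)) := by
  have h : z ∈ frontier P := ⟨subset_closure hz, hz'⟩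
  rw [hL.poly.frontier_eq, mem_iUnion] at h
  exact h

/-- Proof. Let `z = (X k, y)`, where exactly one of the cells `(k-1, l)`, `(k, l)` is a cell of
`P`. `z ∈ P` (`gcells_sub`); `z ∉ interior P`, because otherwise the cell which is not in `gcells`
contains points of `P` near `z` in its open rectangle (`gcell_inside_or_outside`). So `z` is in
`frontier P`, i.e. on a side `[v i, v (i+1)]`. If the side is horizontal (`(v i).im = (v (i+1)).im`),
then `z.im = (v i).im` is in the range of `Y`, impossible as `Y l < y < Y (l+1)`. So it is vertical,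
and `z` is not one of its ends (the ends have second coordinates in the range of `Y`):
`z ∈ openSegment`. -/
theorem gcells_wall_vert (hL : IsGrid P v X Y) (k l : ℤ)
    (h : ((k - 1, l) ∈ gcells P X Y ∧ (k, l) ∉ gcells P X Y) ∨
      ((k - 1, l) ∉ gcells P X Y ∧ (k, l) ∈ gcells P X Y)) (y : ℝ) (hy0 : Y l < y)
    (hy1 : y < Y (l + 1)) :
    ∃ i, (⟨X k, y⟩ : ℂ) ∈ openSegment ℝ (v i) (v (i + 1)) ∧ (v i).re = (v (i + 1)).re := by
  have e1 : X (k - 1) < X k := hL.hX.mono (by omega)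
  have e2 : X k < X (k + 1) := hL.hX.mono (by omega)
  have e3 : X (k - 1 + 1) = X k := by rw [sub_add_cancel]
  have hni : (⟨X k, y⟩ : ℂ) ∉ interior P := by
    intro hz
    have a1 : (k - 1, l) ∈ gcells P X Y :=
      gc2_mem_cells hL (c := (k - 1, l)) hz e1.le (by dsimp only; rw [e3]) hy0.le hy1.le
    have a2 : (k, l) ∈ gcells P X Y :=
      gc2_mem_cells hL (c := (k, l)) hz le_rfl e2.le hy0.le hy1.le
    rcases h with h | h
    · exact h.2 a2
    · exact h.1 a1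
  have hP : (⟨X k, y⟩ : ℂ) ∈ P := by
    rcases h with h | h
    · exact gcells_sub hL (k - 1, l) h.1 _ _ e1.le (by dsimp only; rw [e3]) hy0.le hy1.le
    · exact gcells_sub hL (k, l) h.2 _ _ le_rfl e2.le hy0.le hy1.le
  obtain ⟨i, hi⟩ := gc2_side hL hP hni
  obtain ⟨k1, l1, hv1⟩ := hL.vert i
  obtain ⟨k2, l2, hv2⟩ := hL.vert (i + 1)
  have hnot : ∀ m : ℤ, y ≠ Y m := by
    intro m hm
    rw [hm] at hy0 hy1
    exact GC1.not_between hL.hY.mono m l hy0 hy1
  refine ⟨i, mem_openSegment_of_ne_left_right ?_ ?_ hi, ?_⟩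
  · intro he
    rw [hv1] at he
    exact hnot l1 (congrArg Complex.im he).symm
  · intro he
    rw [hv2] at he
    exact hnot l2 (congrArg Complex.im he).symm
  · rcases hL.axis i with ha | ha
    · exact ha
    · exfalso
      have := GC1.seg_im ha hi
      rw [hv1] at this
      exact hnot l1 this

/-- The same for horizontal walls. -/
theorem gcells_wall_hor (hL : IsGrid P v X Y) (k l : ℤ)
    (h : ((k, l - 1) ∈ gcells P X Y ∧ (k, l) ∉ gcells P X Y) ∨
      ((k, l - 1) ∉ gcells P X Y ∧ (k, l) ∈ gcells P X Y)) (x : ℝ) (hx0 : X k < x)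
    (hx1 : x < X (k + 1)) :
    ∃ i, (⟨x, Y l⟩ : ℂ) ∈ openSegment ℝ (v i) (v (i + 1)) ∧ (v i).im = (v (i + 1)).im := by
  have e1 : Y (l - 1) < Y l := hL.hY.mono (by omega)
  have e2 : Y l < Y (l + 1) := hL.hY.mono (by omega)
  have e3 : Y (l - 1 + 1) = Y l := by rw [sub_add_cancel]
  have hni : (⟨x, Y l⟩ : ℂ) ∉ interior P := by
    intro hz
    have a1 : (k, l - 1) ∈ gcells P X Y :=
      gc2_mem_cells hL (c := (k, l - 1)) hz hx0.le hx1.le e1.le (by dsimp only; rw [e3])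
    have a2 : (k, l) ∈ gcells P X Y :=
      gc2_mem_cells hL (c := (k, l)) hz hx0.le hx1.le le_rfl e2.le
    rcases h with h | h
    · exact h.2 a2
    · exact h.1 a1
  have hP : (⟨x, Y l⟩ : ℂ) ∈ P := by
    rcases h with h | h
    · exact gcells_sub hL (k, l - 1) h.1 _ _ hx0.le hx1.le e1.le (by dsimp only; rw [e3])
    · exact gcells_sub hL (k, l) h.2 _ _ hx0.le hx1.le le_rfl e2.le
  obtain ⟨i, hi⟩ := gc2_side hL hP hni
  obtain ⟨k1, l1, hv1⟩ := hL.vert i
  obtain ⟨k2, l2, hv2⟩ := hL.vert (i + 1)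
  have hnot : ∀ m : ℤ, x ≠ X m := by
    intro m hm
    rw [hm] at hx0 hx1
    exact GC1.not_between hL.hX.mono m k hx0 hx1
  refine ⟨i, mem_openSegment_of_ne_left_right ?_ ?_ hi, ?_⟩
  · intro he
    rw [hv1] at he
    exact hnot k1 (congrArg Complex.re he).symm
  · intro he
    rw [hv2] at he
    exact hnot k2 (congrArg Complex.re he).symm
  · rcases hL.axis i with ha | ha
    · exfalso
      have := GC1.seg_re ha hi
      rw [hv1] at this
      exact hnot k1 this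
    · exact ha

end Pool.Agent.Lib.H42I
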