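import Pool.Agent.Lib.H42I.Defs

/-!
# H42I: rectilinear polygons with arbitrary side lengths: grid, cells, local coordinates
-/

open Set

namespace Pool.Agent.Lib.H42I

/-- A strictly increasing sequence of coordinates, unbounded in both directions. -/
structure Grid (X : ℤ → ℝ) : Prop where
  mono : StrictMono X
  top : Filter.Tendsto X Filter.atTop Filter.atTop
  bot : Filter.Tendsto X Filter.atBot Filter.atBot

/-- A polygon with sides parallel to the axes whose vertices are points `(X k, Y l)` of a grid. -/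
structure IsGrid {n : ℕ} (P : Set ℂ) (v : ZMod n → ℂ) (X Y : ℤ → ℝ) : Prop where
  poly : IsPolygon P v
  hX : Grid X
  hY : Grid Y
  vert : ∀ i, ∃ k l : ℤ, v i = ⟨X k, Y l⟩
  axis : ∀ i, (v i).re = (v (i + 1)).re ∨ (v i).im = (v (i + 1)).im

/-- The cells of `P`: the grid rectangles whose interior consists of interior points of `P`. -/
def gcells (P : Set ℂ) (X Y : ℤ → ℝ) : Set (ℤ × ℤ) :=
  {c | ∀ x y : ℝ, X c.1 < x → x < X (c.1 + 1) → Y c.2 < y → y < Y (c.2 + 1) →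
    (⟨x, y⟩ : ℂ) ∈ interior P}

/-- The coordinate at the distance `u` from the left end (`e = true`) or from the right end of the
interval `[X k, X (k + 1)]`. -/
def gc (X : ℤ → ℝ) (k : ℤ) (e : Bool) (u : ℝ) : ℝ := if e then X k + u else X (k + 1) - u

/-- width of a cell -/
def wd (X : ℤ → ℝ) {S : Set (ℤ × ℤ)} (s : St S) : ℝ := X (s.1.1.1 + 1) - X s.1.1.1

/-- height of a cell -/
def hg (Y : ℤ → ℝ) {S : Set (ℤ × ℤ)} (s : St S) : ℝ := Y (s.1.1.2 + 1) - Y s.1.1.2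

/-- The point of the plane with the local coordinates `(u, w)` (lengths) in the state `s`. -/
def gpt (X Y : ℤ → ℝ) {S : Set (ℤ × ℤ)} (s : St S) (u w : ℝ) : ℂ :=
  ⟨gc X s.1.1.1 s.2.1 u, gc Y s.1.1.2 s.2.2 w⟩

/-- The direction of the plane that belongs to the local direction `(x, y)` in the state `s`. -/
def gdr {S : Set (ℤ × ℤ)} (s : St S) (x y : ℝ) : ℂ := ⟨sg s.2.1 x, sg s.2.2 y⟩

/-- The relation between a polygon `P` with vertices `v` and the set `S` of its grid cells. -/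
structure GData {n : ℕ} (P : Set ℂ) (v : ZMod n → ℂ) (X Y : ℤ → ℝ)
    (S : Set (ℤ × ℤ)) : Prop where
  hX : Grid X
  hY : Grid Y
  fin : S.Finite
  cover : ∀ z ∈ P, ∃ c ∈ S, X c.1 ≤ z.re ∧ z.re ≤ X (c.1 + 1) ∧ Y c.2 ≤ z.im ∧
    z.im ≤ Y (c.2 + 1)
  inner : ∀ c ∈ S, ∀ x y : ℝ, X c.1 < x → x < X (c.1 + 1) → Y c.2 < y → y < Y (c.2 + 1) →
    (⟨x, y⟩ : ℂ) ∈ interior P
  passR : ∀ c ∈ S, (c.1 + 1, c.2) ∈ S → ∀ y : ℝ, Y c.2 < y → y < Y (c.2 + 1) →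
    (⟨X (c.1 + 1), y⟩ : ℂ) ∈ interior P
  passU : ∀ c ∈ S, (c.1, c.2 + 1) ∈ S → ∀ x : ℝ, X c.1 < x → x < X (c.1 + 1) →
    (⟨x, Y (c.2 + 1)⟩ : ℂ) ∈ interior P
  wallR : ∀ c ∈ S, (c.1 + 1, c.2) ∉ S → ∀ y : ℝ, Y c.2 < y → y < Y (c.2 + 1) →
    ∃ i, (⟨X (c.1 + 1), y⟩ : ℂ) ∈ openSegment ℝ (v i) (v (i + 1)) ∧ (v i).re = (v (i + 1)).re
  wallL : ∀ c ∈ S, (c.1 - 1, c.2) ∉ S → ∀ y : ℝ, Y c.2 < y → y < Y (c.2 + 1) →
    ∃ i, (⟨X c.1, y⟩ : ℂ) ∈ openSegment ℝ (v i) (v (i + 1)) ∧ (v i).re = (v (i + 1)).re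
  wallU : ∀ c ∈ S, (c.1, c.2 + 1) ∉ S → ∀ x : ℝ, X c.1 < x → x < X (c.1 + 1) →
    ∃ i, (⟨x, Y (c.2 + 1)⟩ : ℂ) ∈ openSegment ℝ (v i) (v (i + 1)) ∧ (v i).im = (v (i + 1)).im
  wallD : ∀ c ∈ S, (c.1, c.2 - 1) ∉ S → ∀ x : ℝ, X c.1 < x → x < X (c.1 + 1) →
    ∃ i, (⟨x, Y c.2⟩ : ℂ) ∈ openSegment ℝ (v i) (v (i + 1)) ∧ (v i).im = (v (i + 1)).im
  inj : Function.Injective v
  three_le : 3 ≤ n
  conn : ∀ A : Set (ℤ × ℤ), A ⊆ S → A.Nonempty →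
    (∀ c ∈ A, (c.1 + 1, c.2) ∈ S → (c.1 + 1, c.2) ∈ A) →
    (∀ c ∈ A, (c.1 - 1, c.2) ∈ S → (c.1 - 1, c.2) ∈ A) →
    (∀ c ∈ A, (c.1, c.2 + 1) ∈ S → (c.1, c.2 + 1) ∈ A) →
    (∀ c ∈ A, (c.1, c.2 - 1) ∈ S → (c.1, c.2 - 1) ∈ A) → A = S

/-- The light can fly from the local point `(u, w)` of the state `s` in the local direction `(x, y)`
to all points of the closed cell. -/
def GFly {n : ℕ} (P : Set ℂ) (v : ZMod n → ℂ) (q : ℂ) (X Y : ℤ → ℝ) {S : Set (ℤ × ℤ)}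
    (s : St S) (x y u w : ℝ) : Prop :=
  ∀ τ : ℝ, 0 < τ → u + τ * x ≤ wd X s → w + τ * y ≤ hg Y s →
    RayS P v q (gpt X Y s (u + τ * x) (w + τ * y)) (gdr s x y)

end Pool.Agent.Lib.H42I
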