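import Pool.Agent.Lib.H42I.Defs

/-! # Chunk Light (M): crossing a side of a cell, flying in a cell -/

namespace Pool.Agent.Lib.H42I

variable {n : ℕ} {P : Set ℂ} {v : ZMod n → ℂ} {α β : ℝ} {S : Set (ℤ × ℤ)}

private theorem light_mem_os {z d w : ℂ} {t : ℝ} (ht : 0 < t) :
    w ∈ openSegment ℝ z (z + t * d) ↔ ∃ s : ℝ, 0 < s ∧ s < t ∧ w = z + s * d := by
  constructor
  · rintro ⟨a, b, ha, hb, hab, rfl⟩
    refine ⟨b * t, by positivity, ?_, ?_⟩
    · nlinarith
    · have ha' : a = 1 - b := by linarith
      subst ha'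
      simp only [Complex.real_smul]
      push_cast
      ring
  · rintro ⟨s, hs0, hst, rfl⟩
    refine ⟨1 - s / t, s / t, ?_, by positivity, by ring, ?_⟩
    · rw [sub_pos, div_lt_one ht]
      exact hst
    · have ht' : (t : ℂ) ≠ 0 := by exact_mod_cast ht.ne'
      simp only [Complex.real_smul]
      push_cast
      field_simp
      ring

private theorem light_join {U : Set ℂ} {a z d : ℂ} {c τ : ℝ} (hc : 0 < c) (hτ : 0 < τ)
    (hz : z = a + c * d) (h1 : openSegment ℝ a z ⊆ U) (h2 : z ∈ U)
    (h3 : openSegment ℝ z (z + τ * d) ⊆ U) : openSegment ℝ a (z + τ * d) ⊆ U := by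
  intro w hw
  have e : z + τ * d = a + ((c + τ : ℝ) : ℂ) * d := by
    rw [hz]
    push_cast
    ring
  rw [e, light_mem_os (by positivity)] at hw
  obtain ⟨s, hs0, hs1, rfl⟩ := hw
  rcases lt_trichotomy s c with h | h | h
  · apply h1
    rw [hz, light_mem_os hc]
    exact ⟨s, hs0, h, rfl⟩
  · rw [h, ← hz]
    exact h2
  · apply h3
    rw [light_mem_os hτ]
    refine ⟨s - c, by linarith, by linarith, ?_⟩
    rw [hz]
    push_cast
    ring

/-- A ray goes on through an interior point. Proof: cases on `Ray`. `start`: `z - q = c * d`, so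
`z + τ d - q = (c + τ) d` and `openSegment q (z + τ d) = openSegment q z ∪ {z} ∪ openSegment z (z + τ d)`.
`bounce` from `z'` with `z = z' + t * r`, `r = c * d`: `z + τ d = z' + (t + τ/c) * r`. -/
theorem ray_extend (q z d : ℂ) (τ : ℝ) (hd : d ≠ 0) (hτ : 0 < τ) (h : RayS P v q z d)
    (hz : z ∈ interior P) (hs : openSegment ℝ z (z + τ * d) ⊆ interior P) :
    RayS P v q (z + τ * d) d := by
  obtain ⟨c, hc, hR⟩ := h
  generalize hD : (c : ℂ) * d = D at hR
  cases hR with
  | start _ hzq hseg =>
    have e : z = q + c * d := by rw [hD]; ring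
    have e2 : z + τ * d - q = ((c + τ : ℝ) : ℂ) * d := by
      rw [e]
      push_cast
      ring
    refine ⟨c + τ, by positivity, ?_⟩
    rw [← e2]
    refine Ray.start _ ?_ (light_join hc hτ e hseg hz hs)
    intro h0
    rw [← sub_eq_zero, e2] at h0
    have h1 : ((c + τ : ℝ) : ℂ) ≠ 0 := by
      have : c + τ ≠ 0 := by positivity
      exact_mod_cast this
    exact (mul_ne_zero h1 hd) h0
  | bounce z' d' _ i t hr hz' ht hw hseg =>
    have hc' : (c : ℂ) ≠ 0 := by exact_mod_cast hc.ne'
    have e : z = z' + ((t * c : ℝ) : ℂ) * d := by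
      rw [hw, ← hD]
      push_cast
      ring
    refine ⟨c, hc, ?_⟩
    rw [hD]
    refine Ray.bounce z' d' (z + τ * d) i (t + τ / c) hr hz' (by positivity) ?_
      (light_join (by positivity) hτ e hseg hz hs)
    rw [← hD, e]
    push_cast
    field_simp
    ring

private theorem light_lc (e : Bool) (u t : ℝ) : lc e (u + t) = lc e u + sg e t := by
  cases e <;> simp [lc, sg]
  ring

private theorem light_sg (e : Bool) (t x : ℝ) : sg e (t * x) = t * sg e x := by
  cases e <;> simp [sg]

private theorem light_lc_mem (e : Bool) {u : ℝ} (h0 : 0 < u) (h1 : u < 1) :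
    0 < lc e u ∧ lc e u < 1 := by
  cases e
  · simp only [lc, Bool.false_eq_true, if_false]
    constructor <;> linarith
  · simp only [lc, if_true]
    exact ⟨h0, h1⟩

private theorem light_pt (α β : ℝ) {S : Set (ℤ × ℤ)} (s : St S) (u w x y t : ℝ) :
    pt α β s (u + t * x) (w + t * y) = pt α β s u w + t * dr α β s x y := by
  unfold pt dr
  apply Complex.ext
  · simp only [light_lc, light_sg, Complex.add_re, Complex.mul_re, Complex.ofReal_re,
      Complex.ofReal_im, zero_mul, sub_zero]
    ring
  · simp only [light_lc, light_sg, Complex.add_im, Complex.mul_im, Complex.ofReal_re,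
      Complex.ofReal_im, zero_mul, add_zero]
    ring

private theorem light_inner (hC : CellData P v α β S) (s : St S) {u w : ℝ} (hu0 : 0 < u)
    (hu1 : u < 1) (hw0 : 0 < w) (hw1 : w < 1) : pt α β s u w ∈ interior P := by
  have h1 := light_lc_mem s.2.1 hu0 hu1
  have h2 := light_lc_mem s.2.2 hw0 hw1
  exact hC.inner s.1.1 s.1.2 _ _ h1.1 h1.2 h2.1 h2.2

private theorem light_dr_ne (hα : 0 < α) (s : St S) {x y : ℝ} (hx : 0 < x) :
    dr α β s x y ≠ 0 := by
  intro h
  have h1 : α * sg s.2.1 x = 0 := congrArg Complex.re h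
  rcases mul_eq_zero.1 h1 with h2 | h2
  · exact hα.ne' h2
  · obtain ⟨c, e, e'⟩ := s
    cases e
    · simp only [sg, Bool.false_eq_true, if_false] at h2
      linarith
    · simp only [sg, if_true] at h2
      linarith

private theorem light_seg (hC : CellData P v α β S) (s : St S) {x y u w τ : ℝ} (hx : 0 < x)
    (hy : 0 < y) (hu : 0 ≤ u) (hw : 0 ≤ w) (hτ : 0 < τ) (h1 : u + τ * x ≤ 1)
    (h2 : w + τ * y ≤ 1) :
    openSegment ℝ (pt α β s u w) (pt α β s u w + τ * dr α β s x y) ⊆ interior P := by
  intro z hz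
  rw [light_mem_os hτ] at hz
  obtain ⟨σ, hσ0, hσ1, rfl⟩ := hz
  rw [← light_pt]
  have h3 : σ * x < τ * x := mul_lt_mul_of_pos_right hσ1 hx
  have h4 : σ * y < τ * y := mul_lt_mul_of_pos_right hσ1 hy
  have h5 : 0 < σ * x := mul_pos hσ0 hx
  have h6 : 0 < σ * y := mul_pos hσ0 hy
  exact light_inner hC s (by linarith) (by linarith) (by linarith) (by linarith)

private theorem light_refl_mul (u d : ℂ) (c : ℝ) : refl u (c * d) = c * refl u d := by
  unfold refl
  rw [map_mul, Complex.conj_ofReal]
  ring

private theorem light_refl_re {u d : ℂ} (hu : u ≠ 0) (h : u.re = 0) :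
    refl u d = ⟨-d.re, d.im⟩ := by
  have h1 : (starRingEnd ℂ) u = -u := by
    apply Complex.ext
    · simp [h]
    · simp
  unfold refl
  rw [h1, div_neg, div_self hu]
  apply Complex.ext
  · simp
  · simp

private theorem light_refl_im {u d : ℂ} (hu : u ≠ 0) (h : u.im = 0) :
    refl u d = ⟨d.re, -d.im⟩ := by
  have h1 : (starRingEnd ℂ) u = u := by
    apply Complex.ext
    · simp
    · simp [h]
  unfold refl
  rw [h1, div_self hu]
  apply Complex.ext
  · simp
  · simp

private theorem light_side_ne (hC : CellData P v α β S) (i : ZMod n) : v (i + 1) - v i ≠ 0 := by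
  intro h
  have h1 := hC.inj (sub_eq_zero.1 h)
  have h2 : (1 : ZMod n) = 0 := by
    have h3 : i + 1 = i + 0 := by rw [h1, add_zero]
    exact add_left_cancel h3
  haveI : Fact (1 < n) := ⟨by have := hC.three_le; omega⟩
  exact one_ne_zero h2

private theorem light_core (hC : CellData P v α β S) (hα : 0 < α) (q : ℂ) (s s' : St S)
    {x y u w u' w' : ℝ} (hx : 0 < x) (hy : 0 < y) (hu' : 0 ≤ u') (hw' : 0 ≤ w')
    (hR : RayS P v q (pt α β s u w) (dr α β s x y))
    (hz : pt α β s' u' w' = pt α β s u w)
    (hcase : (pt α β s u w ∈ interior P ∧ dr α β s' x y = dr α β s x y) ∨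
      ∃ i, pt α β s u w ∈ openSegment ℝ (v i) (v (i + 1)) ∧
        refl (v (i + 1) - v i) (dr α β s x y) = dr α β s' x y) :
    Fly P v q α β s' x y u' w' := by
  intro τ hτ h1 h2
  have hseg := light_seg hC s' hx hy hu' hw' hτ h1 h2
  rw [light_pt]
  rcases hcase with ⟨hin, hdr⟩ | ⟨i, hi, hdr⟩
  · rw [hdr] at hseg ⊢
    rw [hz] at hseg ⊢
    exact ray_extend q _ _ τ (light_dr_ne hα s hx) hτ hR hin hseg
  · obtain ⟨c, hc, hRay⟩ := hR
    have hc' : (c : ℂ) ≠ 0 := by exact_mod_cast hc.ne'
    have hre : refl (v (i + 1) - v i) ((c : ℂ) * dr α β s x y) = c * dr α β s' x y := by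
      rw [light_refl_mul, hdr]
    refine ⟨c, hc, ?_⟩
    rw [hz] at hseg ⊢
    rw [← hre]
    refine Ray.bounce _ _ _ i (τ / c) hRay hi (by positivity) ?_ hseg
    rw [hre]
    push_cast
    field_simp

/-- Proof. `Ray.start`; the points in between are interior (`CellData.inner`);
`pt s (u + τ x) (w + τ y) = pt s u w + τ * dr s x y`. -/
theorem fly_start (hC : CellData P v α β S) (hα : 0 < α) (hβ : 0 < β) (s : St S)
    (x y u w : ℝ) (hx : 0 < x) (hy : 0 < y) (hu0 : 0 < u) (hu1 : u < 1) (hw0 : 0 < w) (hw1 : w < 1) :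
    Fly P v (pt α β s u w) α β s x y u w := by
  intro τ hτ h1 h2
  have hseg := light_seg hC s hx hy hu0.le hw0.le hτ h1 h2
  refine ⟨τ, hτ, ?_⟩
  rw [light_pt]
  have e : (τ : ℂ) * dr α β s x y = pt α β s u w + τ * dr α β s x y - pt α β s u w := by ring
  have h := Ray.start (P := P) (v := v) (q := pt α β s u w)
    (pt α β s u w + τ * dr α β s x y) ?_ hseg
  · rw [← e] at h
    exact h
  · intro h0
    have h3 : (τ : ℂ) * dr α β s x y = 0 := by
      rw [e, h0, sub_self]
    have hτ' : (τ : ℂ) ≠ 0 := by exact_mod_cast hτ.ne'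
    exact (mul_ne_zero hτ' (light_dr_ne hα s hx)) h3

/-- Proof. Four cases. `s = (c, true, e)`: the point is `z = (α (c.1+1), β (c.2 + w'))`, `w' = lc e w`
in `(0,1)`. If the right neighbour is in `S`, then `z` is an interior point (`passR`), point and
direction are the same in the new state `stepR s`: `ray_extend`. If not, the new state is
`(c, false, e)`, the point is the same, and `dr (stepR s) x y` is `dr s x y` with the real part negated,
which is `refl (v (i+1) - v i) (dr s x y)` for the vertical side `i` of `wallR` (`refl u d = -conj d` if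
`u.re = 0`, `u ≠ 0`; `v i ≠ v (i+1)` by `inj` and `three_le`): `Ray.bounce` from `Ray z (c * d)` with
`t = τ / c`. The points in between are in the open cell (`inner`). `s = (c, false, e)`: the same with
`c - (1,0)` and `passR` for that cell, `wallL`. -/
theorem cross_right (hC : CellData P v α β S) (hα : 0 < α) (hβ : 0 < β) (q : ℂ) (s : St S)
    (x y w : ℝ) (hx : 0 < x) (hy : 0 < y) (hw0 : 0 < w) (hw1 : w < 1)
    (h : RayS P v q (pt α β s 1 w) (dr α β s x y)) :
    Fly P v q α β (stepR s) x y 0 w := by
  obtain ⟨⟨c, hcS⟩, e1, e2⟩ := s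
  have hw' := light_lc_mem e2 hw0 hw1
  cases e1
  · -- leaving to the left
    by_cases hN : (c.1 - 1, c.2) ∈ S
    · have hst : stepR ((⟨c, hcS⟩, false, e2) : St S) = (⟨(c.1 - 1, c.2), hN⟩, false, e2) := by
        simp only [stepR, dif_pos hN]
      rw [hst]
      refine light_core hC hα q _ _ hx hy le_rfl hw0.le h ?_ (Or.inl ⟨?_, ?_⟩)
      · apply Complex.ext
        · simp only [pt, lc, Bool.false_eq_true, if_false]
          push_cast
          ring
        · rfl
      · have h1 := hC.passR (c.1 - 1, c.2) hN (by simpa using hcS) _ hw'.1 hw'.2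
        have h2 : pt α β ((⟨c, hcS⟩, false, e2) : St S) 1 w =
            (⟨α * (((c.1 - 1, c.2) : ℤ × ℤ).1 + 1), β * (((c.1 - 1, c.2) : ℤ × ℤ).2 + lc e2 w)⟩ : ℂ) := by
          apply Complex.ext
          · simp only [pt, lc, Bool.false_eq_true, if_false]
            push_cast
            ring
          · rfl
        rw [h2]
        exact h1
      · rfl
    · have hst : stepR ((⟨c, hcS⟩, false, e2) : St S) = (⟨c, hcS⟩, true, e2) := by
        simp only [stepR, dif_neg hN]
      rw [hst]
      obtain ⟨i, hi, hre⟩ := hC.wallL c hcS hN _ hw'.1 hw'.2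
      refine light_core hC hα q _ _ hx hy le_rfl hw0.le h ?_ (Or.inr ⟨i, ?_, ?_⟩)
      · apply Complex.ext
        · simp only [pt, lc, Bool.false_eq_true, if_false, if_true]
          ring
        · rfl
      · have h2 : pt α β ((⟨c, hcS⟩, false, e2) : St S) 1 w =
            (⟨α * c.1, β * (c.2 + lc e2 w)⟩ : ℂ) := by
          apply Complex.ext
          · simp only [pt, lc, Bool.false_eq_true, if_false]
            ring
          · rfl
        rw [h2]
        exact hi
      · rw [light_refl_re (light_side_ne hC i) (by simp [hre])]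
        apply Complex.ext
        · simp only [dr, sg, Bool.false_eq_true, if_false, if_true]
          ring
        · rfl
  · by_cases hN : (c.1 + 1, c.2) ∈ S
    · have hst : stepR ((⟨c, hcS⟩, true, e2) : St S) = (⟨(c.1 + 1, c.2), hN⟩, true, e2) := by
        simp only [stepR, dif_pos hN]
      rw [hst]
      refine light_core hC hα q _ _ hx hy le_rfl hw0.le h ?_ (Or.inl ⟨?_, ?_⟩)
      · apply Complex.ext
        · simp only [pt, lc, if_true]
          push_cast
          ring
        · rfl
      · have h1 := hC.passR c hcS hN _ hw'.1 hw'.2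
        have h2 : pt α β ((⟨c, hcS⟩, true, e2) : St S) 1 w =
            (⟨α * (c.1 + 1), β * (c.2 + lc e2 w)⟩ : ℂ) := by
          apply Complex.ext
          · simp only [pt, lc, if_true]
          · rfl
        rw [h2]
        exact h1
      · rfl
    · have hst : stepR ((⟨c, hcS⟩, true, e2) : St S) = (⟨c, hcS⟩, false, e2) := by
        simp only [stepR, dif_neg hN]
      rw [hst]
      obtain ⟨i, hi, hre⟩ := hC.wallR c hcS hN _ hw'.1 hw'.2
      refine light_core hC hα q _ _ hx hy le_rfl hw0.le h ?_ (Or.inr ⟨i, ?_, ?_⟩)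
      · apply Complex.ext
        · simp only [pt, lc, Bool.false_eq_true, if_false, if_true]
          ring
        · rfl
      · have h2 : pt α β ((⟨c, hcS⟩, true, e2) : St S) 1 w =
            (⟨α * (c.1 + 1), β * (c.2 + lc e2 w)⟩ : ℂ) := by
          apply Complex.ext
          · simp only [pt, lc, if_true]
          · rfl
        rw [h2]
        exact hi
      · rw [light_refl_re (light_side_ne hC i) (by simp [hre])]
        apply Complex.ext
        · simp only [dr, sg, Bool.false_eq_true, if_false, if_true]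
          ring
        · rfl

/-- The same for the upper side (`passU`, `wallU`, `wallD`; `refl u d = conj d` if `u.im = 0`,
`u ≠ 0`). -/
theorem cross_up (hC : CellData P v α β S) (hα : 0 < α) (hβ : 0 < β) (q : ℂ) (s : St S)
    (x y u : ℝ) (hx : 0 < x) (hy : 0 < y) (hu0 : 0 < u) (hu1 : u < 1)
    (h : RayS P v q (pt α β s u 1) (dr α β s x y)) :
    Fly P v q α β (stepU s) x y u 0 := by
  obtain ⟨⟨c, hcS⟩, e2, e1⟩ := s
  have hu' := light_lc_mem e2 hu0 hu1
  cases e1
  · by_cases hN : (c.1, c.2 - 1) ∈ S
    · have hst : stepU ((⟨c, hcS⟩, e2, false) : St S) = (⟨(c.1, c.2 - 1), hN⟩, e2, false) := by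
        simp only [stepU, dif_pos hN]
      rw [hst]
      refine light_core hC hα q _ _ hx hy hu0.le le_rfl h ?_ (Or.inl ⟨?_, ?_⟩)
      · apply Complex.ext
        · rfl
        · simp only [pt, lc, Bool.false_eq_true, if_false]
          push_cast
          ring
      · have h1 := hC.passU (c.1, c.2 - 1) hN (by simpa using hcS) _ hu'.1 hu'.2
        have h2 : pt α β ((⟨c, hcS⟩, e2, false) : St S) u 1 =
            (⟨α * (((c.1, c.2 - 1) : ℤ × ℤ).1 + lc e2 u), β * (((c.1, c.2 - 1) : ℤ × ℤ).2 + 1)⟩ : ℂ) := by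
          apply Complex.ext
          · rfl
          · simp only [pt, lc, Bool.false_eq_true, if_false]
            push_cast
            ring
        rw [h2]
        exact h1
      · rfl
    · have hst : stepU ((⟨c, hcS⟩, e2, false) : St S) = (⟨c, hcS⟩, e2, true) := by
        simp only [stepU, dif_neg hN]
      rw [hst]
      obtain ⟨i, hi, hre⟩ := hC.wallD c hcS hN _ hu'.1 hu'.2
      refine light_core hC hα q _ _ hx hy hu0.le le_rfl h ?_ (Or.inr ⟨i, ?_, ?_⟩)
      · apply Complex.ext
        · rfl
        · simp only [pt, lc, Bool.false_eq_true, if_false, if_true]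
          ring
      · have h2 : pt α β ((⟨c, hcS⟩, e2, false) : St S) u 1 =
            (⟨α * (c.1 + lc e2 u), β * c.2⟩ : ℂ) := by
          apply Complex.ext
          · rfl
          · simp only [pt, lc, Bool.false_eq_true, if_false]
            ring
        rw [h2]
        exact hi
      · rw [light_refl_im (light_side_ne hC i) (by simp [hre])]
        apply Complex.ext
        · rfl
        · simp only [dr, sg, Bool.false_eq_true, if_false, if_true]
          ring
  · by_cases hN : (c.1, c.2 + 1) ∈ S
    · have hst : stepU ((⟨c, hcS⟩, e2, true) : St S) = (⟨(c.1, c.2 + 1), hN⟩, e2, true) := by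
        simp only [stepU, dif_pos hN]
      rw [hst]
      refine light_core hC hα q _ _ hx hy hu0.le le_rfl h ?_ (Or.inl ⟨?_, ?_⟩)
      · apply Complex.ext
        · rfl
        · simp only [pt, lc, if_true]
          push_cast
          ring
      · have h1 := hC.passU c hcS hN _ hu'.1 hu'.2
        have h2 : pt α β ((⟨c, hcS⟩, e2, true) : St S) u 1 =
            (⟨α * (c.1 + lc e2 u), β * (c.2 + 1)⟩ : ℂ) := by
          apply Complex.ext
          · rfl
          · simp only [pt, lc, if_true]
        rw [h2]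
        exact h1
      · rfl
    · have hst : stepU ((⟨c, hcS⟩, e2, true) : St S) = (⟨c, hcS⟩, e2, false) := by
        simp only [stepU, dif_neg hN]
      rw [hst]
      obtain ⟨i, hi, hre⟩ := hC.wallU c hcS hN _ hu'.1 hu'.2
      refine light_core hC hα q _ _ hx hy hu0.le le_rfl h ?_ (Or.inr ⟨i, ?_, ?_⟩)
      · apply Complex.ext
        · rfl
        · simp only [pt, lc, Bool.false_eq_true, if_false, if_true]
          ring
      · have h2 : pt α β ((⟨c, hcS⟩, e2, true) : St S) u 1 =
            (⟨α * (c.1 + lc e2 u), β * (c.2 + 1)⟩ : ℂ) := by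
          apply Complex.ext
          · rfl
          · simp only [pt, lc, if_true]
        rw [h2]
        exact hi
      · rw [light_refl_im (light_side_ne hC i) (by simp [hre])]
        apply Complex.ext
        · rfl
        · simp only [dr, sg, Bool.false_eq_true, if_false, if_true]
          ring

end Pool.Agent.Lib.H42I
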