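import Pool.Agent.Lib.H42I.GDefs
import Pool.Agent.Lib.H42I.Light

/-! # Chunk GLight (S/M): crossing a side of a cell, flying in a cell

The same statements as in `Light.lean` (proved by helper76 for cells of equal size), for a general grid and
local coordinates measured in lengths: copy the proofs; `ray_extend` is in `Light.lean`. -/

namespace Pool.Agent.Lib.H42I

variable {n : ℕ} {P : Set ℂ} {v : ZMod n → ℂ} {X Y : ℤ → ℝ} {S : Set (ℤ × ℤ)}

private theorem glight_mem_os {z d w : ℂ} {t : ℝ} (ht : 0 < t) :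
    w ∈ openSegment ℝ z (z + t * d) ↔ ∃ s : ℝ, 0 < s ∧ s < t ∧ w = z + s * d := by
  constructor
  · rintro ⟨a, b, ha, hb, hab, rfl⟩
    refine ⟨b * t, by positivity, ?_, ?_⟩
    · nlinarith
    · have ha' : a = 1 - b := by linarith
      subst ha'
      simp only [Complex.real_smul]
      push_cast
      ring
  · rintro ⟨s, hs0, hst, rfl⟩
    refine ⟨1 - s / t, s / t, ?_, by positivity, by ring, ?_⟩
    · rw [sub_pos, div_lt_one ht]
      exact hst
    · have ht' : (t : ℂ) ≠ 0 := by exact_mod_cast ht.ne'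
      simp only [Complex.real_smul]
      push_cast
      field_simp
      ring

private theorem glight_gc (X : ℤ → ℝ) (k : ℤ) (e : Bool) (u t : ℝ) :
    gc X k e (u + t) = gc X k e u + sg e t := by
  cases e <;> simp [gc, sg] <;> ring

private theorem glight_sg (e : Bool) (t x : ℝ) : sg e (t * x) = t * sg e x := by
  cases e <;> simp [sg]

private theorem glight_gc_mem (X : ℤ → ℝ) (k : ℤ) (e : Bool) {u : ℝ} (h0 : 0 < u)
    (h1 : u < X (k + 1) - X k) : X k < gc X k e u ∧ gc X k e u < X (k + 1) := by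
  cases e
  · simp only [gc, Bool.false_eq_true, if_false]
    constructor <;> linarith
  · simp only [gc, if_true]
    constructor <;> linarith

private theorem glight_pt (X Y : ℤ → ℝ) {S : Set (ℤ × ℤ)} (s : St S) (u w x y t : ℝ) :
    gpt X Y s (u + t * x) (w + t * y) = gpt X Y s u w + t * gdr s x y := by
  unfold gpt gdr
  apply Complex.ext
  · simp only [glight_gc, glight_sg, Complex.add_re, Complex.mul_re, Complex.ofReal_re,
      Complex.ofReal_im, zero_mul, sub_zero]
  · simp only [glight_gc, glight_sg, Complex.add_im, Complex.mul_im, Complex.ofReal_re,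
      Complex.ofReal_im, zero_mul, add_zero]

private theorem glight_inner (hC : GData P v X Y S) (s : St S) {u w : ℝ} (hu0 : 0 < u)
    (hu1 : u < wd X s) (hw0 : 0 < w) (hw1 : w < hg Y s) : gpt X Y s u w ∈ interior P := by
  have h1 := glight_gc_mem X s.1.1.1 s.2.1 hu0 hu1
  have h2 := glight_gc_mem Y s.1.1.2 s.2.2 hw0 hw1
  exact hC.inner s.1.1 s.1.2 _ _ h1.1 h1.2 h2.1 h2.2

private theorem glight_dr_ne (s : St S) {x y : ℝ} (hx : 0 < x) : gdr s x y ≠ 0 := by
  intro h
  have h2 : sg s.2.1 x = 0 := congrArg Complex.re h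
  obtain ⟨c, e, e'⟩ := s
  cases e
  · simp only [sg, Bool.false_eq_true, if_false] at h2
    linarith
  · simp only [sg, if_true] at h2
    linarith

private theorem glight_seg (hC : GData P v X Y S) (s : St S) {x y u w τ : ℝ} (hx : 0 < x)
    (hy : 0 < y) (hu : 0 ≤ u) (hw : 0 ≤ w) (hτ : 0 < τ) (h1 : u + τ * x ≤ wd X s)
    (h2 : w + τ * y ≤ hg Y s) :
    openSegment ℝ (gpt X Y s u w) (gpt X Y s u w + τ * gdr s x y) ⊆ interior P := by
  intro z hz
  rw [glight_mem_os hτ] at hz
  obtain ⟨σ, hσ0, hσ1, rfl⟩ := hz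
  rw [← glight_pt]
  have h3 : σ * x < τ * x := mul_lt_mul_of_pos_right hσ1 hx
  have h4 : σ * y < τ * y := mul_lt_mul_of_pos_right hσ1 hy
  have h5 : 0 < σ * x := mul_pos hσ0 hx
  have h6 : 0 < σ * y := mul_pos hσ0 hy
  exact glight_inner hC s (by linarith) (by linarith) (by linarith) (by linarith)

private theorem glight_refl_mul (u d : ℂ) (c : ℝ) : refl u (c * d) = c * refl u d := by
  unfold refl
  rw [map_mul, Complex.conj_ofReal]
  ring

private theorem glight_refl_re {u d : ℂ} (hu : u ≠ 0) (h : u.re = 0) :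
    refl u d = ⟨-d.re, d.im⟩ := by
  have h1 : (starRingEnd ℂ) u = -u := by
    apply Complex.ext
    · simp [h]
    · simp
  unfold refl
  rw [h1, div_neg, div_self hu]
  apply Complex.ext
  · simp
  · simp

private theorem glight_refl_im {u d : ℂ} (hu : u ≠ 0) (h : u.im = 0) :
    refl u d = ⟨d.re, -d.im⟩ := by
  have h1 : (starRingEnd ℂ) u = u := by
    apply Complex.ext
    · simp
    · simp [h]
  unfold refl
  rw [h1, div_self hu]
  apply Complex.ext
  · simp
  · simp

private theorem glight_side_ne (hC : GData P v X Y S) (i : ZMod n) : v (i + 1) - v i ≠ 0 := by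
  intro h
  have h1 := hC.inj (sub_eq_zero.1 h)
  have h2 : (1 : ZMod n) = 0 := by
    have h3 : i + 1 = i + 0 := by rw [h1, add_zero]
    exact add_left_cancel h3
  have : Fact (1 < n) := ⟨by have := hC.three_le; omega⟩
  exact one_ne_zero h2

private theorem glight_core (hC : GData P v X Y S) (q : ℂ) (s s' : St S)
    {x y u w u' w' : ℝ} (hx : 0 < x) (hy : 0 < y) (hu' : 0 ≤ u') (hw' : 0 ≤ w')
    (hR : RayS P v q (gpt X Y s u w) (gdr s x y))
    (hz : gpt X Y s' u' w' = gpt X Y s u w)
    (hcase : (gpt X Y s u w ∈ interior P ∧ gdr s' x y = gdr s x y) ∨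
      ∃ i, gpt X Y s u w ∈ openSegment ℝ (v i) (v (i + 1)) ∧
        refl (v (i + 1) - v i) (gdr s x y) = gdr s' x y) :
    GFly P v q X Y s' x y u' w' := by
  intro τ hτ h1 h2
  have hseg := glight_seg hC s' hx hy hu' hw' hτ h1 h2
  rw [glight_pt]
  rcases hcase with ⟨hin, hdr⟩ | ⟨i, hi, hdr⟩
  · rw [hdr] at hseg ⊢
    rw [hz] at hseg ⊢
    exact ray_extend q _ _ τ (glight_dr_ne s hx) hτ hR hin hseg
  · obtain ⟨c, hc, hRay⟩ := hR
    have hc' : (c : ℂ) ≠ 0 := by exact_mod_cast hc.ne'
    have hre : refl (v (i + 1) - v i) ((c : ℂ) * gdr s x y) = c * gdr s' x y := by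
      rw [glight_refl_mul, hdr]
    refine ⟨c, hc, ?_⟩
    rw [hz] at hseg ⊢
    rw [← hre]
    refine Ray.bounce _ _ _ i (τ / c) hRay hi (by positivity) ?_ hseg
    rw [hre]
    push_cast
    field_simp

/-- Proof. `Ray.start`; the points in between are interior (`GData.inner`);
`gpt s (u + τ x) (w + τ y) = gpt s u w + τ * gdr s x y`. -/
theorem gfly_start (hC : GData P v X Y S) (s : St S)
    (x y u w : ℝ) (hx : 0 < x) (hy : 0 < y) (hu0 : 0 < u) (hu1 : u < wd X s) (hw0 : 0 < w)
    (hw1 : w < hg Y s) :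
    GFly P v (gpt X Y s u w) X Y s x y u w := by
  intro τ hτ h1 h2
  have hseg := glight_seg hC s hx hy hu0.le hw0.le hτ h1 h2
  refine ⟨τ, hτ, ?_⟩
  rw [glight_pt]
  have e : (τ : ℂ) * gdr s x y = gpt X Y s u w + τ * gdr s x y - gpt X Y s u w := by ring
  have h := Ray.start (P := P) (v := v) (q := gpt X Y s u w)
    (gpt X Y s u w + τ * gdr s x y) ?_ hseg
  · rw [← e] at h
    exact h
  · intro h0
    have h3 : (τ : ℂ) * gdr s x y = 0 := by
      rw [e, h0, sub_self]
    have hτ' : (τ : ℂ) ≠ 0 := by exact_mod_cast hτ.ne'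
    exact (mul_ne_zero hτ' (glight_dr_ne s hx)) h3

/-- Proof. Four cases. `s = (c, true, e)`: the point is `z = (X (c.1+1), y')`, `y' = gc Y c.2 e w`
strictly between `Y c.2` and `Y (c.2+1)`. If the right neighbour is in `S`, then `z` is an interior
point (`passR`), point and direction are the same in the new state `stepR s`: `ray_extend`. If not, the
new state is `(c, false, e)`, the point is the same, and `gdr (stepR s) x y` is `gdr s x y` with the
real part negated, which is `refl (v (i+1) - v i) (gdr s x y)` for the vertical side `i` of `wallR`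
(`refl u d = -conj d` if `u.re = 0`, `u ≠ 0`; `v i ≠ v (i+1)` by `inj` and `three_le`): `Ray.bounce`
from `Ray z (c * d)` with `t = τ / c`. The points in between are in the open cell (`inner`).
`s = (c, false, e)`: the same with `c - (1,0)` and `passR` for that cell, `wallL`. -/
theorem gcross_right (hC : GData P v X Y S) (q : ℂ) (s : St S)
    (x y w : ℝ) (hx : 0 < x) (hy : 0 < y) (hw0 : 0 < w) (hw1 : w < hg Y s)
    (h : RayS P v q (gpt X Y s (wd X s) w) (gdr s x y)) :
    GFly P v q X Y (stepR s) x y 0 w := by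
  obtain ⟨⟨c, hcS⟩, e1, e2⟩ := s
  have hw' := glight_gc_mem Y c.2 e2 hw0 hw1
  cases e1
  · -- leaving to the left
    have h2 : gpt X Y ((⟨c, hcS⟩, false, e2) : St S)
        (wd X ((⟨c, hcS⟩, false, e2) : St S)) w = (⟨X c.1, gc Y c.2 e2 w⟩ : ℂ) := by
      apply Complex.ext
      · simp only [gpt, gc, wd, Bool.false_eq_true, if_false]
        ring
      · rfl
    by_cases hN : (c.1 - 1, c.2) ∈ S
    · have hst : stepR ((⟨c, hcS⟩, false, e2) : St S) = (⟨(c.1 - 1, c.2), hN⟩, false, e2) := by
        simp only [stepR, dif_pos hN]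
      rw [hst]
      refine glight_core hC q _ _ hx hy le_rfl hw0.le h ?_ (Or.inl ⟨?_, ?_⟩)
      · rw [h2]
        apply Complex.ext
        · simp only [gpt, gc, Bool.false_eq_true, if_false, sub_add_cancel, sub_zero]
        · rfl
      · have h1 := hC.passR (c.1 - 1, c.2) hN (by simpa using hcS) _ hw'.1 hw'.2
        rw [h2]
        simpa only [sub_add_cancel] using h1
      · rfl
    · have hst : stepR ((⟨c, hcS⟩, false, e2) : St S) = (⟨c, hcS⟩, true, e2) := by
        simp only [stepR, dif_neg hN]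
      rw [hst]
      obtain ⟨i, hi, hre⟩ := hC.wallL c hcS hN _ hw'.1 hw'.2
      refine glight_core hC q _ _ hx hy le_rfl hw0.le h ?_ (Or.inr ⟨i, ?_, ?_⟩)
      · rw [h2]
        apply Complex.ext
        · simp only [gpt, gc, if_true, add_zero]
        · rfl
      · rw [h2]
        exact hi
      · rw [glight_refl_re (glight_side_ne hC i) (by simp [hre])]
        apply Complex.ext
        · simp only [gdr, sg, Bool.false_eq_true, if_false, if_true, neg_neg]
        · rfl
  · have h2 : gpt X Y ((⟨c, hcS⟩, true, e2) : St S)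
        (wd X ((⟨c, hcS⟩, true, e2) : St S)) w = (⟨X (c.1 + 1), gc Y c.2 e2 w⟩ : ℂ) := by
      apply Complex.ext
      · simp only [gpt, gc, wd, if_true]
        ring
      · rfl
    by_cases hN : (c.1 + 1, c.2) ∈ S
    · have hst : stepR ((⟨c, hcS⟩, true, e2) : St S) = (⟨(c.1 + 1, c.2), hN⟩, true, e2) := by
        simp only [stepR, dif_pos hN]
      rw [hst]
      refine glight_core hC q _ _ hx hy le_rfl hw0.le h ?_ (Or.inl ⟨?_, ?_⟩)
      · rw [h2]
        apply Complex.ext
        · simp only [gpt, gc, if_true, add_zero]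
        · rfl
      · have h1 := hC.passR c hcS hN _ hw'.1 hw'.2
        rw [h2]
        exact h1
      · rfl
    · have hst : stepR ((⟨c, hcS⟩, true, e2) : St S) = (⟨c, hcS⟩, false, e2) := by
        simp only [stepR, dif_neg hN]
      rw [hst]
      obtain ⟨i, hi, hre⟩ := hC.wallR c hcS hN _ hw'.1 hw'.2
      refine glight_core hC q _ _ hx hy le_rfl hw0.le h ?_ (Or.inr ⟨i, ?_, ?_⟩)
      · rw [h2]
        apply Complex.ext
        · simp only [gpt, gc, Bool.false_eq_true, if_false, sub_zero]
        · rfl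
      · rw [h2]
        exact hi
      · rw [glight_refl_re (glight_side_ne hC i) (by simp [hre])]
        apply Complex.ext
        · simp only [gdr, sg, Bool.false_eq_true, if_false, if_true]
        · rfl

/-- The same for the upper side (`passU`, `wallU`, `wallD`; `refl u d = conj d` if `u.im = 0`,
`u ≠ 0`). -/
theorem gcross_up (hC : GData P v X Y S) (q : ℂ) (s : St S)
    (x y u : ℝ) (hx : 0 < x) (hy : 0 < y) (hu0 : 0 < u) (hu1 : u < wd X s)
    (h : RayS P v q (gpt X Y s u (hg Y s)) (gdr s x y)) :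
    GFly P v q X Y (stepU s) x y u 0 := by
  obtain ⟨⟨c, hcS⟩, e2, e1⟩ := s
  have hu' := glight_gc_mem X c.1 e2 hu0 hu1
  cases e1
  · have h2 : gpt X Y ((⟨c, hcS⟩, e2, false) : St S) u
        (hg Y ((⟨c, hcS⟩, e2, false) : St S)) = (⟨gc X c.1 e2 u, Y c.2⟩ : ℂ) := by
      apply Complex.ext
      · rfl
      · simp only [gpt, gc, hg, Bool.false_eq_true, if_false]
        ring
    by_cases hN : (c.1, c.2 - 1) ∈ S
    · have hst : stepU ((⟨c, hcS⟩, e2, false) : St S) = (⟨(c.1, c.2 - 1), hN⟩, e2, false) := by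
        simp only [stepU, dif_pos hN]
      rw [hst]
      refine glight_core hC q _ _ hx hy hu0.le le_rfl h ?_ (Or.inl ⟨?_, ?_⟩)
      · rw [h2]
        apply Complex.ext
        · rfl
        · simp only [gpt, gc, Bool.false_eq_true, if_false, sub_add_cancel, sub_zero]
      · have h1 := hC.passU (c.1, c.2 - 1) hN (by simpa using hcS) _ hu'.1 hu'.2
        rw [h2]
        simpa only [sub_add_cancel] using h1
      · rfl
    · have hst : stepU ((⟨c, hcS⟩, e2, false) : St S) = (⟨c, hcS⟩, e2, true) := by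
        simp only [stepU, dif_neg hN]
      rw [hst]
      obtain ⟨i, hi, hre⟩ := hC.wallD c hcS hN _ hu'.1 hu'.2
      refine glight_core hC q _ _ hx hy hu0.le le_rfl h ?_ (Or.inr ⟨i, ?_, ?_⟩)
      · rw [h2]
        apply Complex.ext
        · rfl
        · simp only [gpt, gc, if_true, add_zero]
      · rw [h2]
        exact hi
      · rw [glight_refl_im (glight_side_ne hC i) (by simp [hre])]
        apply Complex.ext
        · rfl
        · simp only [gdr, sg, Bool.false_eq_true, if_false, if_true, neg_neg]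
  · have h2 : gpt X Y ((⟨c, hcS⟩, e2, true) : St S) u
        (hg Y ((⟨c, hcS⟩, e2, true) : St S)) = (⟨gc X c.1 e2 u, Y (c.2 + 1)⟩ : ℂ) := by
      apply Complex.ext
      · rfl
      · simp only [gpt, gc, hg, if_true]
        ring
    by_cases hN : (c.1, c.2 + 1) ∈ S
    · have hst : stepU ((⟨c, hcS⟩, e2, true) : St S) = (⟨(c.1, c.2 + 1), hN⟩, e2, true) := by
        simp only [stepU, dif_pos hN]
      rw [hst]
      refine glight_core hC q _ _ hx hy hu0.le le_rfl h ?_ (Or.inl ⟨?_, ?_⟩)
      · rw [h2]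
        apply Complex.ext
        · rfl
        · simp only [gpt, gc, if_true, add_zero]
      · have h1 := hC.passU c hcS hN _ hu'.1 hu'.2
        rw [h2]
        exact h1
      · rfl
    · have hst : stepU ((⟨c, hcS⟩, e2, true) : St S) = (⟨c, hcS⟩, e2, false) := by
        simp only [stepU, dif_neg hN]
      rw [hst]
      obtain ⟨i, hi, hre⟩ := hC.wallU c hcS hN _ hu'.1 hu'.2
      refine glight_core hC q _ _ hx hy hu0.le le_rfl h ?_ (Or.inr ⟨i, ?_, ?_⟩)
      · rw [h2]
        apply Complex.ext
        · rfl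
        · simp only [gpt, gc, Bool.false_eq_true, if_false, sub_zero]
      · rw [h2]
        exact hi
      · rw [glight_refl_im (glight_side_ne hC i) (by simp [hre])]
        apply Complex.ext
        · rfl
        · simp only [gdr, sg, Bool.false_eq_true, if_false, if_true]

end Pool.Agent.Lib.H42I
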