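import Pool.Agent.Lib.H42I.Dual

/-! # Chunk TSwap (M): the two forms of the template set -/

namespace Pool.Agent.Lib.H42I

private theorem W_congr27 {G : Type*} [Group G] (R U : G) (k k' : ℕ → ℤ) :
    ∀ m : ℕ, (∀ j < m, cj R U (k j) = cj R U (k' j)) → W R U k m = W R U k' m
  | 0, _ => rfl
  | m + 1, h => by
    unfold W
    rw [W_congr27 R U k k' m (fun j hj => h j (by omega)), h m (by omega)]

private theorem zpow_add_mul27 {G : Type*} [Group G] (U : G) (L : ℕ) (hU : U ^ L = 1) (a K : ℤ) :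
    U ^ (a + (L : ℤ) * K) = U ^ a := by
  rw [zpow_add, zpow_mul, zpow_natCast, hU, one_zpow, mul_one]

private theorem cj_period27 {G : Type*} [Group G] (R U : G) (L : ℕ) (hU : U ^ L = 1) (a K : ℤ) :
    cj R U (a + (L : ℤ) * K) = cj R U a := by
  unfold cj
  rw [show -(a + (L : ℤ) * K) = -a + (L : ℤ) * (-K) by ring, zpow_add_mul27 U L hU,
    zpow_add_mul27 U L hU]

/-- Proof. Let `g = U^n * W R U k m` with slope `D`, `k j = ⌊p.2 + D (j+1-p.1)⌋`. Replace `D` by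
`D₁ = D + v * L * N`, `N` a large natural number: the heights `h j = p.2 + D (j+1-p.1)` change by
`v L N (j+1-p.1)`, an integral multiple of `L` (`v * p.1` is an integer), so the floors change by
multiples of `L`, `cj R U` is `L`-periodic (`U^L = 1`) and no height becomes an integer. So the word
`W` is the same for `D₁`. Let `h' j` be the new heights. Choose a natural number `n₁ ≥ 1` with
`n₁ ≡ n mod L`, `h' (m-1) ≤ n₁ + 1`, precisely `⌊h' (m-1)⌋ ≤ n₁` and `(n₁ : ℝ) < h' (m-1) + D₁`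
(possible as `D₁ ≥ 2 L + 2`); `U^n = U^n₁`. Apply `dual` with `n₁`, `k' j = ⌊h' j⌋` and
`l i = ⌊p.1 + (1/D₁) (i+1-p.2)⌋`: for `j < m`, `i < n₁`: `i+1 ≤ h' j ↔ p.1 + (i+1-p.2)/D₁ ≤ j+1`,
equality excluded because `h' j` is not an integer. Ranges: `0 ≤ h' j`, `k' j ≤ k' (m-1) ≤ n₁`;
`0 ≤ x_i := p.1 + (i+1-p.2)/D₁`, `x_i < m + 1` because `n₁ < h' (m-1) + D₁ = p.2 + D₁ (m+1-p.1)`.
So `g = R^m * W U R l n₁`, which is in `Tpl U R p.swap` with slope `1/D₁`, provided no `x_i`, `i < n₁`,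
is an integer `z`: `0 ≤ p.1 < x_i` (as `p.2 < 1`) and `x_i < m+1` give `1 ≤ z ≤ m`, and then
`h' (z-1) = i+1`, excluded. -/
theorem tpl_swap {G : Type*} [Group G] (R U : G) (L v : ℕ) (hL : 1 ≤ L) (hR : R ^ L = 1)
    (hU : U ^ L = 1) (hv : 1 ≤ v) (p : ℝ × ℝ) (hp : InA p) (hp1 : ∃ z : ℤ, (v : ℝ) * p.1 = z)
    (hp2 : ∃ z : ℤ, (v : ℝ) * p.2 = z) :
    Tpl R U p ⊆ Tpl U R p.swap := by
  rintro g ⟨D, hD, m, hm, n, hgood, hg⟩
  obtain ⟨hp10, hp11, hp20, hp21⟩ := hp
  obtain ⟨z1, hz1⟩ := hp1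
  set a : ℝ := p.1 with ha
  set b : ℝ := p.2 with hb
  -- the new slope
  set D₁ : ℝ := D + v * L * 1 with hD₁
  have hvr : (1 : ℝ) ≤ v := by exact_mod_cast hv
  have hLr : (1 : ℝ) ≤ L := by exact_mod_cast hL
  have hD₁L : (L : ℝ) < D₁ := by
    rw [hD₁]
    nlinarith
  have hD₁0 : 0 < D₁ := by linarith
  set h' : ℕ → ℝ := fun j => b + D₁ * ((j + 1 : ℝ) - a) with hh'
  have hhj : ∀ j : ℕ, h' j = (b + D * ((j + 1 : ℝ) - a)) + ((L * (v * (j + 1) - z1) : ℤ) : ℝ) := by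
    intro j
    simp only [hh', hD₁]
    push_cast
    rw [← hz1]
    ring
  have hgood' : ∀ j < m, ∀ z : ℤ, h' j ≠ z := by
    intro j hj z hz
    apply hgood j hj (z - L * (v * (j + 1) - z1))
    have := hhj j
    push_cast at this ⊢
    linarith
  have hfl : ∀ j : ℕ, ⌊h' j⌋ = ⌊b + D * ((j + 1 : ℝ) - a)⌋ + (L : ℤ) * (v * (j + 1) - z1) := by
    intro j
    rw [hhj j, Int.floor_add_intCast]
  have hW : W R U (fun j => ⌊b + D * ((j + 1 : ℝ) - a)⌋) m = W R U (fun j => ⌊h' j⌋) m := by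
    apply W_congr27
    intro j _
    simp only [hfl j]
    rw [cj_period27 R U L hU]
  -- monotonicity and positivity
  have hmono : ∀ i j : ℕ, i ≤ j → h' i ≤ h' j := by
    intro i j hij
    simp only [hh']
    have : (i : ℝ) ≤ j := by exact_mod_cast hij
    nlinarith
  have hpos : ∀ j : ℕ, 0 ≤ h' j := by
    intro j
    simp only [hh']
    have : (0 : ℝ) ≤ j := by positivity
    have h2 : 0 ≤ (j + 1 : ℝ) - a := by linarith
    positivity
  -- the number n₁
  set q : ℤ := ⌊h' (m - 1)⌋ with hq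
  have hq0 : 0 ≤ q := Int.floor_nonneg.2 (hpos _)
  set r : ℤ := (n - q - 1) % (L : ℤ) with hr
  have hLz : (0 : ℤ) < L := by exact_mod_cast hL
  have hr0 : 0 ≤ r := Int.emod_nonneg _ hLz.ne'
  have hrL : r < L := Int.emod_lt_of_pos _ hLz
  obtain ⟨n₁, hn₁⟩ : ∃ n₁ : ℕ, (n₁ : ℤ) = q + 1 + r := ⟨(q + 1 + r).toNat, by
    rw [Int.toNat_of_nonneg (by omega)]⟩
  have hUn : U ^ n = U ^ (n₁ : ℤ) := by
    have h1 : n = (n₁ : ℤ) + (L : ℤ) * ((n - q - 1) / (L : ℤ)) := by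
      have := Int.emod_add_mul_ediv (n - q - 1) (L : ℤ)
      rw [hn₁]
      linarith
    rw [h1, zpow_add_mul27 U L hU]
  have hn₁r : (n₁ : ℝ) < h' (m - 1) + D₁ := by
    have h1 : (n₁ : ℤ) ≤ q + L := by omega
    have h2 : (n₁ : ℝ) ≤ q + L := by exact_mod_cast h1
    have h3 : (q : ℝ) ≤ h' (m - 1) := Int.floor_le _
    linarith
  have hhm : h' (m - 1) = b + D₁ * ((m : ℝ) - a) := by
    simp only [hh']
    have : ((m - 1 : ℕ) : ℝ) = (m : ℝ) - 1 := by
      rw [Nat.cast_sub hm]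
      simp
    rw [this]
    ring
  set x : ℕ → ℝ := fun i => a + 1 / D₁ * ((i + 1 : ℝ) - b) with hx
  have hxm : ∀ i < n₁, x i < (m : ℝ) + 1 := by
    intro i hi
    have h1 : (i : ℝ) + 1 ≤ n₁ := by exact_mod_cast hi
    have h2 : (i : ℝ) + 1 - b < D₁ * ((m : ℝ) + 1 - a) := by
      rw [hhm] at hn₁r
      nlinarith
    simp only [hx]
    have h3 : 1 / D₁ * ((i + 1 : ℝ) - b) < (m : ℝ) + 1 - a := by
      rw [one_div, inv_mul_lt_iff₀ hD₁0]
      exact h2
    linarith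
  have hxpos : ∀ i : ℕ, a < x i := by
    intro i
    simp only [hx]
    have h0 : (0 : ℝ) ≤ i := by positivity
    have h1 : 0 < (i + 1 : ℝ) - b := by linarith
    have : 0 < 1 / D₁ * ((i + 1 : ℝ) - b) := by positivity
    linarith
  have hxD : ∀ i : ℕ, D₁ * (x i - a) = (i + 1 : ℝ) - b := by
    intro i
    simp only [hx]
    field_simp
    ring
  have hdual := dual R U m n₁ (fun j => ⌊h' j⌋) (fun i => ⌊x i⌋)
    (by
      intro j hj
      refine ⟨Int.floor_nonneg.2 (hpos j), ?_⟩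
      have h1 : ⌊h' j⌋ ≤ q := Int.floor_le_floor (hmono j (m - 1) (by omega))
      show ⌊h' j⌋ ≤ (n₁ : ℤ)
      omega)
    (by
      intro i hi
      refine ⟨Int.floor_nonneg.2 (by linarith [hxpos i]), ?_⟩
      have h1 : ⌊x i⌋ < (m : ℤ) + 1 := by
        rw [Int.floor_lt]
        push_cast
        exact hxm i hi
      show ⌊x i⌋ ≤ (m : ℤ)
      omega)
    (by
      intro j hj i hi
      show (i : ℤ) + 1 ≤ ⌊h' j⌋ ↔ ⌊x i⌋ ≤ (j : ℤ)
      have h1 : ((i : ℤ) + 1 ≤ ⌊h' j⌋) ↔ (i : ℝ) + 1 ≤ h' j := by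
        rw [Int.le_floor]
        push_cast
        rfl
      have h2 : (⌊x i⌋ ≤ (j : ℤ)) ↔ x i < (j : ℝ) + 1 := by
        rw [← Int.lt_add_one_iff, Int.floor_lt]
        push_cast
        rfl
      rw [h1, h2]
      have h3 := hxD i
      constructor
      · intro h4
        have h5 : (i : ℝ) + 1 < h' j := by
          rcases h4.lt_or_eq with h6 | h6
          · exact h6
          · exfalso
            apply hgood' j hj ((i : ℤ) + 1)
            push_cast
            exact h6.symm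
        simp only [hh'] at h5
        have h7 : D₁ * (x i - a) < D₁ * ((j + 1 : ℝ) - a) := by rw [h3]; linarith
        have h8 := lt_of_mul_lt_mul_left h7 hD₁0.le
        linarith
      · intro h4
        simp only [hh']
        have h7 : D₁ * (x i - a) < D₁ * ((j + 1 : ℝ) - a) :=
          mul_lt_mul_of_pos_left (by linarith) hD₁0
        rw [h3] at h7
        linarith)
  refine ⟨1 / D₁, by positivity, n₁, by omega, (m : ℤ), ?_, ?_⟩
  · intro i hi z hz
    have hz' : x i = z := hz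
    have h1 : (0 : ℝ) < z := by linarith [hxpos i]
    have h2 : (z : ℝ) < m + 1 := by
      rw [← hz']
      exact hxm i hi
    have h3 : 0 < z := by exact_mod_cast h1
    have h4 : z < m + 1 := by exact_mod_cast h2
    obtain ⟨j, hj⟩ : ∃ j : ℕ, (j : ℤ) = z - 1 := ⟨(z - 1).toNat, by
      rw [Int.toNat_of_nonneg (by omega)]⟩
    have hjr : (j : ℝ) + 1 = z := by
      have : (j : ℤ) + 1 = z := by omega
      exact_mod_cast this
    apply hgood' j (by omega) ((i : ℤ) + 1)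
    simp only [hh']
    rw [hjr, ← hz', hxD i]
    push_cast
    ring
  · have hg' : g = U ^ n * W R U (fun j => ⌊b + D * ((j + 1 : ℝ) - a)⌋) m := hg
    rw [hg', hW, hUn, hdual]
    rfl

end Pool.Agent.Lib.H42I
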