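import Pool.Agent.Lib.H42I.TSwap

/-! # Chunk Template (S/M): every group element is the word of a line through a rational point -/

namespace Pool.Agent.Lib.H42I

theorem tpl_left_zpow {G : Type*} [Group G] (R U : G) (p : ℝ × ℝ) (z : ℤ) (g : G)
    (hg : g ∈ Tpl R U p) : U ^ z * g ∈ Tpl R U p := by
  obtain ⟨D, hD, m, hm, n, hh, rfl⟩ := hg
  refine ⟨D, hD, m, hm, z + n, hh, ?_⟩
  rw [zpow_add, mul_assoc]

/-- Proof. `L = Nat.card G` has `R^L = U^L = 1` (`pow_card_eq_one'`), `v` = product of the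
denominators. By `tpl_swap` for `p` and for `p.swap`: `Tpl R U p = Tpl U R p.swap`. `Tpl R U p` is
closed under left multiplication by `U^z`, `z : ℤ` (change `n`), and, through the equality, under
left multiplication by `R^z`. It is not empty: `D = √2`, `m = 1`, `n = 0`
(`p.2 + √2 (1 - p.1)` is irrational because `p.1 < 1` is rational). So there is `g₀` in it with
`g₀ ∈ closure {R, U}` (all elements of `Tpl` are), and for `g` in the closure,
`g = (g * g₀⁻¹) * g₀`; left multiplication by elements of the closure preserves `Tpl R U p`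
(`Subgroup.closure_induction`, with inverses: use the powers `z = -1`). -/
theorem tpl_all {G : Type*} [Group G] [Finite G] (R U : G) (p : ℝ × ℝ) (hp : InA p)
    (hr : ∃ r₁ r₂ : ℚ, p = ((r₁ : ℝ), (r₂ : ℝ))) :
    ∀ g ∈ Subgroup.closure ({R, U} : Set G), g ∈ Tpl R U p := by
  obtain ⟨r₁, r₂, hpr⟩ := hr
  have hL : 1 ≤ Nat.card G := Nat.one_le_iff_ne_zero.mpr Nat.card_pos.ne'
  have hRL : R ^ Nat.card G = 1 := pow_card_eq_one'
  have hUL : U ^ Nat.card G = 1 := pow_card_eq_one'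
  set v : ℕ := r₁.den * r₂.den with hvdef
  have hv : 1 ≤ v := Nat.one_le_iff_ne_zero.mpr (Nat.mul_ne_zero r₁.den_ne_zero r₂.den_ne_zero)
  have h1 : ∃ z : ℤ, (v : ℝ) * p.1 = z := by
    refine ⟨r₂.den * r₁.num, ?_⟩
    have h := Rat.den_mul_eq_num r₁
    have h' : ((r₁.den : ℝ)) * (r₁ : ℝ) = (r₁.num : ℝ) := by exact_mod_cast h
    rw [hpr]
    push_cast [hvdef]
    rw [← h']
    ring
  have h2 : ∃ z : ℤ, (v : ℝ) * p.2 = z := by
    refine ⟨r₁.den * r₂.num, ?_⟩
    have h := Rat.den_mul_eq_num r₂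
    have h' : ((r₂.den : ℝ)) * (r₂ : ℝ) = (r₂.num : ℝ) := by exact_mod_cast h
    rw [hpr]
    push_cast [hvdef]
    rw [← h']
    ring
  have hps : InA p.swap := ⟨hp.2.2.1, hp.2.2.2, hp.1, hp.2.1⟩
  have hsw1 : Tpl R U p ⊆ Tpl U R p.swap :=
    tpl_swap R U (Nat.card G) v hL hRL hUL hv p hp h1 h2
  have hsw2 : Tpl U R p.swap ⊆ Tpl R U p := by
    have := tpl_swap U R (Nat.card G) v hL hUL hRL hv p.swap hps h2 h1
    rwa [Prod.swap_swap] at this
  have hU : ∀ (z : ℤ) (g : G), g ∈ Tpl R U p → U ^ z * g ∈ Tpl R U p := fun z g hg =>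
    tpl_left_zpow R U p z g hg
  have hR : ∀ (z : ℤ) (g : G), g ∈ Tpl R U p → R ^ z * g ∈ Tpl R U p := fun z g hg =>
    hsw2 (tpl_left_zpow U R p.swap z g (hsw1 hg))
  have hcl : ∀ x ∈ Subgroup.closure ({R, U} : Set G),
      (∀ g ∈ Tpl R U p, x * g ∈ Tpl R U p) ∧ (∀ g ∈ Tpl R U p, x⁻¹ * g ∈ Tpl R U p) := by
    intro x hx
    induction hx using Subgroup.closure_induction with
    | mem x hx =>
      rcases hx with rfl | hx
      · refine ⟨fun g hg => ?_, fun g hg => ?_⟩
        · simpa using hR 1 g hg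
        · simpa using hR (-1) g hg
      · rw [Set.mem_singleton_iff] at hx
        subst hx
        refine ⟨fun g hg => ?_, fun g hg => ?_⟩
        · simpa using hU 1 g hg
        · simpa using hU (-1) g hg
    | one => exact ⟨fun g hg => by simpa using hg, fun g hg => by simpa using hg⟩
    | mul x y _ _ hx hy =>
      refine ⟨fun g hg => ?_, fun g hg => ?_⟩
      · rw [mul_assoc]
        exact hx.1 _ (hy.1 _ hg)
      · rw [mul_inv_rev, mul_assoc]
        exact hy.2 _ (hx.2 _ hg)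
    | inv x _ hx => exact ⟨hx.2, fun g hg => by simpa using hx.1 g hg⟩
  -- a first element
  have hirr : ∀ z : ℤ, p.2 + Real.sqrt 2 * ((((0 : ℕ) : ℝ) + 1) - p.1) ≠ z := by
    intro z hz
    have hp1 : (r₁ : ℝ) < 1 := by
      have := hp.2.1
      rw [hpr] at this
      exact this
    rw [hpr] at hz
    have h3 : (1 : ℝ) - r₁ ≠ 0 := by
      intro h0
      linarith
    have h4 : Real.sqrt 2 = (((z : ℚ) - r₂) / (1 - r₁) : ℚ) := by
      push_cast
      rw [eq_div_iff h3]
      simp only [Nat.cast_zero, zero_add] at hz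
      linarith
    exact irrational_sqrt_two ⟨_, h4.symm⟩
  set k : ℕ → ℤ := fun j => ⌊p.2 + Real.sqrt 2 * ((j + 1 : ℝ) - p.1)⌋ with hk
  have hg0 : U ^ (0 : ℤ) * W R U k 1 ∈ Tpl R U p := by
    refine ⟨Real.sqrt 2, by positivity, 1, le_refl _, 0, ?_, rfl⟩
    intro j hj z
    have : j = 0 := by omega
    subst this
    exact hirr z
  have hRm : R ∈ Subgroup.closure ({R, U} : Set G) := Subgroup.subset_closure (by simp)
  have hUm : U ∈ Subgroup.closure ({R, U} : Set G) := Subgroup.subset_closure (by simp)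
  have hg0c : U ^ (0 : ℤ) * W R U k 1 ∈ Subgroup.closure ({R, U} : Set G) := by
    simp only [W, cj, mul_one]
    exact mul_mem (zpow_mem hUm _) (mul_mem (mul_mem (zpow_mem hUm _) hRm) (zpow_mem hUm _))
  intro g hg
  have h5 := (hcl (g * (U ^ (0 : ℤ) * W R U k 1)⁻¹) (mul_mem hg (inv_mem hg0c))).1 _ hg0
  rwa [inv_mul_cancel_right] at h5

end Pool.Agent.Lib.H42I
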